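import Pool.Agent.Lib.MP_9ec9ec_co.Planar

/-!
The crossing lemma for drawings in which only independent edges cross, in the form of a bound on the number of
edges inside every set of vertices.
-/

namespace Pool.ConeX

open Finset

variable {V : Type*} [Fintype V] [DecidableEq V]

/-- The end vertices of a crossing. -/
def ends (p : (V × V) × (V × V)) : Finset V := {p.1.1, p.1.2, p.2.1, p.2.2}

/-- Good crossing data: edges of `G`, with four different ends. -/
def Good (G : SimpleGraph V) (C : Multiset ((V × V) × (V × V))) : Prop :=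
  ∀ p ∈ C, G.Adj p.1.1 p.1.2 ∧ G.Adj p.2.1 p.2.2 ∧ (ends p).card = 4

theorem Opt.good {G : SimpleGraph V} {C : Multiset ((V × V) × (V × V))} (h : Opt G C) :
    Good G C := by
  intro p hp
  obtain ⟨h1, h2⟩ := h.adj hp
  refine ⟨h1, h2, ?_⟩
  have h3 : ∀ v, (v = p.1.1 ∨ v = p.1.2) → (v = p.2.1 ∨ v = p.2.2) → False :=
    fun v a b => h.indep hp v a b
  have n1 := h1.ne
  have n2 := h2.ne
  have m1 : p.1.1 ≠ p.2.1 := fun e => h3 _ (Or.inl rfl) (Or.inl e)
  have m2 : p.1.1 ≠ p.2.2 := fun e => h3 _ (Or.inl rfl) (Or.inr e)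
  have m3 : p.1.2 ≠ p.2.1 := fun e => h3 _ (Or.inr rfl) (Or.inl e)
  have m4 : p.1.2 ≠ p.2.2 := fun e => h3 _ (Or.inr rfl) (Or.inr e)
  unfold ends
  rw [card_insert_of_notMem, card_insert_of_notMem, card_insert_of_notMem, card_singleton]
  · simpa using n2
  · simp [m3, m4]
  · simp [n1, m1, m2]

omit [DecidableEq V] in
theorem darts_card (H : SimpleGraph V) [DecidableRel H.Adj] :
    (univ.filter fun p : V × V => H.Adj p.1 p.2).card = 2 * H.edgeFinset.card := by
  rw [← H.sum_degrees_eq_twice_card_edges]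
  simp only [card_filter, ← univ_product_univ, sum_product]
  refine sum_congr rfl fun a _ => ?_
  rw [← card_filter, ← SimpleGraph.card_neighborFinset_eq_degree]
  congr 1
  ext b; simp

/-- The number of darts inside `W`. -/
def darts (G : SimpleGraph V) [DecidableRel G.Adj] (W : Finset V) : ℕ :=
  ((W ×ˢ W).filter fun p : V × V => G.Adj p.1 p.2).card

/-- The number of crossings inside `W`. -/
def crIn (C : Multiset ((V × V) × (V × V))) (W : Finset V) : ℕ :=
  C.countP fun p => ends p ⊆ W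

/-- Deleting one edge at each crossing. -/
theorem darts_le {G : SimpleGraph V} [DecidableRel G.Adj] {C : Multiset ((V × V) × (V × V))}
    (h : DG G [] [] (univ : Finset V).val C) (W : Finset V) :
    darts G W ≤ 6 * W.card + 2 * crIn C W := by
  classical
  let F : Finset (Sym2 V) := ((C.filter fun p => ends p ⊆ W).map fun p => s(p.1.1, p.1.2)).toFinset
  have hF : F.card ≤ crIn C W := by
    refine (Multiset.toFinset_card_le _).trans ?_
    rw [Multiset.card_map, crIn, Multiset.countP_eq_card_filter]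
  have hsymF : ∀ a b : V, s(a, b) ∉ F → s(b, a) ∉ F := fun a b h => by rwa [Sym2.eq_swap]
  obtain ⟨H, hH⟩ : ∃ H : SimpleGraph V, ∀ a b, H.Adj a b ↔
      (G.Adj a b ∧ a ∈ W ∧ b ∈ W ∧ s(a, b) ∉ F) :=
    ⟨{ Adj := fun a b => G.Adj a b ∧ a ∈ W ∧ b ∈ W ∧ s(a, b) ∉ F
       symm := ⟨fun a b h => ⟨h.1.symm, h.2.2.1, h.2.1, hsymF a b h.2.2.2⟩⟩
       loopless := ⟨fun a h => G.loopless.irrefl a h.1⟩ }, fun a b => Iff.rfl⟩
  have hle : H ≤ G := fun a b h => ((hH a b).1 h).1
  obtain ⟨C', h', hc⟩ := Der.restrict hle h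
  have hC' : C' = 0 := by
    rw [← Multiset.card_eq_zero, hc, Multiset.countP_eq_zero]
    rintro p hp ⟨h1, h2⟩
    rw [hH] at h1 h2
    refine h1.2.2.2 ?_
    rw [Multiset.mem_toFinset, Multiset.mem_map]
    refine ⟨p, Multiset.mem_filter.2 ⟨hp, ?_⟩, rfl⟩
    intro x hx
    simp only [ends, mem_insert, mem_singleton] at hx
    rcases hx with rfl | rfl | rfl | rfl
    · exact h1.2.1
    · exact h1.2.2.1
    · exact h2.2.1
    · exact h2.2.2.1
  subst hC'
  have hpl := planar_bound (H := H) (by simpa using h') W fun a b hab => ((hH a b).1 hab).2.1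
  obtain ⟨GW, hGW⟩ : ∃ H : SimpleGraph V, ∀ a b, H.Adj a b ↔ (G.Adj a b ∧ a ∈ W ∧ b ∈ W) :=
    ⟨{ Adj := fun a b => G.Adj a b ∧ a ∈ W ∧ b ∈ W
       symm := ⟨fun a b h => ⟨h.1.symm, h.2.2, h.2.1⟩⟩
       loopless := ⟨fun a h => G.loopless.irrefl a h.1⟩ }, fun a b => Iff.rfl⟩
  have h1 : darts G W = 2 * GW.edgeFinset.card := by
    rw [← darts_card, darts]
    congr 1
    ext p
    simp only [mem_filter, mem_product, mem_univ, true_and, hGW]
    tauto
  have h2 : GW.edgeFinset ⊆ H.edgeFinset ∪ F := by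
    intro z hz
    induction z using Sym2.ind with
    | _ a b =>
      have hab : G.Adj a b ∧ a ∈ W ∧ b ∈ W := by simpa [hGW] using hz
      by_cases hf : s(a, b) ∈ F
      · exact mem_union_right _ hf
      · refine mem_union_left _ ?_
        rw [SimpleGraph.mem_edgeFinset, SimpleGraph.mem_edgeSet, hH]
        exact ⟨hab.1, hab.2.1, hab.2.2, hf⟩
  have h3 := (card_le_card h2).trans (card_union_le _ _)
  omega

omit [Fintype V] in
/-- Weighted sum over the sets between `T` and `U`. -/
theorem sum_weights {U T : Finset V} (hT : T ⊆ U) (p : ℝ) :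
    ∑ W ∈ U.powerset with T ⊆ W, p ^ W.card * (1 - p) ^ (U.card - W.card) = p ^ T.card := by
  have e : (U.powerset.filter fun W => T ⊆ W) = (U \ T).powerset.image (T ∪ ·) := by
    rw [← Finset.Icc_eq_image_powerset hT]
    ext W
    simp only [mem_filter, mem_powerset, mem_Icc]
    tauto
  rw [e, sum_image]
  · have h1 : ∀ W ∈ (U \ T).powerset,
        p ^ (T ∪ W).card * (1 - p) ^ (U.card - (T ∪ W).card) =
        p ^ T.card * (p ^ W.card * (1 - p) ^ ((U \ T).card - W.card)) := by
      intro W hW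
      rw [mem_powerset] at hW
      have hd : Disjoint T W := by
        rw [disjoint_left]
        intro x hx hxW
        exact (mem_sdiff.1 (hW hxW)).2 hx
      rw [card_union_of_disjoint hd, card_sdiff_of_subset hT, pow_add, Nat.sub_sub, mul_assoc]
    rw [sum_congr rfl h1, ← mul_sum, Finset.sum_pow_mul_eq_add_pow]
    simp
  · intro W₁ h₁ W₂ h₂ h
    simp only [coe_powerset, Set.mem_preimage, Set.mem_powerset_iff, coe_subset] at h₁ h₂
    simp only at h
    ext x
    by_cases hx : x ∈ T
    · constructor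
      · intro hx'; exact absurd hx (mem_sdiff.1 (h₁ hx')).2
      · intro hx'; exact absurd hx (mem_sdiff.1 (h₂ hx')).2
    · have := congrArg (x ∈ ·) h
      simpa [hx] using this

section Density

variable {U : Finset V} {p : ℝ}

omit [Fintype V] in
theorem sum_darts (G : SimpleGraph V) [DecidableRel G.Adj] :
    ∑ W ∈ U.powerset, p ^ W.card * (1 - p) ^ (U.card - W.card) * (darts G W : ℝ) =
      darts G U * p ^ 2 := by
  have h1 : ∀ W ∈ U.powerset, (darts G W : ℝ) =
      ∑ q ∈ (U ×ˢ U).filter (fun p : V × V => G.Adj p.1 p.2),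
        if ({q.1, q.2} : Finset V) ⊆ W then 1 else 0 := by
    intro W hW
    rw [mem_powerset] at hW
    rw [Finset.sum_boole, darts]
    congr 2
    ext q
    simp only [mem_filter, mem_product, insert_subset_iff, singleton_subset_iff]
    constructor
    · rintro ⟨⟨h1, h2⟩, h3⟩; exact ⟨⟨⟨hW h1, hW h2⟩, h3⟩, h1, h2⟩
    · rintro ⟨⟨-, h3⟩, h1, h2⟩; exact ⟨⟨h1, h2⟩, h3⟩
  rw [sum_congr rfl fun W hW => by rw [h1 W hW, mul_sum], sum_comm]
  have h2 : ∀ q ∈ (U ×ˢ U).filter (fun p : V × V => G.Adj p.1 p.2),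
      ∑ W ∈ U.powerset, p ^ W.card * (1 - p) ^ (U.card - W.card) *
        (if ({q.1, q.2} : Finset V) ⊆ W then 1 else 0) = p ^ 2 := by
    intro q hq
    simp only [mem_filter, mem_product] at hq
    have hT : ({q.1, q.2} : Finset V) ⊆ U := by
      simp [insert_subset_iff, hq.1]
    have hc : ({q.1, q.2} : Finset V).card = 2 := card_pair hq.2.ne
    have h3 := sum_weights hT p
    rw [hc, sum_filter] at h3
    rw [← h3]
    refine sum_congr rfl fun W _ => ?_
    split_ifs <;> simp
  rw [sum_congr rfl h2, sum_const, nsmul_eq_mul, darts]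

omit [Fintype V] in
theorem sum_cards :
    ∑ W ∈ U.powerset, p ^ W.card * (1 - p) ^ (U.card - W.card) * (W.card : ℝ) =
      U.card * p := by
  have h1 : ∀ W ∈ U.powerset, (W.card : ℝ) = ∑ v ∈ U, if ({v} : Finset V) ⊆ W then 1 else 0 := by
    intro W hW
    rw [mem_powerset] at hW
    rw [Finset.sum_boole]
    congr 2
    ext v
    simp only [mem_filter, singleton_subset_iff]
    exact ⟨fun h => ⟨hW h, h⟩, fun h => h.2⟩
  rw [sum_congr rfl fun W hW => by rw [h1 W hW, mul_sum], sum_comm]
  have h2 : ∀ v ∈ U,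
      ∑ W ∈ U.powerset, p ^ W.card * (1 - p) ^ (U.card - W.card) *
        (if ({v} : Finset V) ⊆ W then 1 else 0) = p := by
    intro v hv
    have hT : ({v} : Finset V) ⊆ U := by simpa using hv
    have h3 := sum_weights hT p
    rw [card_singleton, pow_one, sum_filter] at h3
    refine Eq.trans (sum_congr rfl fun W _ => ?_) h3
    split_ifs <;> simp
  rw [sum_congr rfl h2, sum_const, nsmul_eq_mul]

omit [Fintype V] in
theorem sum_crIn (C : Multiset ((V × V) × (V × V)))
    (hC : ∀ c ∈ C, (ends c).card = 4) :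
    ∑ W ∈ U.powerset, p ^ W.card * (1 - p) ^ (U.card - W.card) * (crIn C W : ℝ) ≤
      C.card * p ^ 4 := by
  induction C using Multiset.induction_on with
  | empty => simp [crIn]
  | cons c C ih =>
    have ih' := ih fun d hd => hC d (Multiset.mem_cons_of_mem hd)
    have h1 : ∀ W : Finset V, (crIn (c ::ₘ C) W : ℝ) =
        crIn C W + if ends c ⊆ W then 1 else 0 := by
      intro W
      unfold crIn
      rw [Multiset.countP_cons]
      split_ifs <;> simp
    simp only [h1, mul_add, sum_add_distrib, Multiset.card_cons, Nat.cast_add, Nat.cast_one,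
      add_mul, one_mul]
    refine add_le_add ih' ?_
    have hc := hC c (Multiset.mem_cons_self _ _)
    by_cases hT : ends c ⊆ U
    · have h3 := sum_weights hT p
      rw [hc, sum_filter] at h3
      rw [← h3]
      refine le_of_eq (sum_congr rfl fun W _ => ?_)
      split_ifs <;> simp
    · have : ∑ W ∈ U.powerset, p ^ W.card * (1 - p) ^ (U.card - W.card) *
          (if ends c ⊆ W then (1 : ℝ) else 0) = 0 := by
        refine sum_eq_zero fun W hW => ?_
        rw [if_neg, mul_zero]
        exact fun h => hT (h.trans (mem_powerset.1 hW))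
      rw [this]
      positivity

end Density

/-- **Crossing lemma** for the vertex sets of a drawing. -/
theorem density {G : SimpleGraph V} [DecidableRel G.Adj] {C : Multiset ((V × V) × (V × V))}
    (h : DG G [] [] (univ : Finset V).val C) (hg : Good G C) (U : Finset V) :
    darts G U ≤ 8 * U.card ∨ darts G U ^ 3 ≤ 512 * C.card * U.card ^ 2 := by
  by_cases hd : darts G U ≤ 8 * U.card
  · exact Or.inl hd
  right
  push Not at hd
  obtain ⟨n, hn⟩ : ∃ n : ℝ, n = (U.card : ℝ) := ⟨_, rfl⟩
  obtain ⟨d, hdd⟩ : ∃ d : ℝ, d = (darts G U : ℝ) := ⟨_, rfl⟩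
  have hd' : 8 * n < d := by rw [hn, hdd]; exact_mod_cast hd
  have hn0 : 0 < n := by
    rw [hn]
    norm_cast
    rw [Finset.card_pos]
    by_contra hU
    rw [not_nonempty_iff_eq_empty] at hU
    subst hU
    simp [darts] at hd
  have hd0 : 0 < d := by linarith
  obtain ⟨p, hp⟩ : ∃ p : ℝ, p = 8 * n / d := ⟨_, rfl⟩
  have hp0 : 0 < p := by rw [hp]; positivity
  have hp1 : p ≤ 1 := by rw [hp, div_le_one hd0]; exact hd'.le
  have h1 : ∑ W ∈ U.powerset, p ^ W.card * (1 - p) ^ (U.card - W.card) * (darts G W : ℝ) ≤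
      ∑ W ∈ U.powerset, p ^ W.card * (1 - p) ^ (U.card - W.card) *
        (6 * (W.card : ℝ) + 2 * (crIn C W : ℝ)) := by
    refine sum_le_sum fun W _ => mul_le_mul_of_nonneg_left ?_ ?_
    · exact_mod_cast darts_le h W
    · have : 0 ≤ 1 - p := by linarith
      positivity
  have h2 : ∑ W ∈ U.powerset, p ^ W.card * (1 - p) ^ (U.card - W.card) *
        (6 * (W.card : ℝ) + 2 * (crIn C W : ℝ)) =
      6 * (∑ W ∈ U.powerset, p ^ W.card * (1 - p) ^ (U.card - W.card) * (W.card : ℝ)) +
      2 * (∑ W ∈ U.powerset, p ^ W.card * (1 - p) ^ (U.card - W.card) * (crIn C W : ℝ)) := by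
    rw [mul_sum, mul_sum, ← sum_add_distrib]
    refine sum_congr rfl fun W _ => by ring
  rw [h2, sum_darts, sum_cards, ← hn, ← hdd] at h1
  have h3 := sum_crIn (U := U) (p := p) C fun c hc => (hg c hc).2.2
  have h4 : d * p ^ 2 ≤ 6 * (n * p) + 2 * (C.card * p ^ 4) := by linarith
  have h5 : p * d = 8 * n := by rw [hp]; field_simp
  have h6 : d * p ≤ 6 * n + 2 * (C.card * p ^ 3) := by
    have : p * (d * p) ≤ p * (6 * n + 2 * (C.card * p ^ 3)) := by
      calc p * (d * p) = d * p ^ 2 := by ring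
        _ ≤ _ := h4
        _ = _ := by ring
    exact le_of_mul_le_mul_left this hp0
  have h7 : n ≤ C.card * p ^ 3 := by nlinarith
  have h8 : d ^ 3 ≤ 512 * C.card * n ^ 2 := by
    have h9 : n * d ^ 3 ≤ C.card * (p * d) ^ 3 := by
      calc n * d ^ 3 ≤ (C.card * p ^ 3) * d ^ 3 := by
            exact mul_le_mul_of_nonneg_right h7 (by positivity)
        _ = _ := by ring
    rw [h5] at h9
    have : n * d ^ 3 ≤ n * (512 * C.card * n ^ 2) := by
      calc n * d ^ 3 ≤ _ := h9
        _ = _ := by ring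
    exact le_of_mul_le_mul_left this hn0
  rw [hn, hdd] at h8
  exact_mod_cast h8

end Pool.ConeX
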