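import Mathlib

/-!
Crossing numbers of finite simple graphs, via sweep-line words, and the cone over a graph.

A drawing of `G` in the plane (in general position) is read by a vertical line that sweeps the plane from left
to right.  Between two events the line meets the drawing in finitely many points, listed from bottom to top; the
point where the arc of the edge `ab`, traversed from `a` to `b`, crosses the line from left to right is the
letter `(a, b)`.  The events are
* a leftmost point of an arc (two neighbouring letters `(a,b), (b,a)` appear),
* a rightmost point of an arc (they disappear),
* a crossing of two arcs (two neighbouring letters are exchanged; this costs one),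
* a vertex `v`, at which the edges from the neighbours in the list `X` arrive from the left and the edges to the
  neighbours in the list `Y` leave to the right; every neighbour of `v` occurs exactly once in `X ++ Y`.
A drawing is a run from the empty word to the empty word that meets every vertex exactly once.
-/

namespace Pool.ConeX

/-- `Sweep G W S k`: the sweep line can reach the word `W` after meeting exactly the vertices in `S` and exactly
`k` crossings. -/
inductive Sweep {V : Type*} [DecidableEq V] (G : SimpleGraph V) :
    List (V × V) → Finset V → ℕ → Prop
  | start : Sweep G [] ∅ 0
  | create {A B : List (V × V)} {S : Finset V} {k : ℕ} (a b : V) (hab : G.Adj a b)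
      (h : Sweep G (A ++ B) S k) : Sweep G (A ++ [(a, b), (b, a)] ++ B) S k
  | cancel {A B : List (V × V)} {S : Finset V} {k : ℕ} (a b : V)
      (h : Sweep G (A ++ [(a, b), (b, a)] ++ B) S k) : Sweep G (A ++ B) S k
  | cross {A B : List (V × V)} {S : Finset V} {k : ℕ} (p q : V × V)
      (h : Sweep G (A ++ [p, q] ++ B) S k) : Sweep G (A ++ [q, p] ++ B) S (k + 1)
  | vertex {A B : List (V × V)} {S : Finset V} {k : ℕ} (v : V) (X Y : List V) (hv : v ∉ S)
      (hnd : (X ++ Y).Nodup) (hN : ∀ w, w ∈ X ++ Y ↔ G.Adj v w)
      (h : Sweep G (A ++ X.map (fun w => (w, v)) ++ B) S k) :
      Sweep G (A ++ Y.map (fun w => (v, w)) ++ B) (insert v S) k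

/-- The crossing number: the least number of crossings of a drawing. -/
noncomputable def crossingNumber {V : Type*} [Fintype V] [DecidableEq V] (G : SimpleGraph V) : ℕ :=
  sInf {k | Sweep G [] Finset.univ k}

/-- The cone over `G`: one new vertex `none`, adjacent to every vertex of `G`. -/
def cone {V : Type*} (G : SimpleGraph V) : SimpleGraph (Option V) where
  Adj
    | none, none => False
    | none, some _ => True
    | some _, none => True
    | some a, some b => G.Adj a b
  symm := ⟨by
    rintro (_ | a) (_ | b) h
    · exact h
    · trivial
    · trivial
    · exact G.adj_symm h⟩
  loopless := ⟨by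
    rintro (_ | a) h
    · exact h
    · exact G.loopless.irrefl a h⟩

end Pool.ConeX
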