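import Pool.Agent.Lib.MP_9ec9ec_co.Main

/-!
The increase of the crossing number under coning, for graphs of given maximum degree: averaging the redrawing
lemma over a random set of vertices.
-/

namespace Pool.ConeX

open Finset

variable {V : Type*} [Fintype V] [DecidableEq V]

/-- The weight of a random vertex set that contains each vertex with probability `r`. -/
noncomputable def wt (r : ℝ) (N : Finset V) : ℝ :=
  r ^ N.card * (1 - r) ^ ((univ : Finset V).card - N.card)

theorem wt_sum (r : ℝ) (T : Finset V) :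
    ∑ N ∈ (univ : Finset V).powerset, wt r N * (if T ⊆ N then 1 else 0) = r ^ T.card := by
  rw [← sum_weights (subset_univ T) r, sum_filter]
  refine sum_congr rfl fun N _ => ?_
  unfold wt
  split_ifs <;> simp

theorem wt_sum_sep (r : ℝ) (p : (V × V) × (V × V)) (hp : (ends p).card = 4) :
    ∑ N ∈ (univ : Finset V).powerset, wt r N * (if sep Nᶜ p then 1 else 0) =
      2 * r ^ 2 - 2 * r ^ 4 := by
  obtain ⟨⟨a, b⟩, c, d⟩ := p
  obtain ⟨n1, n2, n3, n4⟩ := four_ne hp
  have hab : a ≠ b := by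
    rintro rfl
    have : ({a, a, c, d} : Finset V).card < 4 := by
      rw [show ({a, a, c, d} : Finset V) = {a, c, d} by ext; simp]
      exact lt_of_le_of_lt card_le_three (by norm_num)
    exact absurd hp (by unfold ends; simp only at this ⊢; omega)
  have hcd : c ≠ d := by
    rintro rfl
    have : ({a, b, c, c} : Finset V).card < 4 := by
      rw [show ({a, b, c, c} : Finset V) = {a, b, c} by ext; simp]
      exact lt_of_le_of_lt card_le_three (by norm_num)
    exact absurd hp (by unfold ends; simp only at this ⊢; omega)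
  have h1 := wt_sum r ({a, b} : Finset V)
  have h2 := wt_sum r ({c, d} : Finset V)
  have h3 := wt_sum r ({a, b, c, d} : Finset V)
  rw [card_pair hab] at h1
  rw [card_pair hcd] at h2
  have hp' : ({a, b, c, d} : Finset V).card = 4 := hp
  rw [hp'] at h3
  have key : ∀ N : Finset V, (if sep Nᶜ ((a, b), (c, d)) then (1 : ℝ) else 0) =
      (if ({a, b} : Finset V) ⊆ N then 1 else 0) + (if ({c, d} : Finset V) ⊆ N then 1 else 0) -
        2 * (if ({a, b, c, d} : Finset V) ⊆ N then 1 else 0) := by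
    intro N
    unfold sep
    simp only [mem_compl, insert_subset_iff, singleton_subset_iff]
    by_cases ha : a ∈ N <;> by_cases hb : b ∈ N <;> by_cases hc : c ∈ N <;> by_cases hd : d ∈ N <;>
      simp [ha, hb, hc, hd] <;> norm_num
  simp only [key, mul_sub, mul_add, sum_sub_distrib, sum_add_distrib]
  have h4 : ∑ N ∈ (univ : Finset V).powerset,
      wt r N * (2 * if ({a, b, c, d} : Finset V) ⊆ N then 1 else 0) = 2 * r ^ 4 := by
    rw [← h3, mul_sum]
    refine sum_congr rfl fun N _ => by ring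
  rw [h1, h2, h4]
  ring

theorem wt_sum_nbr (G : SimpleGraph V) [DecidableRel G.Adj] (r : ℝ) (w : V) :
    ∑ N ∈ (univ : Finset V).powerset, wt r N * ((if w ∈ Nᶜ then 0 else nbr G Nᶜ w : ℕ) : ℝ) =
      G.degree w * (r - r ^ 2) := by
  have h1 := wt_sum r ({w} : Finset V)
  rw [card_singleton, pow_one] at h1
  have key : ∀ N : Finset V, ((if w ∈ Nᶜ then 0 else nbr G Nᶜ w : ℕ) : ℝ) =
      ∑ u ∈ G.neighborFinset w, ((if ({w} : Finset V) ⊆ N then (1 : ℝ) else 0) -
        if ({w, u} : Finset V) ⊆ N then (1 : ℝ) else 0) := by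
    intro N
    simp only [mem_compl, insert_subset_iff, singleton_subset_iff]
    by_cases hw : w ∈ N
    · simp only [hw, not_true_eq_false, if_false, true_and, if_true]
      have e : Nᶜ.filter (fun u => G.Adj w u) = (G.neighborFinset w).filter fun u => u ∉ N := by
        ext u; simp [and_comm]
      rw [nbr, e, ← Finset.sum_boole]
      refine sum_congr rfl fun u _ => ?_
      by_cases hu : u ∈ N <;> simp [hu]
    · simp [hw]
  simp only [key]
  have h2 : ∀ N ∈ (univ : Finset V).powerset, wt r N *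
      ∑ u ∈ G.neighborFinset w, ((if ({w} : Finset V) ⊆ N then (1 : ℝ) else 0) -
        if ({w, u} : Finset V) ⊆ N then (1 : ℝ) else 0) =
      ∑ u ∈ G.neighborFinset w, (wt r N * (if ({w} : Finset V) ⊆ N then (1 : ℝ) else 0) -
        wt r N * if ({w, u} : Finset V) ⊆ N then (1 : ℝ) else 0) := by
    intro N _
    rw [mul_sum]
    refine sum_congr rfl fun u _ => by ring
  rw [sum_congr rfl h2, sum_comm]
  have h3 : ∀ u ∈ G.neighborFinset w,
      ∑ N ∈ (univ : Finset V).powerset, (wt r N * (if ({w} : Finset V) ⊆ N then (1 : ℝ) else 0) -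
        wt r N * if ({w, u} : Finset V) ⊆ N then (1 : ℝ) else 0) = r - r ^ 2 := by
    intro u hu
    have hwu : w ≠ u := by
      have : G.Adj w u := by simpa using hu
      exact this.ne
    have h4 := wt_sum r ({w, u} : Finset V)
    rw [card_pair hwu] at h4
    rw [sum_sub_distrib, h1, h4]
  rw [sum_congr rfl h3, sum_const, nsmul_eq_mul, SimpleGraph.card_neighborFinset_eq_degree]

theorem wt_sum_countP (r : ℝ) (E : Multiset ((V × V) × (V × V)))
    (hE : ∀ p ∈ E, (ends p).card = 4) :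
    ∑ N ∈ (univ : Finset V).powerset, wt r N * (E.countP (sep Nᶜ) : ℝ) =
      E.card * (2 * r ^ 2 - 2 * r ^ 4) := by
  induction E using Multiset.induction_on with
  | empty => simp
  | cons p E ih =>
    have ih' := ih fun q hq => hE q (Multiset.mem_cons_of_mem hq)
    have h1 : ∀ N : Finset V, ((p ::ₘ E).countP (sep Nᶜ) : ℝ) =
        E.countP (sep Nᶜ) + if sep Nᶜ p then 1 else 0 := by
      intro N
      rw [Multiset.countP_cons]
      split_ifs <;> simp
    simp only [h1, mul_add, sum_add_distrib, Multiset.card_cons, Nat.cast_add, Nat.cast_one]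
    rw [ih', wt_sum_sep r p (hE p (Multiset.mem_cons_self _ _))]
    ring

theorem wt_sum_rails (G : SimpleGraph V) [DecidableRel G.Adj] {r D : ℝ} (hr0 : 0 ≤ r)
    (hr1 : r ≤ 1) (hD : ∀ w, (G.degree w : ℝ) ≤ D) (R : Multiset V) :
    ∑ N ∈ (univ : Finset V).powerset,
      wt r N * (((R.map fun w => if w ∈ Nᶜ then 0 else nbr G Nᶜ w).sum : ℕ) : ℝ) ≤
      R.card * (D * (r - r ^ 2)) := by
  induction R using Multiset.induction_on with
  | empty => simp
  | cons w R ih =>
    have h1 : ∀ N : Finset V,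
        ((((w ::ₘ R).map fun w => if w ∈ Nᶜ then 0 else nbr G Nᶜ w).sum : ℕ) : ℝ) =
        ((if w ∈ Nᶜ then 0 else nbr G Nᶜ w : ℕ) : ℝ) +
        (((R.map fun w => if w ∈ Nᶜ then 0 else nbr G Nᶜ w).sum : ℕ) : ℝ) := by
      intro N
      rw [Multiset.map_cons, Multiset.sum_cons, Nat.cast_add]
    simp only [h1, mul_add, sum_add_distrib, Multiset.card_cons, Nat.cast_add, Nat.cast_one]
    rw [wt_sum_nbr]
    have h2 : 0 ≤ r - r ^ 2 := by nlinarith
    have h3 := mul_le_mul_of_nonneg_right (hD w) h2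
    linarith

/-- The increase for graphs of given maximum degree. -/
theorem cone_degree (G : SimpleGraph V) [DecidableRel G.Adj] (D : ℕ) (hD : 3 ≤ D)
    (hdeg : ∀ v, G.degree v ≤ D) :
    (1 + (4 * D + 2) / (D + 1) ^ 2 : ℝ) * crossingNumber G ≤ crossingNumber (cone G) := by
  obtain ⟨q, hq, hq1⟩ : ∃ q : ℕ, crossingNumber G ≤ q ^ 4 ∧ 1 ≤ q := by
    refine ⟨crossingNumber G + 1, ?_, by omega⟩
    calc crossingNumber G ≤ crossingNumber G + 1 := by omega
      _ = (crossingNumber G + 1) ^ 1 := by ring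
      _ ≤ (crossingNumber G + 1) ^ 4 := Nat.pow_le_pow_right (by omega) (by norm_num)
  obtain ⟨hle, E, R, hL⟩ := layerData G hq hq1
  obtain ⟨k, hk⟩ : ∃ k, k = crossingNumber G := ⟨_, rfl⟩
  obtain ⟨c, hc⟩ : ∃ c, c = crossingNumber (cone G) := ⟨_, rfl⟩
  rw [← hk, ← hc] at hle hL ⊢
  obtain ⟨t, ht⟩ : ∃ t, t = c - k := ⟨_, rfl⟩
  rw [← ht] at hL
  have hct : (c : ℝ) = k + t := by
    have : c = k + t := by omega
    exact_mod_cast this
  rw [hct]
  have hD' : (3 : ℝ) ≤ D := by exact_mod_cast hD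
  obtain ⟨r, hr⟩ : ∃ r : ℝ, r = D / (D + 1) := ⟨_, rfl⟩
  have hr0 : 0 ≤ r := by rw [hr]; positivity
  have hr1 : r ≤ 1 := by rw [hr, div_le_one (by positivity)]; linarith
  have hw0 : ∀ N : Finset V, 0 ≤ wt r N := fun N => by
    unfold wt
    have : 0 ≤ 1 - r := by linarith
    positivity
  have hone : ∑ N ∈ (univ : Finset V).powerset, wt r N = 1 := by
    have := wt_sum r (∅ : Finset V)
    simpa using this
  have hineq : ∑ N ∈ (univ : Finset V).powerset, wt r N * ((k : ℝ) + (E.countP (sep Nᶜ) : ℝ)) ≤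
      ∑ N ∈ (univ : Finset V).powerset, wt r N * ((E.card : ℝ) +
        (((R.map fun w => if w ∈ Nᶜ then 0 else nbr G Nᶜ w).sum : ℕ) : ℝ)) := by
    refine sum_le_sum fun N _ => mul_le_mul_of_nonneg_left ?_ (hw0 N)
    exact_mod_cast hL.redraw Nᶜ
  simp only [mul_add, sum_add_distrib, ← sum_mul] at hineq
  rw [hone, wt_sum_countP r E hL.ends4] at hineq
  have hrails := wt_sum_rails G hr0 hr1 (D := D) (fun w => by exact_mod_cast hdeg w) R
  have htot : (E.card : ℝ) + R.card = k + t := by exact_mod_cast hL.total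
  have hkE : (k : ℝ) ≤ E.card := by
    have h0 := hL.redraw ∅
    have e0 : (R.map fun w => if w ∈ (∅ : Finset V) then 0 else nbr G ∅ w).sum = 0 := by
      rw [Multiset.sum_eq_zero_iff]
      intro x hx
      obtain ⟨w, -, rfl⟩ := Multiset.mem_map.1 hx
      simp [nbr]
    have : k ≤ E.card := by omega
    exact_mod_cast this
  obtain ⟨e, he⟩ : ∃ e : ℝ, e = E.card := ⟨_, rfl⟩
  obtain ⟨ρ, hρ⟩ : ∃ ρ : ℝ, ρ = R.card := ⟨_, rfl⟩
  rw [← he, ← hρ] at htot
  rw [← he] at hkE hineq
  rw [← hρ] at hrails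
  have hDr : (D : ℝ) * (r - r ^ 2) = r ^ 2 := by
    rw [hr]; field_simp; ring
  rw [hDr] at hrails
  -- `2 r² (1 - r²) (k + s) ≤ s + (t - s) r²` with `s = e - k`
  have h1 : (k : ℝ) + e * (2 * r ^ 2 - 2 * r ^ 4) ≤ e + ρ * r ^ 2 := by linarith
  have h2r : 1 ≤ 2 * r ^ 2 := by
    have : (3 / 4 : ℝ) ≤ r := by
      rw [hr, le_div_iff₀ (by positivity)]; linarith
    nlinarith
  have hr2 : r ^ 2 ≤ 1 := by nlinarith
  have h3 : r ^ 2 * (2 * (1 - r ^ 2) * k) ≤ r ^ 2 * t := by
    have h4 : 0 ≤ (e - k) * ((1 - r ^ 2) * (2 * r ^ 2 - 1)) :=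
      mul_nonneg (by linarith) (mul_nonneg (by linarith) (by linarith))
    have h5 : ρ = k + t - e := by linarith
    rw [h5] at h1
    nlinarith
  have h6 : 2 * (1 - r ^ 2) * k ≤ t := le_of_mul_le_mul_left h3 (by nlinarith)
  have h7 : 2 * (1 - r ^ 2) = (4 * D + 2) / (D + 1) ^ 2 := by
    rw [hr]; field_simp; ring
  rw [h7] at h6
  linarith

end Pool.ConeX
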