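import Pool.Agent.Lib.MP_9ec9ec_co.Graph

/-!
The complete graph on five vertices is not planar in the word calculus: the number of crossings of independent
edges is odd in every drawing.
-/

namespace Pool.ConeX

/-- Two letters belong to disjoint edges. -/
def ind5 (x y : Fin 5 × Fin 5) : ZMod 2 :=
  if x.1 ≠ x.2 ∧ y.1 ≠ y.2 ∧ x.1 ≠ y.1 ∧ x.1 ≠ y.2 ∧ x.2 ≠ y.1 ∧ x.2 ≠ y.2 then 1 else 0

/-- One half of `ind5`. -/
def psi5 (x y : Fin 5 × Fin 5) : ZMod 2 :=
  if min x.1 x.2 < min y.1 y.2 then ind5 x y else 0

theorem psi5_swap_left : ∀ x y : Fin 5 × Fin 5, psi5 x.swap y = psi5 x y := by decide +kernel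

theorem psi5_swap_right : ∀ x y : Fin 5 × Fin 5, psi5 x y.swap = psi5 x y := by decide +kernel

theorem psi5_self : ∀ x : Fin 5 × Fin 5, psi5 x x.swap = 0 := by decide +kernel

theorem psi5_add : ∀ x y : Fin 5 × Fin 5, psi5 y x + psi5 x y = ind5 x y := by decide +kernel

theorem psi5_same : ∀ u u' v : Fin 5, psi5 (u, v) (u', v) = 0 := by decide +kernel

/-- The interaction of the star of `v` with the letter `z`. -/
def star5 (v : Fin 5) (z : Fin 5 × Fin 5) : ZMod 2 := ∑ u ∈ Finset.univ.erase v, psi5 z (u, v)

theorem star5_comm : ∀ (v : Fin 5) (z : Fin 5 × Fin 5),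
    ∑ u ∈ Finset.univ.erase v, psi5 (u, v) z = star5 v z := by decide +kernel

/-- The interaction of two stars. -/
def star52 (v w : Fin 5) : ZMod 2 := ∑ u ∈ Finset.univ.erase w, star5 v (u, w)

theorem star52_comm : ∀ v w : Fin 5, star52 v w = star52 w v := by decide +kernel

theorem star52_self : ∀ v : Fin 5, star52 v v = 0 := by decide +kernel

/-- The sum of the interactions of the stars. -/
def starSum5 : List (Fin 5) → ZMod 2
  | [] => 0
  | v :: l => starSum5 l + (l.map (star52 v)).sum

theorem starSum5_perm {l l' : List (Fin 5)} (h : l.Perm l') : starSum5 l = starSum5 l' := by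
  induction h with
  | nil => rfl
  | cons x h ih => rw [starSum5, starSum5, ih, (h.map _).sum_eq]
  | swap x y l =>
    simp only [starSum5, List.map_cons, List.sum_cons]
    rw [star52_comm x y]
    ring
  | trans _ _ ih1 ih2 => exact ih1.trans ih2

theorem starSum5_top : starSum5 (List.finRange 5) = 1 := by decide +kernel

/-- The potential. -/
def pot5 : List (Fin 5 × Fin 5) → ZMod 2
  | [] => 0
  | x :: w => (w.map (psi5 x)).sum + pot5 w

/-- The interaction of two words. -/
def crs5 (A B : List (Fin 5 × Fin 5)) : ZMod 2 := (A.map fun x => (B.map (psi5 x)).sum).sum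

theorem pot5_append (A B : List (Fin 5 × Fin 5)) : pot5 (A ++ B) = pot5 A + crs5 A B + pot5 B := by
  induction A with
  | nil => simp [pot5, crs5]
  | cons x A ih =>
    rw [List.cons_append, pot5, pot5, ih, List.map_append, List.sum_append, crs5, crs5, List.map_cons,
      List.sum_cons]
    ring

theorem crs5_append_left (A B D : List (Fin 5 × Fin 5)) : crs5 (A ++ B) D = crs5 A D + crs5 B D := by
  simp [crs5]

theorem crs5_append_right (A B D : List (Fin 5 × Fin 5)) : crs5 A (B ++ D) = crs5 A B + crs5 A D := by
  induction A with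
  | nil => simp [crs5]
  | cons x A ih =>
    simp only [crs5, List.map_cons, List.sum_cons, List.map_append, List.sum_append] at ih ⊢
    rw [ih]
    ring

theorem crs5_pair (A : List (Fin 5 × Fin 5)) (x : Fin 5 × Fin 5) : crs5 A [x, x.swap] = 0 := by
  induction A with
  | nil => rfl
  | cons y A ih =>
    simp only [crs5, List.map_cons, List.sum_cons, List.map_nil, List.sum_nil] at ih ⊢
    rw [ih, psi5_swap_right]
    have := CharTwo.add_self_eq_zero (psi5 y x)
    linear_combination this

theorem pair_crs5 (B : List (Fin 5 × Fin 5)) (x : Fin 5 × Fin 5) : crs5 [x, x.swap] B = 0 := by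
  have e : psi5 x.swap = psi5 x := funext fun y => psi5_swap_left x y
  simp only [crs5, List.map_cons, List.sum_cons, List.map_nil, List.sum_nil, e]
  have := CharTwo.add_self_eq_zero (B.map (psi5 x)).sum
  linear_combination this

theorem pot5_pair (x : Fin 5 × Fin 5) : pot5 [x, x.swap] = 0 := by
  simp [pot5, psi5_self]

theorem pot5_create (A B : List (Fin 5 × Fin 5)) (x : Fin 5 × Fin 5) :
    pot5 (A ++ x :: x.swap :: B) = pot5 (A ++ B) := by
  rw [show x :: x.swap :: B = [x, x.swap] ++ B from rfl, pot5_append, pot5_append, pot5_append,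
    crs5_append_right, crs5_pair, pair_crs5, pot5_pair]
  ring

theorem pot5_cross (A B : List (Fin 5 × Fin 5)) (x y : Fin 5 × Fin 5) :
    pot5 (A ++ y :: x :: B) + ind5 x y = pot5 (A ++ x :: y :: B) := by
  rw [pot5_append, pot5_append, ← psi5_add]
  have e : crs5 A (y :: x :: B) = crs5 A (x :: y :: B) := by
    induction A with
    | nil => rfl
    | cons z A ih =>
      simp only [crs5, List.map_cons, List.sum_cons] at ih ⊢
      rw [ih]
      ring
  simp only [e, pot5, List.map_cons, List.sum_cons]
  have := CharTwo.add_self_eq_zero (psi5 y x)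
  linear_combination this

theorem crs5_comm (A B : List (Fin 5 × Fin 5)) :
    crs5 A B = (B.map fun z => (A.map fun x => psi5 x z).sum).sum := by
  induction A with
  | nil => simp [crs5]
  | cons x A ih =>
    simp only [crs5, List.map_cons, List.sum_cons] at ih ⊢
    rw [ih]
    clear ih
    induction B with
    | nil => simp
    | cons z B ih =>
      simp only [List.map_cons, List.sum_cons]
      rw [← ih]
      ring

theorem sum_star5 {v : Fin 5} {P : List (Fin 5)} (hP : P.Nodup) (hm : ∀ w, w ∈ P ↔ v ≠ w)
    (f : Fin 5 → ZMod 2) : (P.map f).sum = ∑ u ∈ Finset.univ.erase v, f u := by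
  rw [← List.sum_toFinset f hP]
  refine Finset.sum_congr ?_ fun _ _ => rfl
  ext w
  rw [List.mem_toFinset, hm]
  simp [eq_comm]

theorem parity5 {w : List (Fin 5 × Fin 5)} {S : Multiset (Fin 5)}
    {C : Multiset ((Fin 5 × Fin 5) × (Fin 5 × Fin 5))}
    (h : DG (⊤ : SimpleGraph (Fin 5)) [] w S C) :
    (∀ g : Fin 5 × Fin 5 → ZMod 2, (∀ x, g x.swap = g x) →
      (w.map g).sum = (S.map fun v => ∑ u ∈ Finset.univ.erase v, g (u, v)).sum) ∧
    ∃ l : List (Fin 5), (↑l : Multiset (Fin 5)) = S ∧
      pot5 w + (C.map fun p => ind5 p.1 p.2).sum = starSum5 l := by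
  induction h with
  | refl => exact ⟨fun g _ => rfl, [], rfl, rfl⟩
  | @create A B S C x _ ih =>
    obtain ⟨i1, l, hl, i2⟩ := ih
    refine ⟨fun g hg => ?_, l, hl, ?_⟩
    · rw [← i1 g hg]
      simp only [List.map_append, List.map_cons, List.sum_append, List.sum_cons, hg]
      have := CharTwo.add_self_eq_zero (g x)
      linear_combination this
    · rw [pot5_create, i2]
  | @cancel A B S C x _ ih =>
    obtain ⟨i1, l, hl, i2⟩ := ih
    refine ⟨fun g hg => ?_, l, hl, ?_⟩
    · rw [← i1 g hg]
      simp only [List.map_append, List.map_cons, List.sum_append, List.sum_cons, hg]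
      have := CharTwo.add_self_eq_zero (g x)
      linear_combination -this
    · rw [pot5_create] at i2
      exact i2
  | @cross A B S C x y _ ih =>
    obtain ⟨i1, l, hl, i2⟩ := ih
    refine ⟨fun g hg => ?_, l, hl, ?_⟩
    · rw [← i1 g hg]
      simp only [List.map_append, List.map_cons, List.sum_append, List.sum_cons]
      ring
    · rw [Multiset.map_cons, Multiset.sum_cons, ← i2, ← pot5_cross A B x y]
      ring
  | @vertex A B X S C v hv hder ih =>
    obtain ⟨i1, l, hl, i2⟩ := ih
    obtain ⟨P, hP, hm, rfl⟩ := hv
    have hm' : ∀ w, w ∈ P ↔ v ≠ w := fun w => by rw [hm w, SimpleGraph.top_adj]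
    refine ⟨fun g hg => ?_, v :: l, by rw [← hl, Multiset.cons_coe], ?_⟩
    · have h1 := i1 g hg
      rw [Multiset.map_cons, Multiset.sum_cons, ← h1, ← sum_star5 hP hm' fun u => g (u, v)]
      simp only [List.map_append, List.sum_append, List.map_map, Function.comp_def]
      have := CharTwo.add_self_eq_zero (P.map fun u => g (u, v)).sum
      linear_combination -this
    · have h1 := i1 (star5 v) (fun x => Finset.sum_congr rfl fun u _ => psi5_swap_left x (u, v))
      have h2 : (S.map fun w => ∑ u ∈ Finset.univ.erase w, star5 v (u, w)).sum =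
          (l.map (star52 v)).sum := by
        rw [← hl]
        rfl
      rw [h2] at h1
      simp only [List.map_append, List.sum_append, List.map_map, Function.comp_def] at h1
      have h3 : (P.map fun u => star5 v (u, v)).sum = 0 := by
        rw [sum_star5 hP hm' fun u => star5 v (u, v)]
        exact star52_self v
      have h4 : crs5 A (P.map fun w => (w, v)) = (A.map (star5 v)).sum := by
        unfold crs5
        simp only [List.map_map, Function.comp_def]
        congr 2
        funext z
        exact sum_star5 hP hm' fun u => psi5 z (u, v)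
      have h5 : crs5 (P.map fun w => (w, v)) B = (B.map (star5 v)).sum := by
        rw [crs5_comm]
        simp only [List.map_map, Function.comp_def]
        congr 2
        funext z
        rw [sum_star5 hP hm' fun u => psi5 (u, v) z]
        exact star5_comm v z
      have h6 : pot5 (P.map fun w => (w, v)) = 0 := by
        clear h5 h4 h3 h1 h2 i2 i1 hP hm hm' hder
        induction P with
        | nil => rfl
        | cons u P ih =>
          rw [List.map_cons, pot5, ih, add_zero]
          apply List.sum_eq_zero
          intro y hy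
          simp only [List.map_map, List.mem_map, Function.comp_apply] at hy
          obtain ⟨u', _, rfl⟩ := hy
          exact psi5_same u u' v
      rw [pot5_append, pot5_append, crs5_append_left, h4, h5, h6] at i2
      rw [h3] at h1
      rw [starSum5, ← i2, ← h1, pot5_append]
      have e1 := CharTwo.add_self_eq_zero (A.map (star5 v)).sum
      have e2 := CharTwo.add_self_eq_zero (B.map (star5 v)).sum
      linear_combination -e1 - e2

/-- The complete graph on five vertices has crossing number at least one. -/
theorem one_le_cr_five : 1 ≤ crossingNumber (⊤ : SimpleGraph (Fin 5)) := by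
  obtain ⟨C, h, hC⟩ := cr_attained (⊤ : SimpleGraph (Fin 5))
  obtain ⟨-, l, hl, h1⟩ := parity5 h
  have h2 : starSum5 l = 1 := by
    rw [← starSum5_top]
    refine starSum5_perm ?_
    rw [← Multiset.coe_eq_coe, hl]
    rfl
  rw [h2, pot5, zero_add] at h1
  by_contra hcon
  have h3 : C.card = 0 := by omega
  rw [Multiset.card_eq_zero] at h3
  rw [h3] at h1
  simp at h1

end Pool.ConeX
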