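import Pool.Agent.Lib.MP_9ec9ec_co.Union
import Pool.Agent.Lib.MP_9ec9ec_co.KFive

/-!
The deletion inequality for the crossing numbers of complete graphs and the limit of `cr(K_n) / n⁴`.
-/

namespace Pool.ConeX

open Finset

/-- The crossing number of the complete graph with `n` vertices. -/
noncomputable def crK (n : ℕ) : ℕ := crossingNumber (⊤ : SimpleGraph (Fin n))

theorem sum_countP_le {ι α : Type*} [Fintype ι] (P : ι → α → Prop) [∀ i, DecidablePred (P i)]
    (m : ℕ) (C : Multiset α)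
    (h : ∀ x ∈ C, ∀ s : Finset ι, (∀ i ∈ s, P i x) → s.card ≤ m) :
    ∑ i, C.countP (P i) ≤ m * C.card := by
  induction C using Multiset.induction_on with
  | empty => simp
  | cons x C ih =>
    have h1 := ih fun y hy => h y (Multiset.mem_cons_of_mem hy)
    simp only [Multiset.countP_cons, Multiset.card_cons]
    rw [Finset.sum_add_distrib, mul_add, mul_one]
    refine Nat.add_le_add h1 ?_
    rw [← Finset.card_filter]
    exact h x (Multiset.mem_cons_self _ _) _ fun i hi => (Finset.mem_filter.1 hi).2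

theorem crK_delete (n : ℕ) : (n + 1) * crK n ≤ (n - 3) * crK (n + 1) := by
  obtain ⟨C, hC, hc⟩ := exists_opt (⊤ : SimpleGraph (Fin (n + 1)))
  have h1 : ∀ v : Fin (n + 1), crK n ≤ C.countP (onRange v.succAbove) := by
    intro v
    obtain ⟨C', hC', h'⟩ := hC.der.pull v.succAbove Fin.succAbove_right_injective (H := ⊤)
      (fun a b => by simp)
    exact hC' ▸ cr_le h'
  have h2 : ∑ _v : Fin (n + 1), crK n ≤ ∑ v : Fin (n + 1), C.countP (onRange v.succAbove) :=
    Finset.sum_le_sum fun v _ => h1 v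
  rw [Finset.sum_const, Finset.card_univ, Fintype.card_fin, smul_eq_mul] at h2
  refine h2.trans ?_
  have h3 : C.card = crK (n + 1) := hc
  rw [← h3]
  refine sum_countP_le _ _ _ fun p hp s hs => ?_
  obtain ⟨ha1, ha2⟩ := hC.adj hp
  have ha1' : p.1.1 ≠ p.1.2 := ha1
  have ha2' : p.2.1 ≠ p.2.2 := ha2
  have hi : ∀ v, (v = p.1.1 ∨ v = p.1.2) → ¬ (v = p.2.1 ∨ v = p.2.2) :=
    fun v h1 h2 => hC.indep hp v h1 h2
  have hi1 := hi p.1.1 (Or.inl rfl)
  have hi2 := hi p.1.2 (Or.inr rfl)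
  push Not at hi1 hi2
  have hsub : s ⊆ (Finset.univ : Finset (Fin (n + 1))) \ {p.1.1, p.1.2, p.2.1, p.2.2} := by
    intro v hv
    obtain ⟨⟨h1, h2⟩, ⟨h3, h4⟩⟩ := hs v hv
    rw [Fin.range_succAbove, Set.mem_compl_iff, Set.mem_singleton_iff] at h1 h2 h3 h4
    simp only [Finset.mem_sdiff, Finset.mem_univ, true_and, Finset.mem_insert,
      Finset.mem_singleton, not_or]
    exact ⟨fun h => h1 h.symm, fun h => h2 h.symm, fun h => h3 h.symm, fun h => h4 h.symm⟩
  have hcard : ({p.1.1, p.1.2, p.2.1, p.2.2} : Finset (Fin (n + 1))).card = 4 := by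
    rw [Finset.card_insert_of_notMem, Finset.card_insert_of_notMem, Finset.card_insert_of_notMem,
      Finset.card_singleton]
    · simpa using ha2'
    · simp only [Finset.mem_insert, Finset.mem_singleton, not_or]
      exact ⟨hi2.1, hi2.2⟩
    · simp only [Finset.mem_insert, Finset.mem_singleton, not_or]
      exact ⟨ha1', hi1.1, hi1.2⟩
  have h4 := Finset.card_le_card hsub
  rw [Finset.card_sdiff_of_subset (Finset.subset_univ _), Finset.card_univ, Fintype.card_fin,
    hcard] at h4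
  omega

theorem crK_mono : Monotone crK := by
  refine monotone_nat_of_le_succ fun n => ?_
  have h := crK_delete n
  have h1 : (n - 3) * crK (n + 1) ≤ (n + 1) * crK (n + 1) :=
    Nat.mul_le_mul_right _ (by omega)
  exact Nat.le_of_mul_le_mul_left (h.trans h1) (Nat.succ_pos n)

theorem crK_zero : crK 0 = 0 := by
  have h := cr_even 0
  have h2 : crK 0 = crossingNumber (⊤ : SimpleGraph (Fin (2 * 0))) := rfl
  omega

theorem crK_one : crK 1 = 0 := by
  have h := cr_even 1
  have h2 : crK 2 = crossingNumber (⊤ : SimpleGraph (Fin (2 * 1))) := rfl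
  have h3 : crK 1 ≤ crK 2 := crK_mono (by norm_num)
  omega

/-- A page function for `K_5`. -/
def page5 (a c : ℕ) : Bool := decide ((a + c) % 5 < 2)

theorem crK_five : crK 5 = 1 := by
  refine le_antisymm ?_ one_le_cr_five
  refine (cr_top_le 5 page5).trans ?_
  decide

/-- `n (n - 1) (n - 2) (n - 3)`. -/
noncomputable def fall4 (n : ℕ) : ℝ := (n : ℝ) * (n - 1) * (n - 2) * (n - 3)

theorem fall4_pos {n : ℕ} (hn : 4 ≤ n) : 0 < fall4 n := by
  have h : (4 : ℝ) ≤ n := by exact_mod_cast hn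
  unfold fall4
  have h1 : (0 : ℝ) < (n : ℝ) - 1 := by linarith
  have h2 : (0 : ℝ) < (n : ℝ) - 2 := by linarith
  have h3 : (0 : ℝ) < (n : ℝ) - 3 := by linarith
  have h0 : (0 : ℝ) < (n : ℝ) := by linarith
  positivity

theorem ratio_mono {n : ℕ} (hn : 4 ≤ n) :
    (crK n : ℝ) / fall4 n ≤ (crK (n + 1) : ℝ) / fall4 (n + 1) := by
  have h0 := fall4_pos hn
  have h1 := fall4_pos (show 4 ≤ n + 1 by omega)
  rw [div_le_div_iff₀ h0 h1]
  have h2 : ((n + 1 : ℕ) : ℝ) * crK n ≤ ((n - 3 : ℕ) : ℝ) * crK (n + 1) := by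
    exact_mod_cast crK_delete n
  rw [Nat.cast_sub (by omega)] at h2
  push_cast at h2
  have h : (4 : ℝ) ≤ n := by exact_mod_cast hn
  have h3 : (0 : ℝ) < (n : ℝ) - 3 := by linarith
  have h4 : ((n : ℝ) - 3) * fall4 (n + 1) = (n + 1) * fall4 n := by
    unfold fall4
    push_cast
    ring
  have h5 : ((n : ℝ) - 3) * ((crK n : ℝ) * fall4 (n + 1)) ≤
      ((n : ℝ) - 3) * ((crK (n + 1) : ℝ) * fall4 n) := by
    calc ((n : ℝ) - 3) * ((crK n : ℝ) * fall4 (n + 1)) = (crK n : ℝ) * (((n : ℝ) - 3) * fall4 (n + 1)) := by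
          ring
      _ = (((n : ℝ) + 1) * crK n) * fall4 n := by rw [h4]; ring
      _ ≤ (((n : ℝ) - 3) * crK (n + 1)) * fall4 n := mul_le_mul_of_nonneg_right h2 h0.le
      _ = ((n : ℝ) - 3) * ((crK (n + 1) : ℝ) * fall4 n) := by ring
  exact le_of_mul_le_mul_left h5 h3

theorem crK_even_le (m : ℕ) : (crK (2 * m) : ℝ) ≤ (1 / 64) * ((2 * m : ℕ) : ℝ) ^ 4 := by
  have h : ((4 * crK (2 * m) : ℕ) : ℝ) ≤ ((m ^ 4 : ℕ) : ℝ) := by exact_mod_cast cr_even m
  push_cast at h ⊢
  nlinarith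

/-- The limit of `cr(K_n) / n⁴`. -/
theorem exists_limit : ∃ κ : ℝ, 1 / 120 ≤ κ ∧ κ ≤ 1 / 64 ∧
    Filter.Tendsto (fun n : ℕ => (crK n : ℝ) / (n : ℝ) ^ 4) Filter.atTop (nhds κ) := by
  let R : ℕ → ℝ := fun n => (crK (n + 4) : ℝ) / fall4 (n + 4)
  have hmono : Monotone R := monotone_nat_of_le_succ fun n => ratio_mono (by omega)
  have hbd : ∀ n, R n ≤ 1 / 8 := by
    intro n
    have h1 : R n ≤ R (2 * n + 4) := hmono (by omega)
    refine h1.trans ?_
    have e : 2 * n + 4 + 4 = 2 * (n + 4) := by ring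
    simp only [R, e]
    have hN : (8 : ℝ) ≤ ((2 * (n + 4) : ℕ) : ℝ) := by exact_mod_cast (by omega : 8 ≤ 2 * (n + 4))
    rw [div_le_iff₀ (fall4_pos (by omega))]
    refine (crK_even_le (n + 4)).trans ?_
    unfold fall4
    generalize ((2 * (n + 4) : ℕ) : ℝ) = N at hN
    have h3 : N ^ 3 / 8 ≤ (N - 1) * (N - 2) * (N - 3) := by nlinarith [sq_nonneg N, mul_nonneg (by linarith : (0:ℝ) ≤ N - 8) (sq_nonneg N), mul_nonneg (by linarith : (0:ℝ) ≤ N - 8) (by linarith : (0:ℝ) ≤ N)]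
    nlinarith [mul_le_mul_of_nonneg_left h3 (by linarith : (0:ℝ) ≤ N)]
  have hbdd : BddAbove (Set.range R) := ⟨1 / 8, by rintro _ ⟨n, rfl⟩; exact hbd n⟩
  have hlim := tendsto_atTop_ciSup hmono hbdd
  have h4 : Filter.Tendsto (fun n : ℕ => fall4 n / (n : ℝ) ^ 4) Filter.atTop (nhds 1) := by
    have h5 : ∀ c : ℝ, Filter.Tendsto (fun n : ℕ => 1 - c / (n : ℝ)) Filter.atTop (nhds 1) := by
      intro c
      have := (tendsto_const_div_atTop_nhds_zero_nat c).const_sub 1
      simpa using this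
    have h6 := ((h5 1).mul (h5 2)).mul (h5 3)
    rw [one_mul, one_mul] at h6
    refine h6.congr' ?_
    filter_upwards [Filter.eventually_ne_atTop 0] with n hn
    have hn' : (n : ℝ) ≠ 0 := by exact_mod_cast hn
    unfold fall4
    field_simp
  have h7 : Filter.Tendsto (fun n : ℕ => (crK n : ℝ) / (n : ℝ) ^ 4) Filter.atTop
      (nhds (⨆ n, R n)) := by
    rw [← Filter.tendsto_add_atTop_iff_nat 4]
    have h8 := hlim.mul ((Filter.tendsto_add_atTop_iff_nat 4).2 h4)
    rw [mul_one] at h8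
    refine h8.congr fun n => ?_
    simp only [R]
    have h9 := (fall4_pos (show 4 ≤ n + 4 by omega)).ne'
    field_simp
  refine ⟨_, ?_, ?_, h7⟩
  · have h8 : R 1 ≤ ⨆ n, R n := le_ciSup hbdd 1
    have h9 : R 1 = 1 / 120 := by
      simp only [R]
      rw [show (1 + 4 : ℕ) = 5 from rfl, crK_five]
      unfold fall4
      norm_num
    linarith
  · have h8 : Filter.Tendsto (fun m : ℕ => 2 * m) Filter.atTop Filter.atTop :=
      Filter.tendsto_atTop_mono (fun m => (by omega : m ≤ 2 * m)) Filter.tendsto_id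
    refine le_of_tendsto (h7.comp h8) (Filter.Eventually.of_forall fun m => ?_)
    simp only [Function.comp_apply]
    exact div_le_of_le_mul₀ (by positivity) (by norm_num) (crK_even_le m)

end Pool.ConeX
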