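import Mathlib

/-!
Abstract calculus of sweep-line words.

A state is a word over an alphabet `L` with an involution `inv`.  The moves are: insert `x (inv x)`
anywhere, delete a factor `x (inv x)`, exchange two adjacent letters (recorded in a multiset), and delete a
factor `X` with `Rel v X` (recorded in the multiset of used vertices).
-/

namespace Pool.ConeX

variable {L L' ι ι' : Type*}

/-- Derivations between words. -/
inductive Der (inv : L → L) (Rel : ι → List L → Prop) (u : List L) :
    List L → Multiset ι → Multiset (L × L) → Prop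
  | refl : Der inv Rel u u 0 0
  | create {A B : List L} {S : Multiset ι} {C : Multiset (L × L)} (x : L) :
      Der inv Rel u (A ++ B) S C → Der inv Rel u (A ++ x :: inv x :: B) S C
  | cancel {A B : List L} {S : Multiset ι} {C : Multiset (L × L)} (x : L) :
      Der inv Rel u (A ++ x :: inv x :: B) S C → Der inv Rel u (A ++ B) S C
  | cross {A B : List L} {S : Multiset ι} {C : Multiset (L × L)} (x y : L) :
      Der inv Rel u (A ++ x :: y :: B) S C → Der inv Rel u (A ++ y :: x :: B) S ((x, y) ::ₘ C)
  | vertex {A B X : List L} {S : Multiset ι} {C : Multiset (L × L)} (v : ι) :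
      Rel v X → Der inv Rel u (A ++ X ++ B) S C → Der inv Rel u (A ++ B) (v ::ₘ S) C

/-- The inverse word. -/
def invWord (inv : L → L) (U : List L) : List L := (U.map inv).reverse

theorem flatMap_single {α β : Type*} (g : α → β) (l : List α) :
    l.flatMap (fun x => [g x]) = l.map g := by
  induction l with
  | nil => rfl
  | cons x l ih => simp [ih]

namespace Der

variable {inv : L → L} {Rel : ι → List L → Prop}

theorem cast {u u' w w' : List L} {S S' : Multiset ι} {C C' : Multiset (L × L)}
    (h : Der inv Rel u w S C) (hu : u = u') (hw : w = w') (hS : S = S') (hC : C = C') :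
    Der inv Rel u' w' S' C' := by
  subst hu hw hS hC; exact h

theorem trans {u v w : List L} {S₁ S₂ : Multiset ι} {C₁ C₂ : Multiset (L × L)}
    (h₁ : Der inv Rel u v S₁ C₁) (h₂ : Der inv Rel v w S₂ C₂) :
    Der inv Rel u w (S₁ + S₂) (C₁ + C₂) := by
  induction h₂ with
  | refl => simpa using h₁
  | create x _ ih => exact ih.create x
  | cancel x _ ih => exact ih.cancel x
  | cross x y _ ih => rw [Multiset.add_cons]; exact ih.cross x y
  | vertex v hv _ ih => rw [Multiset.add_cons]; exact ih.vertex v hv

theorem ctx (P Q : List L) {u w : List L} {S : Multiset ι} {C : Multiset (L × L)}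
    (h : Der inv Rel u w S C) : Der inv Rel (P ++ u ++ Q) (P ++ w ++ Q) S C := by
  induction h with
  | refl => exact .refl
  | @create A B S C x _ ih =>
    have := Der.create (A := P ++ A) (B := B ++ Q) x (ih.cast rfl (by simp) rfl rfl)
    exact this.cast rfl (by simp) rfl rfl
  | @cancel A B S C x _ ih =>
    have := Der.cancel (A := P ++ A) (B := B ++ Q) x (ih.cast rfl (by simp) rfl rfl)
    exact this.cast rfl (by simp) rfl rfl
  | @cross A B S C x y _ ih =>
    have := Der.cross (A := P ++ A) (B := B ++ Q) x y (ih.cast rfl (by simp) rfl rfl)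
    exact this.cast rfl (by simp) rfl rfl
  | @vertex A B X S C v hv _ ih =>
    have := Der.vertex (A := P ++ A) (B := B ++ Q) v hv (ih.cast rfl (by simp) rfl rfl)
    exact this.cast rfl (by simp) rfl rfl

/-- Deleting a vertex word. -/
theorem vertexWord {v : ι} {X : List L} (h : Rel v X) : Der inv Rel X [] {v} 0 := by
  have := Der.vertex (A := []) (B := []) v h
    (Der.refl (inv := inv) (Rel := Rel) (u := X) |>.cast rfl (by simp) rfl rfl)
  exact this.cast rfl (by simp) (by simp) rfl

/-- Insert `U U⁻¹`. -/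
theorem createWord (U : List L) {u A B : List L} {S : Multiset ι} {C : Multiset (L × L)}
    (h : Der inv Rel u (A ++ B) S C) : Der inv Rel u (A ++ U ++ invWord inv U ++ B) S C := by
  induction U generalizing A B with
  | nil => simpa [invWord] using h
  | cons x U ih =>
    have h1 := Der.create x h
    have h2 := ih (A := A ++ [x]) (B := inv x :: B) (h1.cast rfl (by simp) rfl rfl)
    exact h2.cast rfl (by simp [invWord]) rfl rfl

/-- Delete `U U⁻¹`. -/
theorem cancelWord (U : List L) {u A B : List L} {S : Multiset ι} {C : Multiset (L × L)}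
    (h : Der inv Rel u (A ++ U ++ invWord inv U ++ B) S C) : Der inv Rel u (A ++ B) S C := by
  induction U generalizing A B with
  | nil => simpa [invWord] using h
  | cons x U ih =>
    have h2 := ih (A := A ++ [x]) (B := inv x :: B) (h.cast rfl (by simp [invWord]) rfl rfl)
    exact Der.cancel x (h2.cast rfl (by simp) rfl rfl)

/-- Exchange a letter with a word. -/
theorem crossLetter (x : L) (Y : List L) {u A B : List L} {S : Multiset ι}
    {C : Multiset (L × L)} (h : Der inv Rel u (A ++ x :: (Y ++ B)) S C) :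
    ∃ C' : Multiset (L × L), C'.card = Y.length ∧
      Der inv Rel u (A ++ Y ++ x :: B) S (C' + C) := by
  induction Y generalizing A C with
  | nil => exact ⟨0, rfl, by simpa using h⟩
  | cons y Y ih =>
    have h1 := Der.cross x y h
    obtain ⟨C', hC', h2⟩ := ih (A := A ++ [y]) (h1.cast rfl (by simp) rfl rfl)
    refine ⟨(x, y) ::ₘ C', by simp [hC'], ?_⟩
    exact h2.cast rfl (by simp) rfl (by simp [Multiset.cons_add])

/-- Exchange two words. -/
theorem crossWord (X Y : List L) {u A B : List L} {S : Multiset ι}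
    {C : Multiset (L × L)} (h : Der inv Rel u (A ++ X ++ Y ++ B) S C) :
    ∃ C' : Multiset (L × L), C'.card = X.length * Y.length ∧
      Der inv Rel u (A ++ Y ++ X ++ B) S (C' + C) := by
  induction X using List.reverseRecOn generalizing B C with
  | nil => exact ⟨0, by simp, by simpa using h⟩
  | append_singleton X x ih =>
    obtain ⟨C₁, hC₁, h1⟩ := crossLetter (A := A ++ X) (B := B) x Y (h.cast rfl (by simp) rfl rfl)
    obtain ⟨C₂, hC₂, h2⟩ := ih (B := x :: B) (C := C₁ + C) (h1.cast rfl (by simp) rfl rfl)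
    refine ⟨C₂ + C₁, by simp [hC₁, hC₂]; ring, ?_⟩
    exact h2.cast rfl (by simp) rfl (by rw [add_assoc])

theorem mono {Rel' : ι → List L → Prop} {u w : List L} {S : Multiset ι} {C : Multiset (L × L)}
    (h : Der inv Rel u w S C) (hR : ∀ v ∈ S, ∀ X, Rel v X → Rel' v X) :
    Der inv Rel' u w S C := by
  induction h with
  | refl => exact .refl
  | create x _ ih => exact (ih hR).create x
  | cancel x _ ih => exact (ih hR).cancel x
  | cross x y _ ih => exact (ih hR).cross x y
  | vertex v hv _ ih =>
    exact (ih fun w hw X hX => hR w (Multiset.mem_cons_of_mem hw) X hX).vertex v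
      (hR v (Multiset.mem_cons_self _ _) _ hv)

/-- If every vertex is used at most once, the deleted words can be fixed in advance. -/
theorem fixRot [DecidableEq ι] {u w : List L} {S : Multiset ι} {C : Multiset (L × L)}
    (h : Der inv Rel u w S C) (hS : S.Nodup) :
    ∃ rot : ι → List L, (∀ v ∈ S, Rel v (rot v)) ∧
      Der inv (fun v X => X = rot v) u w S C := by
  induction h with
  | refl => exact ⟨fun _ => [], by simp, .refl⟩
  | create x _ ih => obtain ⟨rot, h1, h2⟩ := ih hS; exact ⟨rot, h1, h2.create x⟩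
  | cancel x _ ih => obtain ⟨rot, h1, h2⟩ := ih hS; exact ⟨rot, h1, h2.cancel x⟩
  | cross x y _ ih => obtain ⟨rot, h1, h2⟩ := ih hS; exact ⟨rot, h1, h2.cross x y⟩
  | @vertex A B X S C v hv _ ih =>
    obtain ⟨hvS, hS'⟩ := Multiset.nodup_cons.1 hS
    obtain ⟨rot, h1, h2⟩ := ih hS'
    refine ⟨Function.update rot v X, ?_, ?_⟩
    · intro w hw
      by_cases hwv : w = v
      · subst hwv; simpa using hv
      · rw [Function.update_of_ne hwv]
        rcases Multiset.mem_cons.1 hw with h | h
        · exact absurd h hwv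
        · exact h1 w h
    · refine Der.vertex v (by simp) (h2.mono ?_)
      intro w hw Y hY
      have hwv : w ≠ v := fun h => hvS (h ▸ hw)
      rw [Function.update_of_ne hwv]; exact hY

/-- Homomorphic images of derivations. -/
theorem hom {inv' : L' → L'} {Rel' : ι' → List L' → Prop} (φ : L → List L')
    (fS : ι → Multiset ι') {u w : List L} {S : Multiset ι} {C : Multiset (L × L)}
    (h : Der inv Rel u w S C)
    (hφ : ∀ x, φ (inv x) = invWord inv' (φ x))
    (hR : ∀ v ∈ S, ∀ X, Rel v X → Der inv' Rel' (X.flatMap φ) [] (fS v) 0) :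
    ∃ C' : Multiset (L' × L'),
      C'.card = (C.map fun p => (φ p.1).length * (φ p.2).length).sum ∧
      Der inv' Rel' (u.flatMap φ) (w.flatMap φ) (S.bind fS) C' := by
  induction h with
  | refl => exact ⟨0, by simp, .refl⟩
  | create x _ ih =>
    obtain ⟨C', hC', h'⟩ := ih hR
    refine ⟨C', hC', ?_⟩
    have := Der.createWord (φ x) (h'.cast rfl (by rw [List.flatMap_append]) rfl rfl)
    exact this.cast rfl (by simp [hφ]) rfl rfl
  | cancel x _ ih =>
    obtain ⟨C', hC', h'⟩ := ih hR
    refine ⟨C', hC', ?_⟩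
    have := Der.cancelWord (φ x) (h'.cast rfl (by simp [hφ]; rfl) rfl rfl)
    exact this.cast rfl (by rw [List.flatMap_append]) rfl rfl
  | @cross A B S C x y _ ih =>
    obtain ⟨C', hC', h'⟩ := ih hR
    obtain ⟨C'', hC'', h''⟩ := Der.crossWord (A := A.flatMap φ) (φ x) (φ y) (B := B.flatMap φ)
      (h'.cast rfl (by simp) rfl rfl)
    exact ⟨C'' + C', by simp [hC', hC''], h''.cast rfl (by simp) rfl rfl⟩
  | @vertex A B X S C v hv _ ih =>
    obtain ⟨C', hC', h'⟩ := ih fun w hw X hX => hR w (Multiset.mem_cons_of_mem hw) X hX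
    refine ⟨C', hC', ?_⟩
    have h1 := (hR v (Multiset.mem_cons_self _ _) X hv).ctx (A.flatMap φ) (B.flatMap φ)
    have h2 := (h'.cast rfl (by simp) rfl rfl).trans h1
    exact h2.cast rfl (by simp) (by rw [Multiset.cons_bind, add_comm]) (by simp)

/-- Renaming letters. -/
theorem hom1 {inv' : L' → L'} {Rel' : ι → List L' → Prop} (f : L → L')
    {u w : List L} {S : Multiset ι} {C : Multiset (L × L)}
    (h : Der inv Rel u w S C)
    (hf : ∀ x, f (inv x) = inv' (f x))
    (hR : ∀ v ∈ S, ∀ X, Rel v X → Rel' v (X.map f)) :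
    Der inv' Rel' (u.map f) (w.map f) S (C.map (Prod.map f f)) := by
  induction h with
  | refl => exact .refl
  | create x _ ih =>
    have := Der.create (f x) ((ih hR).cast rfl (by rw [List.map_append]) rfl rfl)
    exact this.cast rfl (by simp [hf]) rfl rfl
  | cancel x _ ih =>
    have := Der.cancel (f x) ((ih hR).cast rfl (by simp [hf]; rfl) rfl rfl)
    exact this.cast rfl (by rw [List.map_append]) rfl rfl
  | cross x y _ ih =>
    have := Der.cross (f x) (f y) ((ih hR).cast rfl (by simp; rfl) rfl rfl)
    exact this.cast rfl (by simp) rfl (by simp)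
  | vertex v hv _ ih =>
    have h1 := ih fun w hw X hX => hR w (Multiset.mem_cons_of_mem hw) X hX
    have := Der.vertex v (hR v (Multiset.mem_cons_self _ _) _ hv)
      (h1.cast rfl (by simp only [List.map_append]; rfl) rfl rfl)
    exact this.cast rfl (by simp) rfl rfl

/-- Mirror image of a derivation. -/
theorem mirror (hinv : ∀ x, inv (inv x) = x) (hrev : ∀ v X, Rel v X → Rel v X.reverse)
    {u w : List L} {S : Multiset ι} {C : Multiset (L × L)}
    (h : Der inv Rel u w S C) :
    ∃ C' : Multiset (L × L), C'.card = C.card ∧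
      Der inv Rel (w.map inv) (u.map inv) S C' := by
  induction h with
  | refl => exact ⟨0, rfl, .refl⟩
  | @create A B S C x _ ih =>
    obtain ⟨C', hC', h'⟩ := ih
    refine ⟨C', hC', ?_⟩
    have h1 : Der inv Rel ((A ++ x :: inv x :: B).map inv) ((A ++ B).map inv) 0 0 := by
      have := Der.cancel (A := A.map inv) (B := B.map inv) (inv x)
        (Der.refl (inv := inv) (Rel := Rel) (u := (A ++ x :: inv x :: B).map inv) |>.cast rfl
          (by simp) rfl rfl)
      exact this.cast rfl (by simp) rfl rfl
    exact (h1.trans h').cast rfl rfl (by simp) (by simp)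
  | @cancel A B S C x _ ih =>
    obtain ⟨C', hC', h'⟩ := ih
    refine ⟨C', hC', ?_⟩
    have h1 : Der inv Rel ((A ++ B).map inv) ((A ++ x :: inv x :: B).map inv) 0 0 := by
      have := Der.create (A := A.map inv) (B := B.map inv) (inv x)
        (Der.refl (inv := inv) (Rel := Rel) (u := (A ++ B).map inv) |>.cast rfl
          (by simp) rfl rfl)
      exact this.cast rfl (by simp) rfl rfl
    exact (h1.trans h').cast rfl rfl (by simp) (by simp)
  | @cross A B S C x y _ ih =>
    obtain ⟨C', hC', h'⟩ := ih
    have h1 : Der inv Rel ((A ++ y :: x :: B).map inv) ((A ++ x :: y :: B).map inv) 0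
        {(inv y, inv x)} := by
      have := Der.cross (A := A.map inv) (B := B.map inv) (inv y) (inv x)
        (Der.refl (inv := inv) (Rel := Rel) (u := (A ++ y :: x :: B).map inv) |>.cast rfl
          (by simp) rfl rfl)
      exact this.cast rfl (by simp) rfl rfl
    exact ⟨{(inv y, inv x)} + C', by simp [hC', add_comm], (h1.trans h').cast rfl rfl (by simp) rfl⟩
  | @vertex A B X S C v hv _ ih =>
    obtain ⟨C', hC', h'⟩ := ih
    refine ⟨C', hC', ?_⟩
    have h1 : Der inv Rel ((A ++ B).map inv) ((A ++ X ++ B).map inv) {v} 0 := by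
      have h2 := Der.createWord (A := A.map inv) (B := B.map inv) (X.map inv)
        (Der.refl (inv := inv) (Rel := Rel) (u := (A ++ B).map inv) |>.cast rfl
          (by simp) rfl rfl)
      have e : invWord inv (X.map inv) = X.reverse := by
        simp [invWord, Function.comp_def, hinv]
      rw [e] at h2
      have := Der.vertex v (hrev v X hv) h2
      exact this.cast rfl (by simp) rfl rfl
    exact (h1.trans h').cast rfl rfl (by rw [Multiset.singleton_add]) (by simp)

/-- Splitting a derivation at a use of the vertex `v`. -/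
theorem split {u w : List L} {S : Multiset ι} {C : Multiset (L × L)} {v : ι}
    (h : Der inv Rel u w S C) (hv : v ∈ S) :
    ∃ (A X B : List L) (S₁ S₂ : Multiset ι) (C₁ C₂ : Multiset (L × L)),
      Rel v X ∧ Der inv Rel u (A ++ X ++ B) S₁ C₁ ∧ Der inv Rel (A ++ B) w S₂ C₂ ∧
      S = v ::ₘ (S₁ + S₂) ∧ C = C₁ + C₂ := by
  induction h with
  | refl => simp at hv
  | create x _ ih =>
    obtain ⟨A, X, B, S₁, S₂, C₁, C₂, h1, h2, h3, h4, h5⟩ := ih hv
    exact ⟨A, X, B, S₁, S₂, C₁, C₂, h1, h2, h3.create x, h4, h5⟩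
  | cancel x _ ih =>
    obtain ⟨A, X, B, S₁, S₂, C₁, C₂, h1, h2, h3, h4, h5⟩ := ih hv
    exact ⟨A, X, B, S₁, S₂, C₁, C₂, h1, h2, h3.cancel x, h4, h5⟩
  | cross x y _ ih =>
    obtain ⟨A, X, B, S₁, S₂, C₁, C₂, h1, h2, h3, h4, h5⟩ := ih hv
    exact ⟨A, X, B, S₁, S₂, C₁, _, h1, h2, h3.cross x y, h4, by rw [h5, Multiset.add_cons]⟩
  | @vertex A' B' X' S C i hi hd ih =>
    by_cases hvi : v = i
    · subst hvi
      exact ⟨A', X', B', S, 0, C, 0, hi, hd, .refl, by simp, by simp⟩
    · have hvS : v ∈ S := by
        rcases Multiset.mem_cons.1 hv with h | h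
        · exact absurd h hvi
        · exact h
      obtain ⟨A, X, B, S₁, S₂, C₁, C₂, h1, h2, h3, h4, h5⟩ := ih hvS
      refine ⟨A, X, B, S₁, i ::ₘ S₂, C₁, C₂, h1, h2, h3.vertex i hi, ?_, h5⟩
      rw [h4, Multiset.add_cons, Multiset.cons_swap]

/-- Postponing the vertex `v` to the end. -/
theorem last (hinv : ∀ x, inv (inv x) = x) {S : Multiset ι} {C : Multiset (L × L)} {v : ι}
    (h : Der inv Rel [] [] S C) (hv : v ∈ S) :
    ∃ (X : List L) (S' : Multiset ι), S = v ::ₘ S' ∧ Rel v X ∧ Der inv Rel [] X S' C := by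
  obtain ⟨A, X, B, S₁, S₂, C₁, C₂, h1, h2, h3, h4, h5⟩ := h.split hv
  refine ⟨X, S₁ + S₂, h4, h1, ?_⟩
  have hii : ∀ U : List L, invWord inv (invWord inv U) = U := by
    intro U
    simp [invWord, Function.comp_def, hinv, List.map_reverse]
  -- `[] → A⁻¹ A`
  have k1 : Der inv Rel [] (invWord inv A ++ A) 0 0 := by
    have := Der.createWord (A := []) (B := []) (invWord inv A)
      (Der.refl (inv := inv) (Rel := Rel) (u := []))
    rw [hii] at this
    exact this.cast rfl (by simp) rfl rfl
  -- `A⁻¹ A → A⁻¹ (A X B) A`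
  have k2 : Der inv Rel (invWord inv A ++ A) (invWord inv A ++ (A ++ X ++ B) ++ A) S₁ C₁ :=
    (h2.ctx (invWord inv A) A).cast (by simp) rfl rfl rfl
  have k3 := k1.trans k2
  -- cancel `A⁻¹ A`
  have k4 := Der.cancelWord (A := []) (B := X ++ B ++ A) (invWord inv A)
    (k3.cast rfl (by rw [hii]; simp) rfl rfl)
  -- `X B A → X A⁻¹ A B A`
  have k5 := Der.createWord (A := X) (B := B ++ A) (invWord inv A)
    (k4.cast rfl (by simp) rfl rfl)
  rw [hii] at k5
  have k6 : Der inv Rel [] (X ++ invWord inv A ++ [] ++ A) _ _ :=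
    (k5.cast rfl (w' := X ++ invWord inv A ++ (A ++ B) ++ A) (by simp) rfl rfl).trans
      (h3.ctx (X ++ invWord inv A) A)
  have k7 := Der.cancelWord (A := X) (B := []) (invWord inv A)
    (k6.cast rfl (by rw [hii]; simp) rfl rfl)
  exact k7.cast rfl (by simp) (by simp) (by rw [h5]; simp)

/-- Any permutation of the final word can be reached. -/
theorem perm {u w w' : List L} {S : Multiset ι} {C : Multiset (L × L)}
    (h : Der inv Rel u w S C) (hp : w.Perm w') : ∃ C', Der inv Rel u w' S C' := by
  have key : ∀ {a b : List L}, a.Perm b → ∀ (P : List L) {C : Multiset (L × L)},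
      Der inv Rel u (P ++ a) S C → ∃ C', Der inv Rel u (P ++ b) S C' := by
    intro a b hab
    induction hab with
    | nil => intro P C h; exact ⟨_, h⟩
    | cons x _ ih =>
      intro P C h
      obtain ⟨C', h'⟩ := ih (P ++ [x]) (h.cast rfl (by simp) rfl rfl)
      exact ⟨C', h'.cast rfl (by simp) rfl rfl⟩
    | swap x y l =>
      intro P C h
      exact ⟨_, Der.cross y x h⟩
    | trans _ _ ih1 ih2 =>
      intro P C h
      obtain ⟨C', h'⟩ := ih1 P h
      exact ih2 P h'
  exact key hp [] h

end Der

end Pool.ConeX
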