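import Pool.Agent.Lib.MP_9ec9ec_co.Der

/-!
Uncrossing the edges that end at one vertex (abstract form).

Letters are ordinary letters `Sum.inl e` and rails `Sum.inr (b, o)`, where `b` is the direction (`true` = towards
the last vertex) and `o` is the owner.
-/

namespace Pool.ConeX

open Multiset (card)

variable {E O Λ Λ' ι : Type*}

/-- Letters with rails labelled in `Λ`. -/
abbrev Ltr (E Λ : Type*) := E ⊕ (Bool × Λ)

def invL (invE : E → E) : Ltr E Λ → Ltr E Λ
  | .inl e => .inl (invE e)
  | .inr (b, o) => .inr (!b, o)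

/-- Relabelling the rails. -/
def mp (f : Λ → Λ') : Ltr E Λ → Ltr E Λ'
  | .inl e => .inl e
  | .inr (b, o) => .inr (b, f o)

/-- Forgetting the labels. -/
def shape : Ltr E Λ → E ⊕ Bool
  | .inl e => .inl e
  | .inr (b, _) => .inr b

def labL (c : Bool) : Ltr E Λ → Option Λ
  | .inl _ => none
  | .inr (b, o) => if b = c then some o else none

/-- The labels of the rails with direction `c`. -/
def labs (c : Bool) (W : List (Ltr E Λ)) : List Λ := W.filterMap (labL c)

@[simp] theorem labs_nil (c : Bool) : labs c ([] : List (Ltr E Λ)) = [] := rfl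
@[simp] theorem labs_append (c : Bool) (A B : List (Ltr E Λ)) :
    labs c (A ++ B) = labs c A ++ labs c B := List.filterMap_append
@[simp] theorem labs_cons_inl (c : Bool) (e : E) (B : List (Ltr E Λ)) :
    labs c (.inl e :: B) = labs c B := rfl
@[simp] theorem labs_cons_same (c : Bool) (o : Λ) (B : List (Ltr E Λ)) :
    labs c (.inr (c, o) :: B) = o :: labs c B := by simp [labs, labL]
@[simp] theorem labs_cons_ne (c : Bool) (o : Λ) (B : List (Ltr E Λ)) :
    labs c (.inr (!c, o) :: B) = labs c B := by cases c <;> simp [labs, labL]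
@[simp] theorem labs_cons_tf (o : Λ) (B : List (Ltr E Λ)) :
    labs true (.inr (false, o) :: B) = labs true B := by simp [labs, labL]
@[simp] theorem labs_cons_ft (o : Λ) (B : List (Ltr E Λ)) :
    labs false (.inr (true, o) :: B) = labs false B := by simp [labs, labL]

theorem labs_map (f : Λ → Λ') (c : Bool) (W : List (Ltr E Λ)) :
    labs c (W.map (mp f)) = (labs c W).map f := by
  induction W with
  | nil => rfl
  | cons x W ih =>
    rcases x with e | ⟨b, o⟩
    · simpa [mp] using ih
    · cases b <;> cases c <;> simp [mp, ih]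

@[simp] theorem shape_mp (f : Λ → Λ') (x : Ltr E Λ) : shape (mp f x) = shape x := by
  rcases x with e | ⟨b, o⟩ <;> rfl

theorem map_shape_mp (f : Λ → Λ') (W : List (Ltr E Λ)) :
    (W.map (mp f)).map shape = W.map shape := by
  simp [Function.comp_def]

theorem mp_mp {Λ'' : Type*} (f : Λ → Λ') (g : Λ' → Λ'') (x : Ltr E Λ) :
    mp g (mp f x) = mp (g ∘ f) x := by
  rcases x with e | ⟨b, o⟩ <;> rfl

theorem mp_invL (invE : E → E) (f : Λ → Λ') (x : Ltr E Λ) :
    mp f (invL invE x) = invL invE (mp f x) := by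
  rcases x with e | ⟨b, o⟩ <;> rfl

theorem word_ext {P Q : List (Ltr E Λ)} (h : P.map shape = Q.map shape)
    (h1 : labs true P = labs true Q) (h2 : labs false P = labs false Q) : P = Q := by
  induction P generalizing Q with
  | nil => cases Q with
    | nil => rfl
    | cons y Q => simp at h
  | cons x P ih =>
    cases Q with
    | nil => simp at h
    | cons y Q =>
      simp only [List.map_cons, List.cons.injEq] at h
      obtain ⟨hxy, hPQ⟩ := h
      rcases x with e | ⟨b, o⟩ <;> rcases y with e' | ⟨b', o'⟩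
      · simp only [shape, Sum.inl.injEq] at hxy
        subst hxy
        rw [ih hPQ (by simpa using h1) (by simpa using h2)]
      · simp [shape] at hxy
      · simp [shape] at hxy
      · simp only [shape, Sum.inr.injEq] at hxy
        subst hxy
        cases b
        · simp only [labs_cons_tf, labs_cons_same, List.cons.injEq] at h1 h2
          rw [ih hPQ h1 h2.2, h2.1]
        · simp only [labs_cons_ft, labs_cons_same, List.cons.injEq] at h1 h2
          rw [ih hPQ h1.2 h2, h1.1]

theorem labs_length_eq (c : Bool) {P : List (Ltr E Λ)} {Q : List (Ltr E Λ')}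
    (h : P.map shape = Q.map shape) : (labs c P).length = (labs c Q).length := by
  induction P generalizing Q with
  | nil => cases Q with
    | nil => rfl
    | cons y Q => simp at h
  | cons x P ih =>
    cases Q with
    | nil => simp at h
    | cons y Q =>
      simp only [List.map_cons, List.cons.injEq] at h
      obtain ⟨hxy, hPQ⟩ := h
      have := ih hPQ
      rcases x with e | ⟨b, o⟩ <;> rcases y with e' | ⟨b', o'⟩
      · simpa using this
      · simp [shape] at hxy
      · simp [shape] at hxy
      · simp only [shape, Sum.inr.injEq] at hxy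
        subst hxy
        cases b <;> cases c <;> simpa using this

section Lift

variable (invE : E → E) (Rel : ι → List (Ltr E O) → Prop) (own : ι → Option O)

/-- Vertex words with determined labels. -/
def RelU : ι → List (Ltr E (O ⊕ ℕ)) → Prop := fun i X' => ∃ X, Rel i X ∧ X' = X.map (mp Sum.inl)

/-- A word of the given shape can be reached with at most `n` crossings, with labels in which the downward
rails carry distinct variables. -/
def LiftS (S : Multiset ι) (s : List (E ⊕ Bool)) (n : ℕ) : Prop :=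
  ∃ (W : List (Ltr E (O ⊕ ℕ))) (C : Multiset (Ltr E (O ⊕ ℕ) × Ltr E (O ⊕ ℕ))),
    Der (invL invE) (RelU Rel) [] W S C ∧ C.card = n ∧ W.map shape = s ∧
    (labs false W).Nodup ∧ (∀ l ∈ labs false W, ∃ m, l = Sum.inr m) ∧
    (↑(labs true W) : Multiset (O ⊕ ℕ)) =
      (S.filterMap own).map Sum.inl + (↑(labs false W) : Multiset (O ⊕ ℕ))

variable {invE Rel own}

/-- Substituting variables. -/
theorem Der.subst (f : O ⊕ ℕ → O ⊕ ℕ) (hf : ∀ o, f (Sum.inl o) = Sum.inl o)
    {W : List (Ltr E (O ⊕ ℕ))} {S : Multiset ι}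
    {C : Multiset (Ltr E (O ⊕ ℕ) × Ltr E (O ⊕ ℕ))}
    (h : Der (invL invE) (RelU Rel) [] W S C) :
    ∃ C', C'.card = C.card ∧ Der (invL invE) (RelU Rel) [] (W.map (mp f)) S C' := by
  refine ⟨_, Multiset.card_map _ _, h.hom1 (mp f) (mp_invL invE f) ?_⟩
  rintro i - X' ⟨X, hX, rfl⟩
  refine ⟨X, hX, ?_⟩
  rw [List.map_map]
  refine List.map_congr_left fun x _ => ?_
  rw [Function.comp_apply, mp_mp]
  congr 1
  funext o
  exact hf o

theorem shape_eq_inl {x : Ltr E Λ} {e : E} (h : shape x = Sum.inl e) : x = Sum.inl e := by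
  rcases x with e' | ⟨b, o⟩
  · simpa [shape] using h
  · simp [shape] at h

theorem shape_eq_inr {x : Ltr E Λ} {b : Bool} (h : shape x = Sum.inr b) :
    ∃ o, x = Sum.inr (b, o) := by
  rcases x with e' | ⟨b', o⟩
  · simp [shape] at h
  · simp only [shape, Sum.inr.injEq] at h
    exact ⟨o, by rw [h]⟩

theorem decomp2 {W : List (Ltr E Λ)} {s t : List (E ⊕ Bool)} {a b : E ⊕ Bool}
    (h : W.map shape = s ++ a :: b :: t) :
    ∃ A x y B, W = A ++ x :: y :: B ∧ A.map shape = s ∧ shape x = a ∧ shape y = b ∧
      B.map shape = t := by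
  obtain ⟨A, B, rfl, hA, hB⟩ := List.map_eq_append_iff.1 h
  obtain ⟨x, B, rfl, hx, hB⟩ := List.map_eq_cons_iff.1 hB
  obtain ⟨y, B, rfl, hy, hB⟩ := List.map_eq_cons_iff.1 hB
  exact ⟨A, x, y, B, rfl, hA, hx, hy, hB⟩

theorem exists_fresh (l : List (O ⊕ ℕ)) : ∃ n : ℕ, Sum.inr n ∉ l := by
  classical
  obtain ⟨x, ⟨n, rfl⟩, hn⟩ := (Set.infinite_range_of_injective
    (Sum.inr_injective (α := O) (β := ℕ))).exists_notMem_finset l.toFinset
  exact ⟨n, by simpa using hn⟩

theorem LiftS.createE {S : Multiset ι} {s t : List (E ⊕ Bool)} {n : ℕ}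
    (h : LiftS invE Rel own S (s ++ t) n) (e : E) :
    LiftS invE Rel own S (s ++ Sum.inl e :: Sum.inl (invE e) :: t) n := by
  obtain ⟨W, C, hd, hn, hs, h1, h2, h3⟩ := h
  obtain ⟨A, B, rfl, hA, hB⟩ := List.map_eq_append_iff.1 hs
  refine ⟨A ++ Sum.inl e :: Sum.inl (invE e) :: B, C, hd.create (Sum.inl e), hn, ?_, ?_, ?_, ?_⟩
  · simp [shape, hA, hB]
  · simpa using h1
  · simpa using h2
  · simpa using h3

theorem LiftS.cancelE {S : Multiset ι} {s t : List (E ⊕ Bool)} {n : ℕ} (e : E)
    (h : LiftS invE Rel own S (s ++ Sum.inl e :: Sum.inl (invE e) :: t) n) :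
    LiftS invE Rel own S (s ++ t) n := by
  obtain ⟨W, C, hd, hn, hs, h1, h2, h3⟩ := h
  obtain ⟨A, x, y, B, rfl, hA, hx, hy, hB⟩ := decomp2 hs
  obtain rfl := shape_eq_inl hx
  obtain rfl := shape_eq_inl hy
  refine ⟨A ++ B, C, hd.cancel (Sum.inl e), hn, ?_, ?_, ?_, ?_⟩
  · simp [hA, hB]
  · simpa using h1
  · simpa using h2
  · simpa using h3

theorem LiftS.createR {S : Multiset ι} {s t : List (E ⊕ Bool)} {n : ℕ}
    (h : LiftS invE Rel own S (s ++ t) n) (b : Bool) :
    LiftS invE Rel own S (s ++ Sum.inr b :: Sum.inr (!b) :: t) n := by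
  obtain ⟨W, C, hd, hn, hs, h1, h2, h3⟩ := h
  obtain ⟨A, B, rfl, hA, hB⟩ := List.map_eq_append_iff.1 hs
  obtain ⟨m, hm⟩ := exists_fresh (labs false (A ++ B))
  refine ⟨A ++ Sum.inr (b, Sum.inr m) :: Sum.inr (!b, Sum.inr m) :: B, C,
    hd.create (Sum.inr (b, Sum.inr m)), hn, ?_, ?_, ?_, ?_⟩
  · simp [shape, hA, hB]
  · have : (labs false (A ++ Sum.inr (b, Sum.inr m) :: Sum.inr (!b, Sum.inr m) :: B)).Perm
        (Sum.inr m :: labs false (A ++ B)) := by
      cases b <;> simp
    rw [this.nodup_iff]
    exact List.nodup_cons.2 ⟨hm, h1⟩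
  · intro l hl
    have : l = Sum.inr m ∨ l ∈ labs false (A ++ B) := by
      cases b
      · simp at hl ⊢; tauto
      · simp at hl ⊢; tauto
    rcases this with h | h
    · exact ⟨m, h⟩
    · exact h2 l h
  · have e1 : (↑(labs false (A ++ Sum.inr (b, Sum.inr m) :: Sum.inr (!b, Sum.inr m) :: B)) :
        Multiset (O ⊕ ℕ)) = Sum.inr m ::ₘ ↑(labs false (A ++ B)) := by
      rw [Multiset.cons_coe, Multiset.coe_eq_coe]
      cases b <;> simp
    have e2 : (↑(labs true (A ++ Sum.inr (b, Sum.inr m) :: Sum.inr (!b, Sum.inr m) :: B)) :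
        Multiset (O ⊕ ℕ)) = Sum.inr m ::ₘ ↑(labs true (A ++ B)) := by
      rw [Multiset.cons_coe, Multiset.coe_eq_coe]
      cases b <;> simp
    rw [e1, e2, h3, Multiset.add_cons]

theorem owners_map_eq {f : O ⊕ ℕ → O ⊕ ℕ} (hf : ∀ o, f (Sum.inl o) = Sum.inl o)
    (T : Multiset O) : (T.map Sum.inl).map f = T.map Sum.inl := by
  rw [Multiset.map_map]
  exact Multiset.map_congr rfl fun o _ => hf o

theorem LiftS.cancelR {S : Multiset ι} {s t : List (E ⊕ Bool)} {n : ℕ} (b : Bool)
    (h : LiftS invE Rel own S (s ++ Sum.inr b :: Sum.inr (!b) :: t) n) :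
    LiftS invE Rel own S (s ++ t) n := by
  classical
  obtain ⟨W, C, hd, hn, hs, h1, h2, h3⟩ := h
  obtain ⟨A, x, y, B, rfl, hA, hx, hy, hB⟩ := decomp2 hs
  obtain ⟨p, rfl⟩ := shape_eq_inr hx
  obtain ⟨q, rfl⟩ := shape_eq_inr hy
  -- `m` is the label of the downward rail, `l` the one of the upward rail
  obtain ⟨m, l, hml, hm, hl⟩ : ∃ m l : O ⊕ ℕ,
      ((p = l ∧ q = m) ∨ (p = m ∧ q = l)) ∧
      labs false (A ++ Sum.inr (b, p) :: Sum.inr (!b, q) :: B) = labs false A ++ m :: labs false B ∧
      labs true (A ++ Sum.inr (b, p) :: Sum.inr (!b, q) :: B) = labs true A ++ l :: labs true B := by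
    cases b
    · exact ⟨p, q, Or.inr ⟨rfl, rfl⟩, by simp, by simp⟩
    · exact ⟨q, p, Or.inl ⟨rfl, rfl⟩, by simp, by simp⟩
  rw [hm] at h1 h2 h3
  rw [hl] at h3
  obtain ⟨k, hk⟩ := h2 m (by simp)
  set f : O ⊕ ℕ → O ⊕ ℕ := Function.update id m l with hfdef
  have hfm : f m = l := by simp [hfdef]
  have hfl : f l = l := by
    by_cases h : l = m
    · rw [h, hfm, h]
    · simp [hfdef, Function.update_of_ne h]
  have hf : ∀ o, f (Sum.inl o) = Sum.inl o := by
    intro o
    rw [hfdef, Function.update_of_ne]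
    · rfl
    · rw [hk]; simp
  have hfne : ∀ z, z ≠ m → f z = z := fun z hz => by
    rw [hfdef, Function.update_of_ne hz]; rfl
  have hfp : f p = l ∧ f q = l := by
    rcases hml with ⟨rfl, rfl⟩ | ⟨rfl, rfl⟩
    · exact ⟨hfl, hfm⟩
    · exact ⟨hfm, hfl⟩
  obtain ⟨C', hC', hd'⟩ := hd.subst f hf
  have hd2 := hd'.cast rfl (w' := A.map (mp f) ++ Sum.inr (b, l) :: invL invE (Sum.inr (b, l)) ::
    B.map (mp f)) (by simp [mp, hfp.1, hfp.2, invL]) rfl rfl
  have hd3 := hd2.cancel
  rw [List.nodup_append, List.nodup_cons] at h1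
  obtain ⟨hnA, ⟨hmB, hnB⟩, hdis⟩ := h1
  have hmA : m ∉ labs false A := fun h => hdis m h m (by simp) rfl
  have eA : (labs false A).map f = labs false A := by
    conv_rhs => rw [← List.map_id (labs false A)]
    exact List.map_congr_left fun z hz => hfne z fun h => hmA (h ▸ hz)
  have eB : (labs false B).map f = labs false B := by
    conv_rhs => rw [← List.map_id (labs false B)]
    exact List.map_congr_left fun z hz => hfne z fun h => hmB (h ▸ hz)
  have eAB : labs false (A.map (mp f) ++ B.map (mp f)) = labs false A ++ labs false B := by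
    rw [labs_append, labs_map, labs_map, eA, eB]
  refine ⟨_, C', hd3, by rw [hC', hn], ?_, ?_, ?_, ?_⟩
  · rw [List.map_append, map_shape_mp, map_shape_mp, hA, hB]
  · rw [eAB, List.nodup_append]
    exact ⟨hnA, hnB, fun a ha b hb => hdis a ha b (List.mem_cons_of_mem _ hb)⟩
  · rw [eAB]
    intro z hz
    refine h2 z ?_
    rcases List.mem_append.1 hz with h | h
    · exact List.mem_append_left _ h
    · exact List.mem_append_right _ (List.mem_cons_of_mem _ h)
  · rw [eAB, labs_append, labs_map, labs_map, ← List.map_append]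
    have h4 := congrArg (Multiset.map f) h3
    rw [Multiset.map_add, owners_map_eq hf, Multiset.map_coe, Multiset.map_coe] at h4
    have e5 : (↑(List.map f (labs true A ++ l :: labs true B)) : Multiset (O ⊕ ℕ)) =
        l ::ₘ ↑(List.map f (labs true A ++ labs true B)) := by
      rw [Multiset.cons_coe, Multiset.coe_eq_coe]
      simp [hfl]
    have e6 : (↑(List.map f (labs false A ++ m :: labs false B)) : Multiset (O ⊕ ℕ)) =
        l ::ₘ ↑(labs false A ++ labs false B) := by
      rw [Multiset.cons_coe, Multiset.coe_eq_coe, List.map_append, List.map_cons, eA, eB, hfm]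
      simp
    rw [e5, e6, Multiset.add_cons] at h4
    exact (Multiset.cons_inj_right _).1 h4

theorem LiftS.cross {S : Multiset ι} {s t : List (E ⊕ Bool)} {n : ℕ} (a b : E ⊕ Bool)
    (h : LiftS invE Rel own S (s ++ a :: b :: t) n) :
    LiftS invE Rel own S (s ++ b :: a :: t) (n + 1) := by
  obtain ⟨W, C, hd, hn, hs, h1, h2, h3⟩ := h
  obtain ⟨A, x, y, B, rfl, hA, hx, hy, hB⟩ := decomp2 hs
  have hp : (A ++ x :: y :: B).Perm (A ++ y :: x :: B) := (List.Perm.swap y x B).append_left A
  have hl : ∀ c, (labs c (A ++ x :: y :: B)).Perm (labs c (A ++ y :: x :: B)) :=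
    fun c => hp.filterMap _
  refine ⟨A ++ y :: x :: B, _, hd.cross x y, by simp [hn], by simp [hA, hB, hx, hy], ?_, ?_, ?_⟩
  · exact (hl false).nodup_iff.1 h1
  · intro l hl'
    exact h2 l ((hl false).mem_iff.2 hl')
  · rw [← Multiset.coe_eq_coe.2 (hl true), ← Multiset.coe_eq_coe.2 (hl false), h3]

theorem LiftS.crossRR {S : Multiset ι} {s t : List (E ⊕ Bool)} {n : ℕ} (b b' : Bool)
    (h : LiftS invE Rel own S (s ++ Sum.inr b :: Sum.inr b' :: t) n) :
    LiftS invE Rel own S (s ++ Sum.inr b' :: Sum.inr b :: t) n := by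
  by_cases hb : b = b'
  · subst hb; exact h
  · have hb' : b' = !b := by cases b <;> cases b' <;> simp_all
    subst hb'
    have := (LiftS.cancelR b h).createR (!b)
    simpa using this

theorem LiftS.vertex {S : Multiset ι} {s t : List (E ⊕ Bool)} {n : ℕ} (i : ι)
    {X : List (Ltr E O)} (hX : Rel i X)
    (hdn : labs false X = (own i).toList) (hup : labs true X = [])
    (h : LiftS invE Rel own S (s ++ X.map shape ++ t) n) :
    LiftS invE Rel own (i ::ₘ S) (s ++ t) n := by
  classical
  obtain ⟨W, C, hd, hn, hs, h1, h2, h3⟩ := h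
  obtain ⟨AX, B, rfl, hAX, hB⟩ := List.map_eq_append_iff.1 hs
  obtain ⟨A, X', rfl, hA, hX'⟩ := List.map_eq_append_iff.1 hAX
  have hlt : labs true X' = [] := by
    rw [← List.length_eq_zero_iff, labs_length_eq true hX', hup]; rfl
  cases ho : own i with
  | none =>
    rw [ho] at hdn
    have hlf : labs false X' = [] := by
      rw [← List.length_eq_zero_iff, labs_length_eq false hX', hdn]; rfl
    have e : X' = X.map (mp Sum.inl) := by
      refine word_ext (by rw [hX', map_shape_mp]) ?_ ?_
      · rw [hlt, labs_map, hup]; rfl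
      · rw [hlf, labs_map, hdn]; rfl
    have hd' := hd.vertex i (⟨X, hX, e⟩ : RelU Rel i X')
    refine ⟨A ++ B, C, hd', hn, by simp [hA, hB], ?_, ?_, ?_⟩
    · simpa [hlf] using h1
    · simpa [hlf] using h2
    · rw [Multiset.filterMap_cons_none _ _ ho]
      simpa [hlf, hlt] using h3
  | some o =>
    rw [ho] at hdn
    obtain ⟨m, hm⟩ : ∃ m, labs false X' = [m] := by
      rw [← List.length_eq_one_iff, labs_length_eq false hX', hdn]; rfl
    simp only [labs_append, hm, hlt, List.append_nil] at h1 h2 h3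
    obtain ⟨k, hk⟩ := h2 m (by simp)
    set f : O ⊕ ℕ → O ⊕ ℕ := Function.update id m (Sum.inl o) with hfdef
    have hfm : f m = Sum.inl o := by simp [hfdef]
    have hf : ∀ o, f (Sum.inl o) = Sum.inl o := by
      intro o
      rw [hfdef, Function.update_of_ne]
      · rfl
      · rw [hk]; simp
    have hfne : ∀ z, z ≠ m → f z = z := fun z hz => by
      rw [hfdef, Function.update_of_ne hz]; rfl
    obtain ⟨C', hC', hd'⟩ := hd.subst f hf
    have e : X'.map (mp f) = X.map (mp Sum.inl) := by
      refine word_ext (by rw [map_shape_mp, hX', map_shape_mp]) ?_ ?_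
      · rw [labs_map, labs_map, hlt, hup]; rfl
      · rw [labs_map, labs_map, hm, hdn]; simp [hfm]
    have hd2 := hd'.cast rfl (w' := A.map (mp f) ++ X'.map (mp f) ++ B.map (mp f))
      (by simp) rfl rfl
    have hd3 := hd2.vertex i (⟨X, hX, e⟩ : RelU Rel i (X'.map (mp f)))
    rw [List.append_assoc, List.nodup_append, List.singleton_append, List.nodup_cons] at h1
    obtain ⟨hnA, ⟨hmB, hnB⟩, hdis⟩ := h1
    have hmA : m ∉ labs false A := fun h => hdis m h m (by simp) rfl
    have eA : (labs false A).map f = labs false A := by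
      conv_rhs => rw [← List.map_id (labs false A)]
      exact List.map_congr_left fun z hz => hfne z fun h => hmA (h ▸ hz)
    have eB : (labs false B).map f = labs false B := by
      conv_rhs => rw [← List.map_id (labs false B)]
      exact List.map_congr_left fun z hz => hfne z fun h => hmB (h ▸ hz)
    have eAB : labs false (A.map (mp f) ++ B.map (mp f)) = labs false A ++ labs false B := by
      rw [labs_append, labs_map, labs_map, eA, eB]
    refine ⟨_, C', hd3, by rw [hC', hn], ?_, ?_, ?_, ?_⟩
    · rw [List.map_append, map_shape_mp, map_shape_mp, hA, hB]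
    · rw [eAB, List.nodup_append]
      exact ⟨hnA, hnB, fun a ha b hb => hdis a ha b (List.mem_cons_of_mem _ hb)⟩
    · rw [eAB]
      intro z hz
      refine h2 z ?_
      rcases List.mem_append.1 hz with h | h
      · simp [h]
      · simp [h]
    · rw [Multiset.filterMap_cons_some _ _ _ ho, eAB, labs_append, labs_map, labs_map,
        ← List.map_append, Multiset.map_cons]
      have h4 := congrArg (Multiset.map f) h3
      rw [Multiset.map_add, owners_map_eq hf, Multiset.map_coe, Multiset.map_coe] at h4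
      have e6 : (↑(List.map f (labs false A ++ [m] ++ labs false B)) : Multiset (O ⊕ ℕ)) =
          Sum.inl o ::ₘ ↑(labs false A ++ labs false B) := by
        rw [Multiset.cons_coe, Multiset.coe_eq_coe, List.map_append, List.map_append, eA, eB]
        simp [hfm]
      rw [e6, Multiset.add_cons] at h4
      rw [Multiset.cons_add]
      exact h4

/-- Letters that are rails. -/
def isRail (x : Ltr E Λ) : Prop := x.isRight = true

instance (x : Ltr E Λ) : Decidable (isRail x) := inferInstanceAs (Decidable (x.isRight = true))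

/-- The number of crossings in which not both letters are rails. -/
def nrr (C : Multiset (Ltr E O × Ltr E O)) : ℕ :=
  C.countP (fun p => ¬ (isRail p.1 ∧ isRail p.2))

theorem lift (hRel : ∀ i X, Rel i X → labs false X = (own i).toList ∧ labs true X = [])
    {W : List (Ltr E O)} {S : Multiset ι} {C : Multiset (Ltr E O × Ltr E O)}
    (h : Der (invL invE) Rel [] W S C) : LiftS invE Rel own S (W.map shape) (nrr C) := by
  induction h with
  | refl => exact ⟨[], 0, .refl, by simp [nrr], rfl, by simp, by simp, by simp⟩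
  | create x _ ih =>
    rw [List.map_append] at ih
    rcases x with e | ⟨b, o⟩
    · simpa [shape, invL] using ih.createE e
    · simpa [shape, invL] using ih.createR b
  | cancel x _ ih =>
    rw [List.map_append, List.map_cons, List.map_cons] at ih
    rw [List.map_append]
    rcases x with e | ⟨b, o⟩
    · exact LiftS.cancelE e ih
    · exact LiftS.cancelR b ih
  | @cross A B S C x y _ ih =>
    rw [List.map_append, List.map_cons, List.map_cons] at ih ⊢
    by_cases hr : isRail x ∧ isRail y
    · have e : nrr ((x, y) ::ₘ C) = nrr C := by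
        unfold nrr; rw [Multiset.countP_cons_of_neg]; simpa using hr
      rw [e]
      rcases x with e | ⟨b, o⟩
      · simp [isRail] at hr
      rcases y with e | ⟨b', o'⟩
      · simp [isRail] at hr
      exact LiftS.crossRR b b' ih
    · have e : nrr ((x, y) ::ₘ C) = nrr C + 1 := by
        unfold nrr; rw [Multiset.countP_cons_of_pos]; simpa using hr
      rw [e]
      exact LiftS.cross _ _ ih
  | vertex i hi _ ih =>
    rw [List.map_append, List.map_append] at ih
    rw [List.map_append]
    exact LiftS.vertex i hi (hRel _ _ hi).1 (hRel _ _ hi).2 ih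

/-- Uncrossing: the rails can be redrawn without mutual crossings. -/
theorem uncross [Nonempty O]
    (hRel : ∀ i X, Rel i X → labs false X = (own i).toList ∧ labs true X = [])
    {W : List (Ltr E O)} {S : Multiset ι} {C : Multiset (Ltr E O × Ltr E O)}
    (h : Der (invL invE) Rel [] W S C) (hW : labs false W = []) :
    ∃ (W' : List (Ltr E O)) (C' : Multiset (Ltr E O × Ltr E O)),
      Der (invL invE) Rel [] W' S C' ∧ C'.card = nrr C ∧ W'.map shape = W.map shape ∧
      (↑(labs true W') : Multiset O) = S.filterMap own := by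
  obtain ⟨W', C', hd, hn, hs, h1, h2, h3⟩ := lift hRel h
  have hlf : labs false W' = [] := by
    rw [← List.length_eq_zero_iff, labs_length_eq false hs, hW]; rfl
  let o₀ : O := Classical.arbitrary O
  let π : O ⊕ ℕ → O := Sum.elim id (fun _ => o₀)
  have hd' := hd.hom1 (inv' := invL invE) (Rel' := Rel) (mp π) (mp_invL invE π) (by
    rintro i - X' ⟨X, hX, rfl⟩
    have e : (X.map (mp Sum.inl)).map (mp π) = X := by
      rw [List.map_map]
      conv_rhs => rw [← List.map_id X]
      refine List.map_congr_left fun x _ => ?_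
      rw [Function.comp_apply, mp_mp]
      rcases x with e | ⟨b, o⟩ <;> rfl
    rw [e]; exact hX)
  refine ⟨W'.map (mp π), _, hd', by rw [Multiset.card_map, hn], by rw [map_shape_mp, hs], ?_⟩
  rw [labs_map, ← Multiset.map_coe, h3, hlf]
  simp only [Multiset.coe_nil, add_zero, Multiset.map_map]
  have : (π ∘ Sum.inl : O → O) = id := by funext o; rfl
  rw [this, Multiset.map_id]

end Lift

end Pool.ConeX
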