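import Pool.Agent.Lib.MP_9ec9ec_co.Defs
import Pool.Agent.Lib.MP_9ec9ec_co.Uncross

/-!
The word calculus of a graph: comparison with `Sweep`, existence of drawings, and the fact that in an optimal
drawing only independent edges cross.
-/

namespace Pool.ConeX

variable {V : Type*}

/-- The vertex words of a graph. -/
def RelG (G : SimpleGraph V) (v : V) (X : List (V × V)) : Prop :=
  ∃ P : List V, P.Nodup ∧ (∀ w, w ∈ P ↔ G.Adj v w) ∧ X = P.map (fun w => (w, v))

/-- Derivations of a graph. -/
abbrev DG (G : SimpleGraph V) := Der (Prod.swap : V × V → V × V) (RelG G)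

theorem RelG.reverse {G : SimpleGraph V} {v : V} {X : List (V × V)} (h : RelG G v X) :
    RelG G v X.reverse := by
  obtain ⟨P, hP, hm, rfl⟩ := h
  exact ⟨P.reverse, List.nodup_reverse.2 hP, fun w => by simp [hm], by simp⟩

/-- From drawings to derivations. -/
theorem Sweep.toDer [DecidableEq V] {G : SimpleGraph V} {W : List (V × V)} {S : Finset V} {k : ℕ}
    (h : Sweep G W S k) : ∃ C, DG G [] W S.val C ∧ C.card = k := by
  induction h with
  | start => exact ⟨0, .refl, rfl⟩
  | create a b _ _ ih =>
    obtain ⟨C, hC, hk⟩ := ih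
    exact ⟨C, (hC.create (a, b)).cast rfl (by simp) rfl rfl, hk⟩
  | cancel a b _ ih =>
    obtain ⟨C, hC, hk⟩ := ih
    exact ⟨C, Der.cancel (a, b) (hC.cast rfl (by simp) rfl rfl), hk⟩
  | cross p q _ ih =>
    obtain ⟨C, hC, hk⟩ := ih
    exact ⟨_, (Der.cross p q (hC.cast rfl (by simp; rfl) rfl rfl)).cast rfl (by simp) rfl rfl,
      by simp [hk]⟩
  | @vertex A B S k v X Y hv hnd hN _ ih =>
    obtain ⟨C, hC, hk⟩ := ih
    refine ⟨C, ?_, hk⟩
    have h1 := Der.createWord (Y.reverse.map (fun w => (w, v))) hC
    have e : invWord Prod.swap (Y.reverse.map (fun w => (w, v))) = Y.map (fun w => (v, w)) := by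
      simp [invWord, Function.comp_def]
    rw [e] at h1
    have hr : RelG G v ((X ++ Y.reverse).map (fun w => (w, v))) :=
      ⟨X ++ Y.reverse, by
        rw [List.nodup_append] at hnd ⊢
        exact ⟨hnd.1, List.nodup_reverse.2 hnd.2.1, fun a ha b hb => hnd.2.2 a ha b (by simpa using hb)⟩,
        fun w => by rw [← hN w]; simp, rfl⟩
    have h2 := Der.vertex (A := A) (B := Y.map (fun w => (v, w)) ++ B) v hr
      (h1.cast rfl (by simp) rfl rfl)
    refine h2.cast rfl (by simp) ?_ rfl
    rw [Finset.insert_val_of_notMem hv]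

/-- From derivations to drawings. -/
theorem Der.toSweep [DecidableEq V] {G : SimpleGraph V} {W : List (V × V)} {S : Multiset V} :
    ∀ {C : Multiset ((V × V) × (V × V))}, DG G [] W S C → ∀ (hS : S.Nodup),
    ∃ k ≤ C.card, Sweep G (@List.filter _ (fun p => @decide (G.Adj p.1 p.2) (Classical.dec _)) W)
      ⟨S, hS⟩ k := by
  classical
  intro C h
  have hsw : ∀ p : V × V, decide (G.Adj p.swap.1 p.swap.2) = decide (G.Adj p.1 p.2) := by
    intro p
    simp [G.adj_comm]
  induction h with
  | refl => exact fun hS => ⟨0, le_rfl, by simpa using Sweep.start⟩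
  | create x _ ih =>
    intro hS
    obtain ⟨k, hk, h⟩ := ih hS
    refine ⟨k, hk, ?_⟩
    rw [List.filter_append] at h
    by_cases hx : G.Adj x.1 x.2
    · have := Sweep.create x.1 x.2 hx h
      simpa [List.filter_append, List.filter_cons, hx, hx.symm, Prod.swap] using this
    · have hx' : ¬ G.Adj x.2 x.1 := fun h => hx h.symm
      simpa [List.filter_append, List.filter_cons, hx, hx'] using h
  | cancel x _ ih =>
    intro hS
    obtain ⟨k, hk, h⟩ := ih hS
    refine ⟨k, hk, ?_⟩
    rw [List.filter_append]
    by_cases hx : G.Adj x.1 x.2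
    · refine Sweep.cancel x.1 x.2 ?_
      simpa [List.filter_append, List.filter_cons, hx, hx.symm, Prod.swap] using h
    · have hx' : ¬ G.Adj x.2 x.1 := fun h => hx h.symm
      simpa [List.filter_append, List.filter_cons, hx, hx'] using h
  | cross x y _ ih =>
    intro hS
    obtain ⟨k, hk, h⟩ := ih hS
    by_cases hx : G.Adj x.1 x.2
    · by_cases hy : G.Adj y.1 y.2
      · refine ⟨k + 1, by simpa using hk, ?_⟩
        have := Sweep.cross x y (by simpa [List.filter_append, List.filter_cons, hx, hy] using h)
        simpa [List.filter_append, List.filter_cons, hx, hy] using this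
      · refine ⟨k, by simp; omega, ?_⟩
        simpa [List.filter_append, List.filter_cons, hx, hy] using h
    · refine ⟨k, by simp; omega, ?_⟩
      simpa [List.filter_append, List.filter_cons, hx] using h
  | @vertex A B X S C v hv _ ih =>
    intro hS
    obtain ⟨hvS, hS'⟩ := Multiset.nodup_cons.1 hS
    obtain ⟨k, hk, h⟩ := ih hS'
    refine ⟨k, hk, ?_⟩
    obtain ⟨P, hP, hm, rfl⟩ := hv
    have hX : (P.map (fun w => (w, v))).filter (fun p => decide (G.Adj p.1 p.2)) =
        P.map (fun w => (w, v)) := by
      rw [List.filter_eq_self]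
      intro p hp
      obtain ⟨w, hw, rfl⟩ := List.mem_map.1 hp
      simpa using ((hm w).1 hw).symm
    rw [List.filter_append, List.filter_append, hX] at h
    have := Sweep.vertex v P [] (S := ⟨S, hS'⟩) (by simpa using hvS) (by simpa using hP)
      (by simpa using hm) h
    rw [List.filter_append]
    have e : insert v (⟨S, hS'⟩ : Finset V) = ⟨v ::ₘ S, hS⟩ := by
      apply Finset.val_injective
      rw [Finset.insert_val_of_notMem (by simpa using hvS)]
    rw [e] at this
    simpa using this

/-- A word that is symmetric under reversal of the letters can be cancelled. -/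
theorem Der.cancelAll {Rel : V → List (V × V) → Prop} {S : Multiset V} :
    ∀ (n : ℕ) (W : List (V × V)), W.length ≤ n → (∀ x ∈ W, x.swap ≠ x) →
      (↑W : Multiset (V × V)) = (↑W : Multiset (V × V)).map Prod.swap →
      ∀ {C : Multiset ((V × V) × (V × V))}, Der Prod.swap Rel [] W S C →
      ∃ C', Der Prod.swap Rel [] [] S C' := by
  intro n
  induction n with
  | zero =>
    intro W hW _ _ C h
    have : W = [] := List.length_eq_zero_iff.1 (by omega)
    subst this
    exact ⟨C, h⟩
  | succ n ih =>
    intro W hW hx hs C h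
    cases W with
    | nil => exact ⟨C, h⟩
    | cons x W =>
      have hmem : x.swap ∈ W := by
        have h1 : x.swap ∈ (↑(x :: W) : Multiset (V × V)) := by
          rw [hs]; exact Multiset.mem_map_of_mem _ (by simp)
        have h2 : x.swap ∈ x :: W := by simpa using h1
        rcases List.mem_cons.1 h2 with h3 | h3
        · exact absurd h3 (hx x (by simp))
        · exact h3
      classical
      obtain ⟨C', h'⟩ := h.perm ((List.perm_cons_erase hmem).cons x)
      have h2 := Der.cancel (A := []) x h'
      refine ih (W.erase x.swap) ?_ ?_ ?_ h2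
      · have := List.length_erase_of_mem hmem
        simp only [List.length_cons] at hW
        omega
      · intro y hy
        exact hx y (List.mem_cons_of_mem _ (List.mem_of_mem_erase hy))
      · have e : (↑(x :: W) : Multiset (V × V)) = x ::ₘ x.swap ::ₘ ↑(W.erase x.swap) := by
          rw [Multiset.cons_coe, Multiset.cons_coe, Multiset.coe_eq_coe]
          exact (List.perm_cons_erase hmem).cons x
        rw [e] at hs
        simp only [Multiset.map_cons, Prod.swap_swap] at hs
        rw [Multiset.cons_swap, Multiset.cons_inj_right, Multiset.cons_inj_right] at hs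
        exact hs

theorem exists_der [Fintype V] (G : SimpleGraph V) :
    ∃ C, DG G [] [] (Finset.univ : Finset V).val C := by
  classical
  let nb : V → List V := fun v => (G.neighborFinset v).toList
  have key : ∀ l : List V, ∃ C, DG G [] (l.flatMap fun v => ((nb v).map (fun w => (v, w))).reverse)
      (↑l : Multiset V) C := by
    intro l
    induction l with
    | nil => exact ⟨0, .refl⟩
    | cons v l ih =>
      obtain ⟨C, h⟩ := ih
      have h1 := Der.createWord (A := []) ((nb v).map (fun w => (w, v))) h
      have e : invWord Prod.swap ((nb v).map (fun w => (w, v))) =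
          ((nb v).map (fun w => (v, w))).reverse := by
        simp [invWord, Function.comp_def]
      rw [e] at h1
      have hr : RelG G v ((nb v).map (fun w => (w, v))) :=
        ⟨nb v, Finset.nodup_toList _, fun w => by simp [nb], rfl⟩
      have h2 := Der.vertex (A := []) v hr (h1.cast rfl (List.append_assoc _ _ _) rfl rfl)
      exact ⟨C, h2.cast rfl (by simp [List.flatMap_def]) (by simp) rfl⟩
  obtain ⟨C, h⟩ := key (Finset.univ : Finset V).toList
  rw [Finset.coe_toList] at h
  have hmem : ∀ p : V × V, p ∈ (Finset.univ : Finset V).toList.flatMap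
      (fun v => ((nb v).map (fun w => (v, w))).reverse) ↔ G.Adj p.1 p.2 := by
    rintro ⟨a, b⟩
    simp only [List.mem_flatMap, Finset.mem_toList, Finset.mem_univ, true_and, List.mem_reverse,
      List.mem_map, nb, SimpleGraph.mem_neighborFinset, Prod.mk.injEq]
    constructor
    · rintro ⟨v, w, h, rfl, rfl⟩; exact h
    · intro h; exact ⟨a, b, h, rfl, rfl⟩
  have hnd : ((Finset.univ : Finset V).toList.flatMap
      (fun v => ((nb v).map (fun w => (v, w))).reverse)).Nodup := by
    rw [List.nodup_flatMap]
    refine ⟨fun v _ => ?_, ?_⟩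
    · rw [List.nodup_reverse]
      exact (Finset.nodup_toList _).map fun a b h => (Prod.mk.inj h).2
    · refine (Finset.nodup_toList _).imp ?_
      intro a b hab
      rw [Function.onFun, List.disjoint_left]
      rintro ⟨p, q⟩ h1 h2
      simp only [List.mem_reverse, List.mem_map, Prod.mk.injEq] at h1 h2
      obtain ⟨_, _, h1, _⟩ := h1
      obtain ⟨_, _, h2, _⟩ := h2
      exact hab (h1.trans h2.symm)
  refine Der.cancelAll _ _ le_rfl ?_ ?_ h
  · rintro ⟨a, b⟩ hx he
    have := (hmem _).1 hx
    simp only [Prod.swap_prod_mk, Prod.mk.injEq] at he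
    exact this.ne he.2
  · refine (Multiset.Nodup.ext (by simpa using hnd)
      ((by simpa using hnd : Multiset.Nodup (↑(_ : List (V × V)) : Multiset (V × V))).map
        Prod.swap_injective)).2 ?_
    rintro ⟨a, b⟩
    rw [Multiset.mem_coe, hmem, Multiset.mem_map]
    constructor
    · intro hab
      exact ⟨(b, a), by rw [Multiset.mem_coe, hmem]; exact hab.symm, rfl⟩
    · rintro ⟨⟨c, d⟩, hcd, he⟩
      rw [Multiset.mem_coe, hmem] at hcd
      simp only [Prod.swap_prod_mk, Prod.mk.injEq] at he
      obtain ⟨rfl, rfl⟩ := he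
      exact hcd.symm

theorem cr_le [Fintype V] [DecidableEq V] {G : SimpleGraph V}
    {C : Multiset ((V × V) × (V × V))} (h : DG G [] [] (Finset.univ : Finset V).val C) :
    crossingNumber G ≤ C.card := by
  obtain ⟨k, hk, h'⟩ := Der.toSweep h (Finset.univ : Finset V).nodup
  exact (Nat.sInf_le (by simpa using h')).trans hk

theorem cr_attained [Fintype V] [DecidableEq V] (G : SimpleGraph V) :
    ∃ C : Multiset ((V × V) × (V × V)), DG G [] [] (Finset.univ : Finset V).val C ∧
      C.card = crossingNumber G := by
  have hne : {k | Sweep G [] Finset.univ k}.Nonempty := by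
    obtain ⟨C, h⟩ := exists_der G
    obtain ⟨k, -, h'⟩ := Der.toSweep h (Finset.univ : Finset V).nodup
    exact ⟨k, by simpa using h'⟩
  exact Sweep.toDer (Nat.sInf_mem hne)

open Classical in
/-- Deleting edges from a drawing. -/
theorem Der.restrict {G H : SimpleGraph V} (hle : H ≤ G) {u w : List (V × V)} {S : Multiset V}
    {C : Multiset ((V × V) × (V × V))} (h : DG G u w S C) :
    ∃ C', DG H (u.filter fun p => decide (H.Adj p.1 p.2)) (w.filter fun p => decide (H.Adj p.1 p.2))
      S C' ∧ C'.card = C.countP (fun p => H.Adj p.1.1 p.1.2 ∧ H.Adj p.2.1 p.2.2) := by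
  have hfl : ∀ W : List (V × V), W.flatMap (fun p => if H.Adj p.1 p.2 then [p] else []) =
      W.filter (fun p => decide (H.Adj p.1 p.2)) := by
    intro W
    induction W with
    | nil => rfl
    | cons x W ih =>
      by_cases hx : H.Adj x.1 x.2
      · simp [List.flatMap_cons, hx, ih]
      · simp [List.flatMap_cons, hx, ih]
  obtain ⟨C', hC', h'⟩ := h.hom (inv' := Prod.swap) (Rel' := RelG H)
    (fun p => if H.Adj p.1 p.2 then [p] else []) (fun v => {v}) (by
      rintro ⟨a, b⟩
      by_cases hx : H.Adj a b
      · simp [hx, hx.symm, invWord]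
      · have hx' : ¬ H.Adj b a := fun h => hx h.symm
        simp [hx, hx', invWord]) (by
      rintro v - X ⟨P, hP, hm, rfl⟩
      have hr : RelG H v ((P.filter (fun w => decide (H.Adj v w))).map (fun w => (w, v))) := by
        refine ⟨_, hP.filter _, fun w => ?_, rfl⟩
        simp only [List.mem_filter, decide_eq_true_eq, hm]
        exact ⟨fun h => h.2, fun h => ⟨hle h, h⟩⟩
      have e : (P.map (fun w => (w, v))).flatMap
          (fun p => if H.Adj p.1 p.2 then [p] else []) =
          (P.filter (fun w => decide (H.Adj v w))).map (fun w => (w, v)) := by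
        rw [hfl, List.filter_map]
        congr 1
        refine List.filter_congr fun w _ => ?_
        simp [H.adj_comm]
      rw [e]
      exact Der.vertexWord hr)
  refine ⟨C', ?_, ?_⟩
  · rw [hfl, hfl] at h'
    exact h'.cast rfl rfl (by rw [Multiset.bind_singleton]; exact Multiset.map_id S) rfl
  · rw [hC']
    clear hC' h' C' h
    induction C using Multiset.induction_on with
    | empty => simp
    | cons p C ih =>
      rw [Multiset.map_cons, Multiset.sum_cons, ih, Multiset.countP_cons]
      by_cases h1 : H.Adj p.1.1 p.1.2 <;> by_cases h2 : H.Adj p.2.1 p.2.2 <;> simp [h1, h2] <;> omega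

/-- Optimal drawings. -/
structure Opt [Fintype V] (G : SimpleGraph V) (C : Multiset ((V × V) × (V × V))) : Prop where
  der : DG G [] [] (Finset.univ : Finset V).val C
  min : ∀ C', DG G [] [] (Finset.univ : Finset V).val C' → C.card ≤ C'.card

theorem exists_opt [Fintype V] [DecidableEq V] (G : SimpleGraph V) :
    ∃ C, Opt G C ∧ C.card = crossingNumber G := by
  obtain ⟨C, h, hc⟩ := cr_attained G
  exact ⟨C, ⟨h, fun C' h' => hc ▸ cr_le h'⟩, hc⟩

theorem Opt.adj [Fintype V] {G : SimpleGraph V} {C : Multiset ((V × V) × (V × V))} (h : Opt G C)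
    {p : (V × V) × (V × V)} (hp : p ∈ C) : G.Adj p.1.1 p.1.2 ∧ G.Adj p.2.1 p.2.2 := by
  classical
  obtain ⟨C', h', hc⟩ := Der.restrict (le_refl G) h.der
  have h1 := h.min C' h'
  rw [hc] at h1
  have h2 := Multiset.countP_eq_card.1 (le_antisymm (Multiset.countP_le_card _ C) h1)
  exact h2 p hp

section Indep

variable [DecidableEq V]

/-- Reading the edges at `v` as rails. -/
def toL (v : V) (p : V × V) : Ltr (V × V) V :=
  if p.1 = v then (if p.2 = v then .inl p else .inr (false, p.2))
  else if p.2 = v then .inr (true, p.1) else .inl p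

def ofL (v : V) : Ltr (V × V) V → V × V
  | .inl p => p
  | .inr (false, b) => (v, b)
  | .inr (true, a) => (a, v)

theorem ofL_toL (v : V) (p : V × V) : ofL v (toL v p) = p := by
  obtain ⟨a, b⟩ := p
  unfold toL
  split_ifs with h1 h2 h3
  · rfl
  · simp only at h1; subst h1; rfl
  · simp only at h3; subst h3; rfl
  · rfl

theorem toL_swap (v : V) (p : V × V) : toL v p.swap = invL Prod.swap (toL v p) := by
  obtain ⟨a, b⟩ := p
  unfold toL
  by_cases h1 : a = v <;> by_cases h2 : b = v <;> simp [h1, h2, invL]

omit [DecidableEq V] in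
theorem ofL_inv (v : V) (x : Ltr (V × V) V) : ofL v (invL Prod.swap x) = (ofL v x).swap := by
  rcases x with p | ⟨b, o⟩
  · rfl
  · cases b <;> rfl

theorem labs_rot (v w : V) (hw : w ≠ v) (P : List V) (hP : P.Nodup) :
    labs false (P.map fun u => toL v (u, w)) = (if v ∈ P then [w] else []) ∧
    labs true (P.map fun u => toL v (u, w)) = [] := by
  induction P with
  | nil => simp
  | cons u P ih =>
    obtain ⟨hu, hP'⟩ := List.nodup_cons.1 hP
    obtain ⟨i1, i2⟩ := ih hP'
    by_cases huv : u = v
    · subst huv
      have e : toL u (u, w) = .inr (false, w) := by simp [toL, hw]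
      rw [List.map_cons, e]
      simp [i1, i2, hu]
    · have e : toL v (u, w) = .inl (u, w) := by simp [toL, hw, huv]
      rw [List.map_cons, e]
      have : v ≠ u := fun h => huv h.symm
      simp [i1, i2, this]

theorem all_up {E O : Type*} (W : List (Ltr E O)) (h : ∀ x ∈ W.map shape, x = Sum.inr true) :
    W = (labs true W).map (fun o => Sum.inr (true, o)) := by
  induction W with
  | nil => rfl
  | cons x W ih =>
    have hx : shape x = Sum.inr true := h _ (by simp)
    obtain ⟨o, rfl⟩ := shape_eq_inr hx
    rw [labs_cons_same, List.map_cons, ← ih fun y hy => h y (by rw [List.map_cons]; exact List.mem_cons_of_mem _ hy)]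

/-- In an optimal drawing no two edges at the same vertex cross. -/
theorem Opt.indep [Fintype V] {G : SimpleGraph V} {C : Multiset ((V × V) × (V × V))}
    (h : Opt G C) {p : (V × V) × (V × V)} (hp : p ∈ C) (v : V)
    (h1 : v = p.1.1 ∨ v = p.1.2) (h2 : v = p.2.1 ∨ v = p.2.2) : False := by
  classical
  obtain ⟨hadj1, hadj2⟩ := h.adj hp
  obtain ⟨X, S', hS, ⟨P, hP, hPm, rfl⟩, hd⟩ :=
    h.der.last Prod.swap_swap (Finset.mem_univ v : v ∈ (Finset.univ : Finset V).val)
  have hvS : v ∉ S' := by
    have := (Finset.univ : Finset V).nodup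
    rw [hS] at this
    exact (Multiset.nodup_cons.1 this).1
  let Rel' : V → List (Ltr (V × V) V) → Prop :=
    fun w Y => w ≠ v ∧ ∃ X, RelG G w X ∧ Y = X.map (toL v)
  let own : V → Option V := fun w => if G.Adj v w then some w else none
  have hd1 := hd.hom1 (inv' := invL Prod.swap) (Rel' := Rel') (toL v) (toL_swap v)
    (fun w hw X hX => ⟨fun h => hvS (h ▸ hw), X, hX, rfl⟩)
  have hRel : ∀ i X, Rel' i X → labs false X = (own i).toList ∧ labs true X = [] := by
    rintro w _ ⟨hw, X, ⟨Q, hQ, hQm, rfl⟩, rfl⟩
    rw [List.map_map]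
    have := labs_rot v w hw Q hQ
    refine ⟨?_, this.2⟩
    rw [show (toL v ∘ fun u => (u, w)) = fun u => toL v (u, w) from rfl, this.1]
    simp only [hQm, own, G.adj_comm]
    split_ifs <;> rfl
  have hXup : ∀ x ∈ ((P.map (fun w => (w, v))).map (toL v)).map shape, x = Sum.inr true := by
    intro x hx
    simp only [List.map_map, List.mem_map, Function.comp_apply] at hx
    obtain ⟨w, hw, rfl⟩ := hx
    have hwv : w ≠ v := ((hPm w).1 hw).ne'
    simp [toL, hwv, shape]
  have hdn : labs false ((P.map (fun w => (w, v))).map (toL v)) = [] := by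
    have e := all_up _ hXup
    rw [e]
    generalize labs true _ = l
    induction l with
    | nil => rfl
    | cons o l ih => simpa using ih
  have : Nonempty V := ⟨v⟩
  obtain ⟨W', C', hd2, hc, hsh, hup⟩ := uncross (own := own) hRel hd1 hdn
  have hd3 := hd2.hom1 (inv' := Prod.swap) (Rel' := RelG G) (ofL v) (ofL_inv v) (by
    rintro w - _ ⟨-, X, hX, rfl⟩
    have : (X.map (toL v)).map (ofL v) = X := by
      rw [List.map_map]
      conv_rhs => rw [← List.map_id X]
      exact List.map_congr_left fun x _ => ofL_toL v x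
    rw [this]; exact hX)
  have hW' : W' = (labs true W').map (fun o => Sum.inr (true, o)) :=
    all_up _ (by rw [hsh]; exact hXup)
  have hrel : RelG G v (W'.map (ofL v)) := by
    refine ⟨labs true W', ?_, ?_, ?_⟩
    · rw [← Multiset.coe_nodup, hup]
      have hnd : S'.Nodup := by
        have := (Finset.univ : Finset V).nodup
        rw [hS] at this
        exact (Multiset.nodup_cons.1 this).2
      refine hnd.filterMap own ?_
      intro a b c ha hb
      simp only [own] at ha hb
      split_ifs at ha hb
      · simp at ha hb; rw [ha, hb]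
      all_goals simp at ha hb
    · intro w
      rw [← Multiset.mem_coe, hup, Multiset.mem_filterMap]
      constructor
      · rintro ⟨a, _, ha⟩
        simp only [own] at ha
        split_ifs at ha with hva
        · simp only [Option.some.injEq] at ha
          exact ha ▸ hva
      · intro hw
        refine ⟨w, ?_, by simp [own, hw]⟩
        have : w ∈ v ::ₘ S' := by rw [← hS]; exact Finset.mem_univ w
        exact (Multiset.mem_cons.1 this).resolve_left hw.ne'
    · conv_lhs => rw [hW']
      rw [List.map_map]
      rfl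
  have hd4 := Der.vertex (A := []) (B := []) v hrel (hd3.cast rfl (by simp) rfl rfl)
  have hd5 : DG G [] [] (Finset.univ : Finset V).val (C'.map (Prod.map (ofL v) (ofL v))) :=
    hd4.cast rfl (by simp) hS.symm rfl
  have hmin := h.min _ hd5
  rw [Multiset.card_map, hc] at hmin
  have hlt : nrr (C.map (Prod.map (toL v) (toL v))) < C.card := by
    unfold nrr
    rw [Multiset.countP_map]
    refine lt_of_le_of_ne (Multiset.card_le_card (Multiset.filter_le _ _)) fun he => ?_
    have h3 := Multiset.filter_eq_self.1 (Multiset.eq_of_le_of_card_le (Multiset.filter_le _ _) he.ge)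
    have h4 := h3 p hp
    apply h4
    obtain ⟨⟨a, b⟩, ⟨c, d⟩⟩ := p
    have hr : ∀ x : V × V, G.Adj x.1 x.2 → (v = x.1 ∨ v = x.2) → isRail (toL v x) := by
      rintro ⟨x, y⟩ hxy hv
      rcases hv with rfl | rfl
      · have : y ≠ v := hxy.ne'
        simp [toL, this, isRail]
      · have : x ≠ v := hxy.ne
        simp [toL, this, isRail]
    exact ⟨hr _ hadj1 h1, hr _ hadj2 h2⟩
  omega

end Indep

end Pool.ConeX
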