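import Pool.Agent.Lib.MP_9ec9ec_co.Graph

/-!
The redrawing lemma: from a drawing of the cone over `G` and a set `M` of vertices we build a drawing of `G`.
Take the drawing and its mirror image, side by side, with the two apices facing each other.  In the first copy
keep the edges that avoid `M`, in the mirror image keep the edges that meet `M`, and run every edge between
`w ∉ M` and `M` along the apex edge of `w`, from the first copy to the second.
-/

namespace Pool.ConeX

variable {V : Type*} [DecidableEq V]

section Words

variable (M : Finset V) (U : V → List (V × V))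

/-- The first homomorphism: edges that avoid `M`. -/
def phi : Option V × Option V → List (V × V)
  | (some a, some b) => if a ∈ M ∨ b ∈ M then [] else [(a, b)]
  | (some w, none) => (U w).map Prod.swap
  | (none, some w) => (U w).reverse
  | (none, none) => []

/-- The second homomorphism: edges that meet `M`. -/
def psi : Option V × Option V → List (V × V)
  | (some a, some b) => if a ∈ M ∨ b ∈ M then [(a, b)] else []
  | (some w, none) => U w
  | (none, some w) => (U w).reverse.map Prod.swap
  | (none, none) => []

theorem phi_swap (x : Option V × Option V) :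
    phi M U x.swap = invWord Prod.swap (phi M U x) := by
  rcases x with ⟨_ | a, _ | b⟩
  · rfl
  · simp [phi, invWord]
  · simp [phi, invWord]
  · simp only [phi, Prod.swap_prod_mk, invWord]
    by_cases h : a ∈ M ∨ b ∈ M
    · rw [if_pos h, if_pos h.symm]; rfl
    · rw [if_neg h, if_neg (fun h' => h h'.symm)]; rfl

theorem psi_swap (x : Option V × Option V) :
    psi M U x.swap = invWord Prod.swap (psi M U x) := by
  rcases x with ⟨_ | a, _ | b⟩
  · rfl
  · simp [psi, invWord]
  · simp [psi, invWord]
  · simp only [psi, Prod.swap_prod_mk, invWord]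
    by_cases h : a ∈ M ∨ b ∈ M
    · rw [if_pos h, if_pos h.symm]; rfl
    · rw [if_neg h, if_neg (fun h' => h h'.symm)]; rfl

theorem phi_edges (w : V) (P : List V) :
    (P.map fun u => (some u, some w)).flatMap (phi M U) =
      (P.filter fun u => decide (¬ (u ∈ M ∨ w ∈ M))).map fun u => (u, w) := by
  induction P with
  | nil => rfl
  | cons u P ih =>
    rw [List.map_cons, List.flatMap_cons, ih, List.filter_cons]
    by_cases h : u ∈ M ∨ w ∈ M
    · simp [phi, h]
    · simp [phi, h]

theorem psi_edges (w : V) (P : List V) :
    (P.map fun u => (some u, some w)).flatMap (psi M U) =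
      (P.filter fun u => decide (u ∈ M ∨ w ∈ M)).map fun u => (u, w) := by
  induction P with
  | nil => rfl
  | cons u P ih =>
    rw [List.map_cons, List.flatMap_cons, ih, List.filter_cons]
    by_cases h : u ∈ M ∨ w ∈ M
    · simp [psi, h]
    · simp [psi, h]

end Words

/-- The number of neighbours of `w` in `M`. -/
def nbr (G : SimpleGraph V) [DecidableRel G.Adj] (M : Finset V) (w : V) : ℕ :=
  (M.filter fun u => G.Adj w u).card

/-- The number of strands that replace a letter in the first copy. -/
def lin (G : SimpleGraph V) [DecidableRel G.Adj] (M : Finset V) : Option V × Option V → ℕ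
  | (some a, some b) => if a ∈ M ∨ b ∈ M then 0 else 1
  | (some w, none) => if w ∈ M then 0 else nbr G M w
  | (none, some w) => if w ∈ M then 0 else nbr G M w
  | (none, none) => 0

/-- The number of strands that replace a letter in the mirror copy. -/
def lout (G : SimpleGraph V) [DecidableRel G.Adj] (M : Finset V) : Option V × Option V → ℕ
  | (some a, some b) => if a ∈ M ∨ b ∈ M then 1 else 0
  | (some w, none) => if w ∈ M then 0 else nbr G M w
  | (none, some w) => if w ∈ M then 0 else nbr G M w
  | (none, none) => 0

omit [DecidableEq V] in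
/-- The rotation at a vertex of the cone, cut at the apex edge. -/
theorem cut_rotation {G : SimpleGraph V} {w : V} {X : List (Option V × Option V)}
    (h : RelG (cone G) (some w) X) :
    ∃ P₁ P₂ : List V, (P₁ ++ P₂).Nodup ∧ (∀ u, u ∈ P₁ ++ P₂ ↔ G.Adj w u) ∧
      X = P₁.map (fun u => (some u, some w)) ++ (none, some w) ::
        P₂.map (fun u => (some u, some w)) := by
  obtain ⟨P, hP, hm, rfl⟩ := h
  have hnone : (none : Option V) ∈ P := (hm none).2 (by trivial)
  obtain ⟨Q₁, Q₂, rfl⟩ := List.append_of_mem hnone
  have hlift : ∀ Q : List (Option V), none ∉ Q → ∃ R : List V, Q = R.map some := by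
    intro Q hQ
    induction Q with
    | nil => exact ⟨[], rfl⟩
    | cons x Q ih =>
      obtain ⟨R, hR⟩ := ih fun h => hQ (List.mem_cons_of_mem _ h)
      cases x with
      | none => exact absurd (by simp) hQ
      | some x => exact ⟨x :: R, by rw [hR]; rfl⟩
  have hnd := hP
  rw [List.nodup_append, List.nodup_cons] at hnd
  obtain ⟨P₁, rfl⟩ := hlift Q₁ fun h => hnd.2.2 none h none (by simp) rfl
  obtain ⟨P₂, rfl⟩ := hlift Q₂ hnd.2.1.1
  refine ⟨P₁, P₂, ?_, ?_, ?_⟩
  · have h1 := hnd.1.of_map some
    have h2 := hnd.2.1.2.of_map some
    rw [List.nodup_append]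
    refine ⟨h1, h2, fun a ha b hb hab => ?_⟩
    exact hnd.2.2 (some a) (List.mem_map_of_mem ha) (some b)
      (List.mem_cons_of_mem _ (List.mem_map_of_mem hb)) (by rw [hab])
  · intro u
    have := hm (some u)
    have e : (cone G).Adj (some w) (some u) = G.Adj w u := rfl
    rw [e] at this
    rw [← this]
    simp
  · simp [Function.comp_def]

/-- **Redrawing lemma.** -/
theorem redraw [Fintype V] {G : SimpleGraph V} [DecidableRel G.Adj]
    {C : Multiset ((Option V × Option V) × (Option V × Option V))}
    (h : DG (cone G) [] [] (Finset.univ : Finset (Option V)).val C) (M : Finset V) :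
    ∃ C', DG G [] [] (Finset.univ : Finset V).val C' ∧
      C'.card = (C.map fun p => lin G M p.1 * lin G M p.2 + lout G M p.1 * lout G M p.2).sum := by
  classical
  obtain ⟨X, S', hS, ⟨PX, -, hPX, rfl⟩, hd⟩ :=
    h.last Prod.swap_swap (Finset.mem_univ none : none ∈ (Finset.univ : Finset (Option V)).val)
  have hS' : S' = (Finset.univ : Finset V).val.map some := by
    have h1 : (Finset.univ : Finset (Option V)).val = none ::ₘ (Finset.univ : Finset V).val.map some := by
      rw [univ_option]; rfl
    rw [h1] at hS
    exact ((Multiset.cons_inj_right _).1 hS).symm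
  have hnd : S'.Nodup := by
    rw [hS']
    exact (Finset.univ : Finset V).nodup.map (Option.some_injective V)
  obtain ⟨rot, hrot, hd'⟩ := hd.fixRot hnd
  have hmem : ∀ w : V, some w ∈ S' := fun w => by
    rw [hS']; exact Multiset.mem_map_of_mem _ (Finset.mem_univ w)
  choose P₁ P₂ hPnd hPm hPr using fun w => cut_rotation (hrot (some w) (hmem w))
  let B : V → List V := fun w => if w ∈ M then [] else (P₂ w ++ P₁ w).filter (· ∈ M)
  let U : V → List (V × V) := fun w => (B w).map fun u => (u, w)
  have hBlen : ∀ w, (B w).length = if w ∈ M then 0 else nbr G M w := by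
    intro w
    simp only [B]
    split_ifs with hw
    · rfl
    · have hn : ((P₂ w ++ P₁ w).filter (· ∈ M)).Nodup :=
        ((List.nodup_append_comm).1 (hPnd w)).filter _
      rw [← List.toFinset_card_of_nodup hn, nbr]
      congr 1
      ext u
      have := hPm w u
      simp only [List.mem_append] at this
      simp only [List.mem_toFinset, List.mem_filter, List.mem_append, decide_eq_true_eq,
        Finset.mem_filter]
      tauto
  have hφlen : ∀ x, (phi M U x).length = lin G M x := by
    rintro ⟨_ | a, _ | b⟩
    · rfl
    · simp [phi, lin, U, hBlen]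
    · simp [phi, lin, U, hBlen]
    · simp only [phi, lin]; split_ifs <;> rfl
  have hψlen : ∀ x, (psi M U x).length = lout G M x := by
    rintro ⟨_ | a, _ | b⟩
    · rfl
    · simp [psi, lout, U, hBlen]
    · simp [psi, lout, U, hBlen]
    · simp only [psi, lout]; split_ifs <;> rfl
  let f₁ : Option V → Multiset V := fun o => o.elim 0 fun w => if w ∈ M then 0 else {w}
  let f₂ : Option V → Multiset V := fun o => o.elim 0 fun w => if w ∈ M then {w} else 0
  -- first copy
  obtain ⟨C₁, hC₁, hd₁⟩ := hd'.hom (inv' := Prod.swap) (Rel' := RelG G) (phi M U) f₁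
    (phi_swap M U) (by
      rintro v hv _ rfl
      obtain ⟨w, -, rfl⟩ := Multiset.mem_map.1 (hS' ▸ hv)
      rw [hPr w, List.flatMap_append, List.flatMap_cons, phi_edges, phi_edges]
      by_cases hw : w ∈ M
      · have e1 : phi M U (none, some w) = [] := by simp [phi, U, B, hw]
        have e2 : f₁ (some w) = 0 := by simp [f₁, hw]
        rw [e1, e2]
        simp only [hw, or_true, not_true_eq_false, decide_false, List.filter_false, List.map_nil,
          List.append_nil]
        exact .refl
      · have e2 : f₁ (some w) = {w} := by simp [f₁, hw]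
        rw [e2]
        refine Der.vertexWord ⟨(P₁ w).filter (fun u => decide (u ∉ M)) ++ (B w).reverse ++
          (P₂ w).filter (fun u => decide (u ∉ M)), ?_, ?_, ?_⟩
        · have hperm : ((P₁ w).filter (fun u => decide (u ∉ M)) ++ (B w).reverse ++
              (P₂ w).filter (fun u => decide (u ∉ M))).Perm (P₁ w ++ P₂ w) := by
            have hB : B w = (P₂ w ++ P₁ w).filter (· ∈ M) := by simp [B, hw]
            rw [hB]
            have p1 : (P₁ w).Perm ((P₁ w).filter (fun u => decide (u ∈ M)) ++
                (P₁ w).filter (fun u => decide (u ∉ M))) := by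
              have := List.filter_append_perm (fun u => decide (u ∈ M)) (P₁ w)
              simpa using this.symm
            have p2 : (P₂ w).Perm ((P₂ w).filter (fun u => decide (u ∈ M)) ++
                (P₂ w).filter (fun u => decide (u ∉ M))) := by
              have := List.filter_append_perm (fun u => decide (u ∈ M)) (P₂ w)
              simpa using this.symm
            rw [← Multiset.coe_eq_coe] at p1 p2 ⊢
            rw [← Multiset.coe_add (P₁ w) (P₂ w), p1, p2]
            simp only [List.filter_append, List.reverse_append, ← Multiset.coe_add,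
              Multiset.coe_reverse]
            abel
          exact hperm.nodup_iff.2 (hPnd w)
        · intro u
          have := hPm w u
          simp only [List.mem_append] at this
          simp only [List.mem_append, List.mem_reverse, List.mem_filter, decide_eq_true_eq, B,
            if_neg hw]
          tauto
        · simp only [hw, or_false, List.map_append, phi, U, List.map_reverse, List.append_assoc])
  -- second copy
  obtain ⟨C₂, hC₂, hd₂⟩ := hd'.hom (inv' := Prod.swap) (Rel' := RelG G) (psi M U) f₂
    (psi_swap M U) (by
      rintro v hv _ rfl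
      obtain ⟨w, -, rfl⟩ := Multiset.mem_map.1 (hS' ▸ hv)
      rw [hPr w, List.flatMap_append, List.flatMap_cons, psi_edges, psi_edges]
      by_cases hw : w ∈ M
      · have e1 : psi M U (none, some w) = [] := by simp [psi, U, B, hw]
        have e2 : f₂ (some w) = {w} := by simp [f₂, hw]
        rw [e1, e2]
        refine Der.vertexWord ⟨P₁ w ++ P₂ w, hPnd w, hPm w, ?_⟩
        simp [hw]
      · have e2 : f₂ (some w) = 0 := by simp [f₂, hw]
        rw [e2]
        have hB : B w = (P₂ w).filter (· ∈ M) ++ (P₁ w).filter (· ∈ M) := by
          simp [B, hw]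
        set Q₁ : List (V × V) := ((P₁ w).filter (· ∈ M)).map fun u => (u, w) with hQ₁
        set Q₂ : List (V × V) := ((P₂ w).filter (· ∈ M)).map fun u => (u, w) with hQ₂
        have e3 : psi M U (none, some w) = invWord Prod.swap Q₁ ++ invWord Prod.swap Q₂ := by
          simp only [psi, U, hB, List.map_append, List.reverse_append, invWord, List.map_reverse,
            hQ₁, hQ₂]
        have e4 : ((P₁ w).filter fun u => decide (u ∈ M ∨ w ∈ M)).map (fun u => (u, w)) = Q₁ := by
          simp [hQ₁, hw]
        have e5 : ((P₂ w).filter fun u => decide (u ∈ M ∨ w ∈ M)).map (fun u => (u, w)) = Q₂ := by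
          simp [hQ₂, hw]
        rw [e3, e4, e5]
        have hii : invWord Prod.swap (invWord Prod.swap Q₂) = Q₂ := by
          simp [invWord, Function.comp_def]
        have k1 := Der.cancelWord (A := []) (B := invWord Prod.swap Q₂ ++ Q₂) Q₁
          (Der.refl (inv := Prod.swap) (Rel := RelG G)
            (u := Q₁ ++ invWord Prod.swap Q₁ ++ (invWord Prod.swap Q₂ ++ Q₂)))
        have k2 := Der.cancelWord (A := []) (B := []) (invWord Prod.swap Q₂)
          (k1.cast rfl (by rw [hii]; simp) rfl rfl)
        exact k2.cast (by simp) rfl rfl rfl)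
  obtain ⟨C₃, hC₃, hd₃⟩ := hd₂.mirror Prod.swap_swap (fun v X hX => hX.reverse)
  -- the two copies fit together
  have hfit : ((PX.map fun w => (w, none)).flatMap (psi M U)).map Prod.swap =
      (PX.map fun w => (w, none)).flatMap (phi M U) := by
    have : ∀ Q : List (Option V), (∀ x ∈ Q, x ≠ none) →
        ((Q.map fun w => (w, (none : Option V))).flatMap (psi M U)).map Prod.swap =
        (Q.map fun w => (w, (none : Option V))).flatMap (phi M U) := by
      intro Q hQ
      induction Q with
      | nil => rfl
      | cons x Q ih =>
        cases x with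
        | none => exact absurd rfl (hQ none (by simp))
        | some x =>
          rw [List.map_cons, List.flatMap_cons, List.flatMap_cons, List.map_append,
            ih fun y hy => hQ y (List.mem_cons_of_mem _ hy)]
          rfl
    refine this PX fun x hx hn => ?_
    subst hn
    exact ((hPX none).1 hx)
  refine ⟨C₁ + C₃, ?_, ?_⟩
  · have h4 := hd₁.trans (hd₃.cast hfit rfl rfl rfl)
    refine h4.cast rfl rfl ?_ rfl
    rw [hS', ← Multiset.bind_add, Multiset.bind_map]
    have : (fun a : V => f₁ (some a) + f₂ (some a)) = fun a => {a} := by
      funext a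
      by_cases ha : a ∈ M <;> simp [f₁, f₂, ha]
    rw [this, Multiset.bind_singleton]
    exact Multiset.map_id _
  · rw [Multiset.card_add, hC₃, hC₁, hC₂, ← Multiset.sum_map_add]
    simp only [hφlen, hψlen]

end Pool.ConeX
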