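import Pool.Agent.Lib.MP_9ec9ec_co.CrossLemma
import Pool.Agent.Lib.MP_9ec9ec_co.Redraw

/-!
The layering argument, in abstract form.
-/

namespace Pool.ConeX

open Finset

variable {V : Type*} [DecidableEq V]

/-- Exactly one of the two crossing edges meets `M`. -/
def sep (M : Finset V) (p : (V × V) × (V × V)) : Prop :=
  ¬ ((p.1.1 ∈ M ∨ p.1.2 ∈ M) ↔ (p.2.1 ∈ M ∨ p.2.2 ∈ M))

instance (M : Finset V) (p : (V × V) × (V × V)) : Decidable (sep M p) :=
  inferInstanceAs (Decidable (¬ _))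

/-- The number of crossings with an end in `U`. -/
def cmeet (E : Multiset ((V × V) × (V × V))) (U : Finset V) : ℕ :=
  E.countP fun p => ¬ Disjoint (ends p) U

theorem four_ne {a b c d : V} (h : ({a, b, c, d} : Finset V).card = 4) :
    a ≠ c ∧ a ≠ d ∧ b ≠ c ∧ b ≠ d := by
  have key : ∀ x y z : V, ({x, y, z} : Finset V).card < 4 := fun x y z =>
    lt_of_le_of_lt card_le_three (by norm_num)
  refine ⟨?_, ?_, ?_, ?_⟩ <;> rintro rfl
  · have := key b a d
    rw [show ({a, b, a, d} : Finset V) = {b, a, d} by ext; simp] at h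
    omega
  · have := key b c a
    rw [show ({a, b, c, a} : Finset V) = {b, c, a} by ext; simp] at h
    omega
  · have := key a b d
    rw [show ({a, b, b, d} : Finset V) = {a, b, d} by ext; simp] at h
    omega
  · have := key a b c
    rw [show ({a, b, c, b} : Finset V) = {a, b, c} by ext; simp; tauto] at h
    omega

theorem sep_of_single {M : Finset V} {a b c d u : V} (hp : ({a, b, c, d} : Finset V).card = 4)
    (hu : u = a ∨ u = b ∨ u = c ∨ u = d) (ha : a ∈ M ↔ a = u) (hb : b ∈ M ↔ b = u)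
    (hc : c ∈ M ↔ c = u) (hd : d ∈ M ↔ d = u) : sep M ((a, b), (c, d)) := by
  obtain ⟨n1, n2, n3, n4⟩ := four_ne hp
  unfold sep
  simp only
  rw [ha, hb, hc, hd]
  intro hiff
  rcases hu with h | h | h | h
  · rcases hiff.1 (Or.inl h.symm) with h' | h'
    · exact n1 (h.symm.trans h'.symm)
    · exact n2 (h.symm.trans h'.symm)
  · rcases hiff.1 (Or.inr h.symm) with h' | h'
    · exact n3 (h.symm.trans h'.symm)
    · exact n4 (h.symm.trans h'.symm)
  · rcases hiff.2 (Or.inl h.symm) with h' | h'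
    · exact n1 (h'.trans h)
    · exact n3 (h'.trans h)
  · rcases hiff.2 (Or.inr h.symm) with h' | h'
    · exact n2 (h'.trans h)
    · exact n4 (h'.trans h)

/-- The number of choices that separate one crossing. -/
theorem sep_count {U' U : Finset V} {p : (V × V) × (V × V)} (hp : (ends p).card = 4)
    (h1 : ¬ Disjoint (ends p) U) (h2 : Disjoint (ends p) U') :
    2 ^ (U \ U').card ≤ 16 * ((U \ U').powerset.filter fun Z => sep (U' ∪ Z) p).card := by
  obtain ⟨u, hu, huU⟩ := not_disjoint_iff.1 h1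
  have huU' : u ∉ U' := fun h => disjoint_left.1 h2 hu h
  have huT : u ∈ U \ U' := mem_sdiff.2 ⟨huU, huU'⟩
  have hsub : (((U \ U') \ ends p).powerset.image (insert u)) ⊆
      ((U \ U').powerset.filter fun Z => sep (U' ∪ Z) p) := by
    intro Z hZ
    obtain ⟨Z', hZ', rfl⟩ := mem_image.1 hZ
    rw [mem_powerset] at hZ'
    refine mem_filter.2 ⟨?_, ?_⟩
    · rw [mem_powerset, insert_subset_iff]
      exact ⟨huT, hZ'.trans sdiff_subset⟩
    · have hmem : ∀ v ∈ ends p, (v ∈ U' ∪ insert u Z' ↔ v = u) := by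
        intro v hv
        rw [mem_union, mem_insert]
        constructor
        · rintro (h | h | h)
          · exact absurd h (disjoint_left.1 h2 hv)
          · exact h
          · exact absurd hv (mem_sdiff.1 (hZ' h)).2
        · intro h; exact Or.inr (Or.inl h)
      obtain ⟨⟨a, b⟩, c, d⟩ := p
      exact sep_of_single hp (by simpa [ends] using hu) (hmem a (by simp [ends]))
        (hmem b (by simp [ends])) (hmem c (by simp [ends])) (hmem d (by simp [ends]))
  have hcard : (((U \ U') \ ends p).powerset.image (insert u)).card =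
      2 ^ ((U \ U') \ ends p).card := by
    rw [card_image_of_injOn, card_powerset]
    intro Z₁ h₁ Z₂ h₂ h
    simp only [coe_powerset, Set.mem_preimage, Set.mem_powerset_iff, coe_subset] at h₁ h₂
    have n1 : u ∉ Z₁ := fun h => (mem_sdiff.1 (h₁ h)).2 hu
    have n2 : u ∉ Z₂ := fun h => (mem_sdiff.1 (h₂ h)).2 hu
    have := congrArg (fun Z => Z.erase u) h
    simpa [erase_insert n1, erase_insert n2] using this
  have h3 := card_le_card hsub
  rw [hcard] at h3
  have h4 : (U \ U').card ≤ ((U \ U') \ ends p).card + 4 := by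
    have := card_sdiff_add_card (U \ U') (ends p)
    have h5 : (U \ U').card ≤ (U \ U' ∪ ends p).card := card_le_card subset_union_left
    omega
  calc 2 ^ (U \ U').card ≤ 2 ^ (((U \ U') \ ends p).card + 4) := Nat.pow_le_pow_right (by norm_num) h4
    _ = 16 * 2 ^ ((U \ U') \ ends p).card := by ring
    _ ≤ _ := by omega

theorem sep_sum {U' U : Finset V} (E : Multiset ((V × V) × (V × V)))
    (hE : ∀ p ∈ E, (ends p).card = 4) (hU : U' ⊆ U) :
    2 ^ (U \ U').card * cmeet E U ≤ 2 ^ (U \ U').card * cmeet E U' +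
      16 * ∑ Z ∈ (U \ U').powerset, E.countP (sep (U' ∪ Z)) := by
  induction E using Multiset.induction_on with
  | empty => simp [cmeet]
  | cons p E ih =>
    have ih' := ih fun q hq => hE q (Multiset.mem_cons_of_mem hq)
    have hp := hE p (Multiset.mem_cons_self _ _)
    simp only [cmeet, Multiset.countP_cons, sum_add_distrib] at ih' ⊢
    have h1 : ∑ Z ∈ (U \ U').powerset, (if sep (U' ∪ Z) p then 1 else 0) =
        ((U \ U').powerset.filter fun Z => sep (U' ∪ Z) p).card := by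
      rw [card_filter]
    rw [h1]
    by_cases hU1 : Disjoint (ends p) U
    · have hU2 : Disjoint (ends p) U' := hU1.mono_right hU
      simp only [hU1, hU2, not_true_eq_false, if_false, add_zero]
      nlinarith
    · by_cases hU2 : Disjoint (ends p) U'
      · have := sep_count hp hU1 hU2
        simp only [hU1, hU2, not_true_eq_false, not_false_eq_true, if_false, if_true, add_zero]
        nlinarith
      · simp only [hU1, hU2, not_false_eq_true, if_true]
        nlinarith

omit [DecidableEq V] in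
theorem nbr_mono {G : SimpleGraph V} [DecidableRel G.Adj] {M U : Finset V} (h : M ⊆ U) (w : V) :
    nbr G M w ≤ nbr G U w := card_le_card (filter_subset_filter _ h)

omit [DecidableEq V] in
theorem nbr_le_card {G : SimpleGraph V} [DecidableRel G.Adj] (U : Finset V) (w : V) :
    nbr G U w ≤ U.card := card_filter_le _ _

omit [DecidableEq V] in
theorem sum_nbr (G : SimpleGraph V) [DecidableRel G.Adj] (U : Finset V) :
    ∑ u ∈ U, nbr G U u = darts G U := by
  unfold nbr darts
  simp only [card_filter, sum_product]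

section Abstract

/-- The data of the layering argument. -/
structure LayerData (G : SimpleGraph V) [DecidableRel G.Adj] (E : Multiset ((V × V) × (V × V)))
    (R : Multiset V) (k t q : ℕ) : Prop where
  ends4 : ∀ p ∈ E, (ends p).card = 4
  total : E.card + R.card = k + t
  redraw : ∀ M : Finset V, k + E.countP (sep M) ≤
    E.card + (R.map fun w => if w ∈ M then 0 else nbr G M w).sum
  dens : ∀ U : Finset V, darts G U ≤ 8 * U.card ∨ darts G U ^ 3 ≤ 512 * k * U.card ^ 2
  hq : k ≤ q ^ 4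
  hq1 : 1 ≤ q

variable {G : SimpleGraph V} [DecidableRel G.Adj] {E : Multiset ((V × V) × (V × V))}
  {R : Multiset V} {k t q : ℕ}

theorem LayerData.sep_le (h : LayerData G E R k t q) {M : Finset V} {D : ℝ} (hD : 1 ≤ D)
    (hM : ∀ w ∈ R, w ∉ M → (nbr G M w : ℝ) ≤ D) : (E.countP (sep M) : ℝ) ≤ t * D := by
  have h0 := h.redraw ∅
  have e0 : (R.map fun w => if w ∈ (∅ : Finset V) then 0 else nbr G ∅ w).sum = 0 := by
    rw [Multiset.sum_eq_zero_iff]
    intro x hx
    obtain ⟨w, -, rfl⟩ := Multiset.mem_map.1 hx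
    simp [nbr]
  rw [e0, add_zero] at h0
  have h1 : k ≤ E.card := le_trans (Nat.le_add_right _ _) h0
  have h2 := h.redraw M
  have h3 : ((R.map fun w => if w ∈ M then 0 else nbr G M w).sum : ℝ) ≤ R.card * D := by
    have : ∀ R' : Multiset V, (∀ w ∈ R', w ∉ M → (nbr G M w : ℝ) ≤ D) →
        (((R'.map fun w => if w ∈ M then 0 else nbr G M w).sum : ℕ) : ℝ) ≤ R'.card * D := by
      intro R'
      induction R' using Multiset.induction_on with
      | empty => simp
      | cons w R' ih =>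
        intro hR'
        have ih' := ih fun v hv => hR' v (Multiset.mem_cons_of_mem hv)
        rw [Multiset.map_cons, Multiset.sum_cons, Multiset.card_cons, Nat.cast_add, Nat.cast_add,
          Nat.cast_one]
        have : (((if w ∈ M then 0 else nbr G M w : ℕ)) : ℝ) ≤ D := by
          split_ifs with hw
          · push_cast; linarith
          · exact hR' w (Multiset.mem_cons_self _ _) hw
        linarith
    exact_mod_cast this R hM
  have h4 : (k : ℝ) + E.countP (sep M) ≤ E.card + R.card * D := by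
    have : ((k + E.countP (sep M) : ℕ) : ℝ) ≤
        ((E.card + (R.map fun w => if w ∈ M then 0 else nbr G M w).sum : ℕ) : ℝ) := by
      exact_mod_cast h2
    push_cast at this
    push_cast at h3
    linarith
  have h5 : (E.card : ℝ) + R.card = k + t := by exact_mod_cast h.total
  have h6 : (k : ℝ) ≤ E.card := by exact_mod_cast h1
  have h7 : 0 ≤ ((E.card : ℝ) - k) * (D - 1) := mul_nonneg (by linarith) (by linarith)
  nlinarith

theorem LayerData.layer (h : LayerData G E R k t q) {U' U : Finset V} {D : ℝ} (hD : 1 ≤ D)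
    (hU : U' ⊆ U) (hM : ∀ w ∈ R, w ∉ U' → (nbr G U w : ℝ) ≤ D) :
    (cmeet E U : ℝ) ≤ cmeet E U' + 16 * (t * D) := by
  have h1 := sep_sum E h.ends4 hU
  have h2 : ∀ Z ∈ (U \ U').powerset, (E.countP (sep (U' ∪ Z)) : ℝ) ≤ t * D := by
    intro Z hZ
    rw [mem_powerset] at hZ
    have hsub : U' ∪ Z ⊆ U := union_subset hU (hZ.trans sdiff_subset)
    refine h.sep_le hD fun w hw hwM => ?_
    refine le_trans ?_ (hM w hw fun h' => hwM (mem_union_left _ h'))
    exact_mod_cast nbr_mono hsub w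
  have h3 : (∑ Z ∈ (U \ U').powerset, (E.countP (sep (U' ∪ Z)) : ℝ)) ≤
      2 ^ (U \ U').card * (t * D) := by
    refine (sum_le_sum h2).trans ?_
    rw [sum_const, card_powerset, nsmul_eq_mul]
    push_cast
    exact le_rfl
  have h4 : (2 : ℝ) ^ (U \ U').card * cmeet E U ≤ 2 ^ (U \ U').card * cmeet E U' +
      16 * ∑ Z ∈ (U \ U').powerset, (E.countP (sep (U' ∪ Z)) : ℝ) := by
    exact_mod_cast h1
  have h5 : (0 : ℝ) < 2 ^ (U \ U').card := by positivity
  have h6 : (2 : ℝ) ^ (U \ U').card * cmeet E U ≤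
      2 ^ (U \ U').card * (cmeet E U' + 16 * (t * D)) := by
    calc (2 : ℝ) ^ (U \ U').card * cmeet E U ≤ _ := h4
      _ ≤ 2 ^ (U \ U').card * cmeet E U' + 16 * (2 ^ (U \ U').card * (t * D)) := by linarith
      _ = _ := by ring
  exact le_of_mul_le_mul_left h6 h5

theorem LayerData.halve (h : LayerData G E R k t q) {U : Finset V} {j : ℕ}
    (h1 : (8 : ℝ) ^ j * q < U.card) (h2 : (U.card : ℝ) ≤ 9 * q ^ 4)
    (hcl : ∀ w ∈ R, w ∉ U → (nbr G U w : ℝ) ≤ 34 * q / 2 ^ j) :
    ∃ U' : Finset V, (U'.card : ℝ) ≤ U.card / 2 ∧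
      (∀ w ∈ R, w ∉ U' → (nbr G U' w : ℝ) ≤ 34 * q / 2 ^ j) ∧
      (cmeet E U : ℝ) ≤ cmeet E U' + 16 * (t * (34 * q / 2 ^ j)) := by
  have hq0 : (1 : ℝ) ≤ q := by exact_mod_cast h.hq1
  have hk : (k : ℝ) ≤ q ^ 4 := by exact_mod_cast h.hq
  have h2j : (0 : ℝ) < 2 ^ j := by positivity
  have h88 : ((2 : ℝ) ^ j) ^ 3 = 8 ^ j := by
    rw [← pow_mul, mul_comm, pow_mul]; norm_num
  -- the threshold is at least 16
  have h16 : (16 : ℝ) ≤ 34 * q / 2 ^ j := by
    rw [le_div_iff₀ h2j]
    have h3 : (8 : ℝ) ^ j * q < 9 * q ^ 4 := lt_of_lt_of_le h1 h2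
    have h4 : (8 : ℝ) ^ j < 9 * q ^ 3 := by
      have : (8 : ℝ) ^ j * q < (9 * q ^ 3) * q := by calc
        (8 : ℝ) ^ j * q < 9 * q ^ 4 := h3
        _ = _ := by ring
      exact lt_of_mul_lt_mul_right this (by linarith)
    have h5 : (16 * (2 : ℝ) ^ j) ^ 3 ≤ (34 * q) ^ 3 := by
      have e1 : (16 * (2 : ℝ) ^ j) ^ 3 = 4096 * 8 ^ j := by rw [mul_pow, h88]; norm_num
      have e2 : (34 * (q : ℝ)) ^ 3 = 39304 * q ^ 3 := by rw [mul_pow]; norm_num
      rw [e1, e2]
      have : (0 : ℝ) < q ^ 3 := by positivity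
      linarith
    exact le_of_pow_le_pow_left₀ (by norm_num) (by positivity) h5
  obtain ⟨θ, hθ⟩ : ∃ θ : ℝ, θ = 34 * q / 2 ^ j := ⟨_, rfl⟩
  rw [← hθ] at h16 hcl ⊢
  refine ⟨U.filter fun u => θ < nbr G U u, ?_, ?_, ?_⟩
  · obtain ⟨m, hm⟩ : ∃ m : ℝ, m = ((U.filter fun u => θ < nbr G U u).card : ℝ) := ⟨_, rfl⟩
    have h3 : m * θ ≤ darts G U := by
      rw [← sum_nbr, hm]
      push_cast
      calc ((U.filter fun u => θ < nbr G U u).card : ℝ) * θ
          = ∑ u ∈ U.filter fun u => θ < nbr G U u, θ := by rw [sum_const, nsmul_eq_mul]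
        _ ≤ ∑ u ∈ U.filter fun u => θ < nbr G U u, (nbr G U u : ℝ) :=
            sum_le_sum fun u hu => (mem_filter.1 hu).2.le
        _ ≤ ∑ u ∈ U, (nbr G U u : ℝ) :=
            sum_le_sum_of_subset_of_nonneg (filter_subset _ _) fun _ _ _ => by positivity
    rw [← hm]
    have hm0 : 0 ≤ m := by rw [hm]; positivity
    rcases h.dens U with hd | hd
    · have hd' : (darts G U : ℝ) ≤ 8 * U.card := by exact_mod_cast hd
      nlinarith
    · have hd' : (darts G U : ℝ) ^ 3 ≤ 512 * k * (U.card : ℝ) ^ 2 := by exact_mod_cast hd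
      obtain ⟨d, hdd⟩ : ∃ d : ℝ, d = (darts G U : ℝ) := ⟨_, rfl⟩
      obtain ⟨n, hn⟩ : ∃ n : ℝ, n = (U.card : ℝ) := ⟨_, rfl⟩
      obtain ⟨K, hK⟩ : ∃ K : ℝ, K = (k : ℝ) := ⟨_, rfl⟩
      obtain ⟨Q, hQ⟩ : ∃ Q : ℝ, Q = (q : ℝ) := ⟨_, rfl⟩
      rw [← hdd, ← hn, ← hK] at hd'
      rw [← hdd] at h3
      rw [← hn]
      rw [← hn, ← hQ] at h1
      rw [← hK, ← hQ] at hk
      rw [← hQ] at hq0 hθ
      have hd0 : 0 ≤ d := by rw [hdd]; positivity
      have hn0 : 0 ≤ n := by rw [hn]; positivity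
      have h4 : (d * 2 ^ j) ^ 3 ≤ (8 * Q * n) ^ 3 := by
        have s1 : (d * 2 ^ j) ^ 3 = d ^ 3 * 8 ^ j := by rw [mul_pow, h88]
        have s2 : d ^ 3 * 8 ^ j ≤ (512 * K * n ^ 2) * 8 ^ j :=
          mul_le_mul_of_nonneg_right hd' (by positivity)
        have s3 : (512 * K * n ^ 2) * 8 ^ j ≤ (512 * Q ^ 4 * n ^ 2) * 8 ^ j := by gcongr
        have s4 : (512 * Q ^ 4 * n ^ 2) * 8 ^ j = (512 * Q ^ 3 * n ^ 2) * (8 ^ j * Q) := by ring
        have s5 : (512 * Q ^ 3 * n ^ 2) * (8 ^ j * Q) ≤ (512 * Q ^ 3 * n ^ 2) * n :=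
          mul_le_mul_of_nonneg_left h1.le (by positivity)
        have s6 : (512 * Q ^ 3 * n ^ 2) * n = (8 * Q * n) ^ 3 := by ring
        linarith
      have h5 : d * 2 ^ j ≤ 8 * Q * n :=
        le_of_pow_le_pow_left₀ (by norm_num) (by positivity) h4
      have h6 : m * (34 * Q) ≤ 8 * Q * n := by
        have s1 : m * (34 * Q) = m * θ * 2 ^ j := by rw [hθ]; field_simp
        have s2 : m * θ * 2 ^ j ≤ d * 2 ^ j := mul_le_mul_of_nonneg_right h3 h2j.le
        linarith
      have h7 : m * 34 ≤ 8 * n := by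
        have : Q * (m * 34) ≤ Q * (8 * n) := by linarith
        exact le_of_mul_le_mul_left this (by linarith)
      linarith
  · intro w hw hwU'
    have hle : (nbr G U w : ℝ) ≤ θ := by
      by_cases hwU : w ∈ U
      · by_contra hlt
        push Not at hlt
        exact hwU' (mem_filter.2 ⟨hwU, hlt⟩)
      · exact hcl w hw hwU
    refine le_trans ?_ hle
    exact_mod_cast nbr_mono (filter_subset _ _) w
  · refine h.layer (by linarith) (filter_subset _ _) fun w hw hwU' => ?_
    by_cases hwU : w ∈ U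
    · by_contra hlt
      push Not at hlt
      exact hwU' (mem_filter.2 ⟨hwU, hlt⟩)
    · exact hcl w hw hwU

theorem LayerData.halve_iter (h : LayerData G E R k t q) (j i : ℕ) :
    ∀ U : Finset V, (U.card : ℝ) ≤ 2 ^ i * (8 ^ j * q) → (U.card : ℝ) ≤ 9 * q ^ 4 →
      (∀ w ∈ R, w ∉ U → (nbr G U w : ℝ) ≤ 34 * q / 2 ^ j) →
      ∃ U' : Finset V, (U'.card : ℝ) ≤ 8 ^ j * q ∧ (U'.card : ℝ) ≤ 9 * q ^ 4 ∧
        (∀ w ∈ R, w ∉ U' → (nbr G U' w : ℝ) ≤ 34 * q / 2 ^ j) ∧
        (cmeet E U : ℝ) ≤ cmeet E U' + i * (16 * (t * (34 * q / 2 ^ j))) := by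
  induction i with
  | zero =>
    intro U h1 h2 h3
    exact ⟨U, by simpa using h1, h2, h3, by simp⟩
  | succ i ih =>
    intro U h1 h2 h3
    by_cases hU : (U.card : ℝ) ≤ 8 ^ j * q
    · refine ⟨U, hU, h2, h3, ?_⟩
      have : (0 : ℝ) ≤ ((i + 1 : ℕ) : ℝ) * (16 * (t * (34 * q / 2 ^ j))) := by positivity
      linarith
    · push Not at hU
      obtain ⟨U', a1, a2, a3⟩ := h.halve hU h2 h3
      have b1 : (U'.card : ℝ) ≤ 2 ^ i * (8 ^ j * q) := by
        rw [pow_succ] at h1
        linarith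
      have b2 : (U'.card : ℝ) ≤ 9 * q ^ 4 := by
        have : (0 : ℝ) ≤ U.card := by positivity
        linarith
      obtain ⟨U'', c1, c2, c3, c4⟩ := ih U' b1 b2 a2
      refine ⟨U'', c1, c2, c3, ?_⟩
      push_cast
      linarith

theorem LayerData.main (h : LayerData G E R k t q) (j : ℕ) :
    ∀ U : Finset V, (U.card : ℝ) ≤ 8 ^ j * q → (U.card : ℝ) ≤ 9 * q ^ 4 →
      (∀ w ∈ R, w ∉ U → (nbr G U w : ℝ) ≤ 68 * q / 2 ^ j) →
      (cmeet E U : ℝ) ≤ 16 * (t * q) + 3264 * (t * q) * (1 - 1 / 2 ^ j) := by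
  have hq0 : (1 : ℝ) ≤ q := by exact_mod_cast h.hq1
  induction j with
  | zero =>
    intro U h1 _ _
    have h2 := h.layer (U' := ∅) (U := U) hq0 (empty_subset _) (fun w _ _ => by
      refine le_trans ?_ (by simpa using h1 : (U.card : ℝ) ≤ q)
      exact_mod_cast nbr_le_card U w)
    have h3 : cmeet E (∅ : Finset V) = 0 := by simp [cmeet]
    rw [h3] at h2
    simpa using h2
  | succ j ih =>
    intro U h1 h2 h3
    have e1 : (68 : ℝ) * q / 2 ^ (j + 1) = 34 * q / 2 ^ j := by
      rw [pow_succ]; field_simp; norm_num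
    rw [e1] at h3
    obtain ⟨U', a1, a2, a3, a4⟩ := h.halve_iter j 3 U (by
      calc (U.card : ℝ) ≤ 8 ^ (j + 1) * q := h1
        _ = _ := by rw [pow_succ]; ring) h2 h3
    have b := ih U' a1 a2 fun w hw hwU => (a3 w hw hwU).trans (by
      gcongr; norm_num)
    have e2 : (3264 : ℝ) * (t * q) * (1 - 1 / 2 ^ (j + 1)) =
        3264 * (t * q) * (1 - 1 / 2 ^ j) + 3 * (16 * (t * (34 * q / 2 ^ j))) := by
      rw [pow_succ]; field_simp; ring
    rw [e2]
    push_cast at a4
    linarith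

theorem LayerData.final (h : LayerData G E R k t q) (ht : t ≤ k) : k ≤ 3280 * (t * q) := by
  classical
  -- all relevant vertices
  let U : Finset V := E.toFinset.biUnion ends ∪ R.toFinset
  have hU : U.card ≤ 9 * q ^ 4 := by
    have h1 : (E.toFinset.biUnion ends).card ≤ 4 * E.card := by
      refine card_biUnion_le.trans ?_
      calc ∑ p ∈ E.toFinset, (ends p).card ≤ ∑ _p ∈ E.toFinset, 4 :=
            sum_le_sum fun p hp => (h.ends4 p (Multiset.mem_toFinset.1 hp)).le
        _ = 4 * E.toFinset.card := by rw [sum_const, smul_eq_mul, mul_comm]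
        _ ≤ 4 * E.card := by
          have := Multiset.toFinset_card_le E
          omega
    have h2 : R.toFinset.card ≤ R.card := Multiset.toFinset_card_le R
    have h3 := card_union_le (E.toFinset.biUnion ends) R.toFinset
    have h4 := h.total
    have h5 := h.hq
    have h6 : U.card ≤ (E.toFinset.biUnion ends).card + R.toFinset.card := h3
    omega
  obtain ⟨j, hj⟩ : ∃ j : ℕ, U.card ≤ 8 ^ j * q := by
    refine ⟨U.card, ?_⟩
    have h1 : U.card < 8 ^ U.card := Nat.lt_pow_self (by norm_num)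
    have := h.hq1
    nlinarith
  have h1 := h.main j U (by exact_mod_cast hj) (by exact_mod_cast hU) (fun w hw hwU => by
    exact absurd (mem_union_right _ (Multiset.mem_toFinset.2 hw)) hwU)
  have h2 : cmeet E U = E.card := by
    rw [cmeet, Multiset.countP_eq_card]
    intro p hp hdis
    have hsub : ends p ⊆ U := fun x hx => mem_union_left _
      (mem_biUnion.2 ⟨p, Multiset.mem_toFinset.2 hp, hx⟩)
    have hne : (ends p).Nonempty := by
      rw [← card_pos, h.ends4 p hp]; norm_num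
    obtain ⟨x, hx⟩ := hne
    exact disjoint_left.1 hdis hx (hsub hx)
  have h3 : k ≤ E.card := by
    have h0 := h.redraw ∅
    have e0 : (R.map fun w => if w ∈ (∅ : Finset V) then 0 else nbr G ∅ w).sum = 0 := by
      rw [Multiset.sum_eq_zero_iff]
      intro x hx
      obtain ⟨w, -, rfl⟩ := Multiset.mem_map.1 hx
      simp [nbr]
    omega
  rw [h2] at h1
  have h4 : (k : ℝ) ≤ E.card := by exact_mod_cast h3
  have h5 : (k : ℝ) ≤ 3280 * (t * q) := by
    have h6 : (0 : ℝ) ≤ 3264 * (t * q) * (1 / 2 ^ j) := by positivity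
    nlinarith
  exact_mod_cast h5

end Abstract

end Pool.ConeX
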