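import Pool.Agent.Lib.MP_9ec9ec_co.Layer

/-!
The crossing number of a cone exceeds that of the base by at least a constant times its `3/4`-th power.
-/

namespace Pool.ConeX

open Finset

variable {V : Type*}

/-- Crossings between two edges of the base. -/
def ee : (Option V × Option V) × (Option V × Option V) → Option ((V × V) × (V × V))
  | ((some a, some b), (some c, some d)) => some ((a, b), (c, d))
  | _ => none

/-- Crossings between an apex edge and an edge of the base. -/
def re : (Option V × Option V) × (Option V × Option V) → Option V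
  | ((some w, none), (some _, some _)) => some w
  | ((none, some w), (some _, some _)) => some w
  | ((some _, some _), (some w, none)) => some w
  | ((some _, some _), (none, some w)) => some w
  | _ => none

variable [DecidableEq V] {G : SimpleGraph V} [DecidableRel G.Adj]

/-- The cost of a crossing in the redrawing. -/
def cost (G : SimpleGraph V) [DecidableRel G.Adj] (M : Finset V)
    (p : (Option V × Option V) × (Option V × Option V)) : ℕ :=
  lin G M p.1 * lin G M p.2 + lout G M p.1 * lout G M p.2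

/-- Crossings in a good drawing of the cone are of one of the two types. -/
theorem classify {p : (Option V × Option V) × (Option V × Option V)}
    (h1 : (cone G).Adj p.1.1 p.1.2) (h2 : (cone G).Adj p.2.1 p.2.2) (h4 : (ends p).card = 4)
    (M : Finset V) :
    (∃ q : (V × V) × (V × V), ee p = some q ∧ re p = none ∧ (ends q).card = 4 ∧
      cost G M p + (if sep M q then 1 else 0) = 1) ∨
    (∃ w : V, ee p = none ∧ re p = some w ∧ cost G M p = if w ∈ M then 0 else nbr G M w) := by
  obtain ⟨⟨a, b⟩, c, d⟩ := p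
  obtain ⟨n1, n2, n3, n4⟩ := four_ne h4
  rcases a with _ | a <;> rcases b with _ | b <;> rcases c with _ | c <;> rcases d with _ | d
  all_goals first
    | exact absurd h1 (fun h => h)
    | exact absurd h2 (fun h => h)
    | exact absurd rfl n1
    | exact absurd rfl n2
    | exact absurd rfl n3
    | exact absurd rfl n4
    | skip
  · right
    refine ⟨b, rfl, rfl, ?_⟩
    simp only [cost, lin, lout]
    by_cases h : c ∈ M ∨ d ∈ M <;> simp [h]
  · right
    refine ⟨a, rfl, rfl, ?_⟩
    simp only [cost, lin, lout]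
    by_cases h : c ∈ M ∨ d ∈ M <;> simp [h]
  · right
    refine ⟨d, rfl, rfl, ?_⟩
    simp only [cost, lin, lout]
    by_cases h : a ∈ M ∨ b ∈ M <;> simp [h]
  · right
    refine ⟨c, rfl, rfl, ?_⟩
    simp only [cost, lin, lout]
    by_cases h : a ∈ M ∨ b ∈ M <;> simp [h]
  · left
    refine ⟨((a, b), (c, d)), rfl, rfl, ?_, ?_⟩
    · have e : ends ((some a, some b), (some c, some d)) =
          (ends ((a, b), (c, d))).map Function.Embedding.some := by
        simp [ends, Finset.map_insert]
      rw [e, card_map] at h4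
      exact h4
    · simp only [cost, lin, lout, sep]
      by_cases h : a ∈ M ∨ b ∈ M <;> by_cases h' : c ∈ M ∨ d ∈ M <;> simp [h, h']

theorem cost_sum (M : Finset V) (C : Multiset ((Option V × Option V) × (Option V × Option V)))
    (hC : ∀ p ∈ C, (cone G).Adj p.1.1 p.1.2 ∧ (cone G).Adj p.2.1 p.2.2 ∧ (ends p).card = 4) :
    (C.map (cost G M)).sum + (C.filterMap ee).countP (sep M) =
      (C.filterMap ee).card + ((C.filterMap re).map fun w => if w ∈ M then 0 else nbr G M w).sum ∧
    (C.filterMap ee).card + (C.filterMap re).card = C.card ∧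
    ∀ q ∈ C.filterMap ee, (ends q).card = 4 := by
  induction C using Multiset.induction_on with
  | empty => simp
  | cons p C ih =>
    obtain ⟨i1, i2, i3⟩ := ih fun q hq => hC q (Multiset.mem_cons_of_mem hq)
    obtain ⟨h1, h2, h4⟩ := hC p (Multiset.mem_cons_self _ _)
    rcases classify h1 h2 h4 M with ⟨q, e1, e2, e3, e4⟩ | ⟨w, e1, e2, e3⟩
    · rw [Multiset.filterMap_cons_some _ _ _ e1, Multiset.filterMap_cons_none _ _ e2]
      refine ⟨?_, ?_, ?_⟩
      · rw [Multiset.map_cons, Multiset.sum_cons, Multiset.countP_cons, Multiset.card_cons]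
        omega
      · rw [Multiset.card_cons, Multiset.card_cons]
        omega
      · intro r hr
        rcases Multiset.mem_cons.1 hr with rfl | hr
        · exact e3
        · exact i3 r hr
    · rw [Multiset.filterMap_cons_none _ _ e1, Multiset.filterMap_cons_some _ _ _ e2]
      refine ⟨?_, ?_, i3⟩
      · rw [Multiset.map_cons, Multiset.sum_cons, Multiset.map_cons, Multiset.sum_cons, e3]
        omega
      · rw [Multiset.card_cons, Multiset.card_cons]
        omega

variable [Fintype V]

theorem layerData (G : SimpleGraph V) [DecidableRel G.Adj] {q : ℕ} (hq : crossingNumber G ≤ q ^ 4)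
    (hq1 : 1 ≤ q) :
    crossingNumber G ≤ crossingNumber (cone G) ∧
    ∃ (E : Multiset ((V × V) × (V × V))) (R : Multiset V),
      LayerData G E R (crossingNumber G) (crossingNumber (cone G) - crossingNumber G) q := by
  obtain ⟨C, hopt, hC⟩ := exists_opt (cone G)
  have hgood := hopt.good
  have hred : ∀ M : Finset V, crossingNumber G + (C.filterMap ee).countP (sep M) ≤
      (C.filterMap ee).card +
        ((C.filterMap re).map fun w => if w ∈ M then 0 else nbr G M w).sum := by
    intro M
    obtain ⟨C', h', hc⟩ := redraw hopt.der M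
    have h1 := cr_le h'
    rw [hc] at h1
    have h2 := (cost_sum (G := G) M C hgood).1
    have h3 : crossingNumber G ≤ (C.map (cost G M)).sum := h1
    omega
  obtain ⟨-, htot, hends⟩ := cost_sum (G := G) ∅ C hgood
  have hle : crossingNumber G ≤ crossingNumber (cone G) := by
    have h0 := hred ∅
    have e0 : ((C.filterMap re).map fun w => if w ∈ (∅ : Finset V) then 0 else nbr G ∅ w).sum = 0 := by
      rw [Multiset.sum_eq_zero_iff]
      intro x hx
      obtain ⟨w, -, rfl⟩ := Multiset.mem_map.1 hx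
      simp [nbr]
    omega
  refine ⟨hle, C.filterMap ee, C.filterMap re, ⟨hends, ?_, hred, ?_, hq, hq1⟩⟩
  · omega
  · intro U
    obtain ⟨CG, hoptG, hCG⟩ := exists_opt G
    rw [← hCG]
    exact density hoptG.der hoptG.good U

/-- **Main theorem.** -/
theorem cone_crossing (G : SimpleGraph V) :
    (crossingNumber G : ℝ) + (1 / 6560) * (crossingNumber G : ℝ) ^ (3 / 4 : ℝ) ≤
      crossingNumber (cone G) := by
  classical
  obtain ⟨k, hk⟩ : ∃ k, k = crossingNumber G := ⟨_, rfl⟩
  obtain ⟨c, hc⟩ : ∃ c, c = crossingNumber (cone G) := ⟨_, rfl⟩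
  obtain ⟨q, hqdef⟩ : ∃ q : ℕ, q = max 1 ⌈(k : ℝ) ^ (1 / 4 : ℝ)⌉₊ := ⟨_, rfl⟩
  have hq1 : 1 ≤ q := by rw [hqdef]; exact le_max_left _ _
  have hqk : (k : ℝ) ^ (1 / 4 : ℝ) ≤ q := by
    refine (Nat.le_ceil _).trans ?_
    rw [hqdef]
    exact_mod_cast le_max_right _ _
  have hkq : k ≤ q ^ 4 := by
    have h1 : ((k : ℝ) ^ (1 / 4 : ℝ)) ^ 4 ≤ (q : ℝ) ^ 4 := by gcongr
    have h2 : ((k : ℝ) ^ (1 / 4 : ℝ)) ^ 4 = k := by
      rw [← Real.rpow_natCast, ← Real.rpow_mul (by positivity)]
      norm_num
    rw [h2] at h1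
    exact_mod_cast h1
  obtain ⟨hle, E, R, hL⟩ := layerData G (q := q) (by rw [← hk]; exact hkq) hq1
  rw [← hk, ← hc] at hle hL ⊢
  rcases Nat.eq_zero_or_pos k with hk0 | hk0
  · rw [hk0]
    have : (0 : ℝ) ≤ c := by positivity
    simpa using this
  have hk1 : (1 : ℝ) ≤ k := by exact_mod_cast hk0
  have hct : (c : ℝ) = k + ((c - k : ℕ) : ℝ) := by
    have : c = k + (c - k) := by omega
    exact_mod_cast this
  rw [hct]
  obtain ⟨t, ht⟩ : ∃ t, t = c - k := ⟨_, rfl⟩
  rw [← ht] at hL ⊢
  have hrk : (k : ℝ) ^ (3 / 4 : ℝ) ≤ k := by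
    calc (k : ℝ) ^ (3 / 4 : ℝ) ≤ (k : ℝ) ^ (1 : ℝ) :=
          Real.rpow_le_rpow_of_exponent_le hk1 (by norm_num)
      _ = k := Real.rpow_one _
  have hr0 : 0 ≤ (k : ℝ) ^ (3 / 4 : ℝ) := by positivity
  rcases le_or_gt t k with htk | htk
  · have hfin := hL.final htk
    have hfin' : (k : ℝ) ≤ 3280 * (t * q) := by exact_mod_cast hfin
    have hq2 : (q : ℝ) ≤ 2 * (k : ℝ) ^ (1 / 4 : ℝ) := by
      have h1 : (1 : ℝ) ≤ (k : ℝ) ^ (1 / 4 : ℝ) := Real.one_le_rpow hk1 (by norm_num)
      have h2 : ((⌈(k : ℝ) ^ (1 / 4 : ℝ)⌉₊ : ℕ) : ℝ) < (k : ℝ) ^ (1 / 4 : ℝ) + 1 :=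
        Nat.ceil_lt_add_one (by positivity)
      rw [hqdef, Nat.cast_max]
      refine max_le (by push_cast; linarith) (by linarith)
    have hsplit : (k : ℝ) = (k : ℝ) ^ (3 / 4 : ℝ) * (k : ℝ) ^ (1 / 4 : ℝ) := by
      rw [← Real.rpow_add (by linarith)]
      norm_num
    have hr14 : 0 < (k : ℝ) ^ (1 / 4 : ℝ) := by positivity
    have h3 : (k : ℝ) ^ (3 / 4 : ℝ) * (k : ℝ) ^ (1 / 4 : ℝ) ≤
        (6560 * t) * (k : ℝ) ^ (1 / 4 : ℝ) := by
      rw [← hsplit]
      calc (k : ℝ) ≤ 3280 * (t * q) := hfin'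
        _ ≤ 3280 * (t * (2 * (k : ℝ) ^ (1 / 4 : ℝ))) := by gcongr
        _ = _ := by ring
    have h4 := le_of_mul_le_mul_right h3 hr14
    linarith
  · have h5 : (k : ℝ) ≤ t := by exact_mod_cast htk.le
    linarith

end Pool.ConeX
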