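import Pool.Agent.Lib.MP_9ec9ec_co.PageCount

/-!
The two-page drawings with pages given by `(a + c + h) mod 2 m < m`: on average over `h` they have at most
`m ^ 4 / 4` crossings.
-/

namespace Pool.ConeX

open Finset

/-- The page function. -/
def pageF (m h : ℕ) (a c : ℕ) : Bool := decide ((a + c + h) % (2 * m) < m)

/-- `|2 m - 2 δ|`. -/
def gapF (m δ : ℕ) : ℕ := if δ ≤ m then 2 * (m - δ) else 2 * (δ - m)

theorem same_count (m s δ : ℕ) (hδ : δ ≤ 2 * m) :
    ∑ h ∈ range (2 * m), (if decide ((s + h) % (2 * m) < m) = decide ((s + δ + h) % (2 * m) < m)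
      then 1 else 0) ≤ gapF m δ := by
  let q : ℕ → Prop := fun x => decide (x % (2 * m) < m) = decide ((x + δ) % (2 * m) < m)
  have hq : Function.Periodic q (2 * m) := by
    intro x
    simp only [q]
    rw [Nat.add_mod_right, show x + 2 * m + δ = x + δ + 2 * m by ring, Nat.add_mod_right]
  have h1 : ∑ h ∈ range (2 * m), (if decide ((s + h) % (2 * m) < m) =
      decide ((s + δ + h) % (2 * m) < m) then 1 else 0) =
      ((Ico s (s + 2 * m)).filter q).card := by
    rw [Finset.card_filter, Finset.sum_Ico_eq_sum_range, Nat.add_sub_cancel_left]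
    refine Finset.sum_congr rfl fun h _ => ?_
    rw [show s + δ + h = s + h + δ by ring]
  rw [h1, Nat.filter_Ico_card_eq_of_periodic s (2 * m) q hq, Nat.count_eq_card_filter_range]
  unfold gapF
  split_ifs with hm
  · have hsub : (range (2 * m)).filter q ⊆ Ico 0 (m - δ) ∪ Ico m (2 * m - δ) := by
      intro r hr
      rw [Finset.mem_filter, Finset.mem_range] at hr
      obtain ⟨hr1, hr2⟩ := hr
      simp only [q, decide_eq_decide] at hr2
      rw [Nat.mod_eq_of_lt hr1] at hr2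
      rw [Finset.mem_union, Finset.mem_Ico, Finset.mem_Ico]
      by_cases hrm : r < m
      · left
        have := hr2.1 hrm
        rw [Nat.mod_eq_of_lt (by omega)] at this
        omega
      · right
        by_contra hcon
        have h3 : 2 * m ≤ r + δ := by omega
        apply hrm
        apply hr2.2
        rw [Nat.mod_eq_sub_mod h3, Nat.mod_eq_of_lt (by omega)]
        omega
    refine (Finset.card_le_card hsub).trans ((Finset.card_union_le _ _).trans ?_)
    rw [Nat.card_Ico, Nat.card_Ico]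
    omega
  · have hsub : (range (2 * m)).filter q ⊆ Ico (2 * m - δ) m ∪ Ico (3 * m - δ) (2 * m) := by
      intro r hr
      rw [Finset.mem_filter, Finset.mem_range] at hr
      obtain ⟨hr1, hr2⟩ := hr
      simp only [q, decide_eq_decide] at hr2
      rw [Nat.mod_eq_of_lt hr1] at hr2
      rw [Finset.mem_union, Finset.mem_Ico, Finset.mem_Ico]
      by_cases hrm : r < m
      · left
        have h3 := hr2.1 hrm
        by_contra hcon
        rw [Nat.mod_eq_of_lt (by omega)] at h3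
        omega
      · right
        by_contra hcon
        apply hrm
        apply hr2.2
        have h3 : 2 * m ≤ r + δ := by omega
        rw [Nat.mod_eq_sub_mod h3, Nat.mod_eq_of_lt (by omega)]
        omega
    refine (Finset.card_le_card hsub).trans ((Finset.card_union_le _ _).trans ?_)
    rw [Nat.card_Ico, Nat.card_Ico]
    omega

theorem quad_group (n : ℕ) (F : ℕ → ℕ) :
    ∑ j ∈ range n, ∑ c ∈ Ico (j + 1) n, ∑ d ∈ Ico (c + 1) n, ∑ a ∈ range j, F (j + d - (a + c)) ≤
      ∑ δ ∈ range n, ((δ - 1) * ∑ y ∈ range (n - δ), y) * F δ := by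
  rw [Finset.sum_sigma', Finset.sum_sigma', Finset.sum_sigma']
  rw [← Finset.sum_fiberwise_of_maps_to (t := range n)
    (g := fun x : (x : (x : (_ : ℕ) × ℕ) × ℕ) × ℕ => x.1.1.1 + x.1.2 - (x.2 + x.1.1.2))]
  · refine Finset.sum_le_sum fun δ _ => ?_
    rw [Finset.sum_congr rfl (g := fun _ => F δ)
      (fun x hx => by rw [(Finset.mem_filter.1 hx).2]), Finset.sum_const, smul_eq_mul]
    refine Nat.mul_le_mul_right _ ?_
    have hc : ((Ico 1 δ) ×ˢ ((range (n - δ)).sigma (fun y => range y))).card =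
        (δ - 1) * ∑ y ∈ range (n - δ), y := by
      rw [Finset.card_product, Nat.card_Ico, Finset.card_sigma]
      simp only [Finset.card_range]
    rw [← hc]
    refine Finset.card_le_card_of_injOn
      (fun x => (x.1.1.1 - x.2, ⟨x.1.1.2 - (x.1.1.1 - x.2), x.2⟩)) ?_ ?_
    · rintro ⟨⟨⟨j, c⟩, d⟩, a⟩ hx
      simp only [Finset.coe_filter, Finset.mem_sigma, Finset.mem_range, Finset.mem_Ico,
        Set.mem_ofPred_eq] at hx
      simp only [Finset.coe_product, Set.mem_prod, Finset.mem_coe, Finset.mem_Ico, Finset.mem_sigma,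
        Finset.mem_range]
      omega
    · rintro ⟨⟨⟨j, c⟩, d⟩, a⟩ hx ⟨⟨⟨j', c'⟩, d'⟩, a'⟩ hx' he
      simp only [Finset.coe_filter, Finset.mem_sigma, Finset.mem_range, Finset.mem_Ico,
        Set.mem_ofPred_eq] at hx hx'
      simp only [Prod.mk.injEq, Sigma.mk.injEq, heq_eq_eq] at he
      obtain ⟨h1, h2, h3⟩ := he
      have e1 : a = a' := h3
      have e2 : j = j' := by omega
      have e3 : c = c' := by omega
      have e4 : d = d' := by omega
      subst e1 e2 e3 e4
      rfl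
  · rintro ⟨⟨⟨j, c⟩, d⟩, a⟩ hx
    simp only [Finset.mem_sigma, Finset.mem_range, Finset.mem_Ico] at hx
    simp only [Finset.mem_range]
    omega

theorem sum_quadSum_le (m : ℕ) :
    ∑ h ∈ range (2 * m), quadSum (2 * m) (pageF m h) ≤
      ∑ δ ∈ range (2 * m), ((δ - 1) * ∑ y ∈ range (2 * m - δ), y) * gapF m δ := by
  refine le_trans ?_ (quad_group (2 * m) (gapF m))
  unfold quadSum
  rw [Finset.sum_comm]
  refine Finset.sum_le_sum fun j hj => ?_
  rw [Finset.sum_comm]
  refine Finset.sum_le_sum fun c hc => ?_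
  rw [Finset.sum_comm]
  refine Finset.sum_le_sum fun d hd => ?_
  rw [Finset.sum_comm]
  refine Finset.sum_le_sum fun a ha => ?_
  rw [Finset.mem_range] at hj ha
  rw [Finset.mem_Ico] at hc hd
  have h := same_count m (a + c) (j + d - (a + c)) (by omega)
  rw [show a + c + (j + d - (a + c)) = j + d by omega] at h
  exact h

theorem closed_form (M : ℝ) (k : ℕ) :
    ∑ i ∈ range k, ((i : ℝ) + 1) * (M ^ 2 - ((i : ℝ) + 1) ^ 2) =
      M ^ 2 * (k * (k + 1) / 2) - (k * (k + 1) / 2) ^ 2 := by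
  induction k with
  | zero => simp
  | succ k ih =>
    rw [Finset.sum_range_succ, ih]
    push_cast
    ring

theorem sum_num (m : ℕ) :
    2 * ((∑ δ ∈ range (2 * m), ((δ - 1) * ∑ y ∈ range (2 * m - δ), y) * gapF m δ : ℕ) : ℝ) ≤
      (m : ℝ) ^ 5 := by
  let F : ℕ → ℝ := fun δ => (δ : ℝ) * (2 * m - δ) ^ 2 * |2 * (m : ℝ) - 2 * δ|
  have hF0 : ∀ δ, 0 ≤ F δ := fun δ => by positivity
  have hterm : ∀ δ ∈ range (2 * m),
      (((δ - 1) * ∑ y ∈ range (2 * m - δ), y) * gapF m δ : ℕ) ≤ F δ / 2 := by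
    intro δ hδ
    rw [Finset.mem_range] at hδ
    have h1 : ((δ - 1 : ℕ) : ℝ) ≤ δ := by exact_mod_cast Nat.sub_le δ 1
    have h2 : ((∑ y ∈ range (2 * m - δ), y : ℕ) : ℝ) ≤ (2 * m - δ) ^ 2 / 2 := by
      have h3 := Finset.sum_range_id_mul_two (2 * m - δ)
      have h4 : (∑ y ∈ range (2 * m - δ), y) * 2 ≤ (2 * m - δ) * (2 * m - δ) := by
        rw [h3]
        exact Nat.mul_le_mul_left _ (Nat.sub_le _ _)
      have h5 : (((∑ y ∈ range (2 * m - δ), y) * 2 : ℕ) : ℝ) ≤ (((2 * m - δ) * (2 * m - δ) : ℕ) : ℝ) := by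
        exact_mod_cast h4
      rw [Nat.cast_mul, Nat.cast_mul, Nat.cast_sub hδ.le] at h5
      push_cast at h5 ⊢
      nlinarith
    have h3 : ((gapF m δ : ℕ) : ℝ) = |2 * (m : ℝ) - 2 * δ| := by
      unfold gapF
      split_ifs with h
      · have h' : (δ : ℝ) ≤ m := by exact_mod_cast h
        rw [abs_of_nonneg (by linarith)]
        push_cast [Nat.cast_sub h]
        ring
      · push Not at h
        have h' : (m : ℝ) ≤ δ := by exact_mod_cast h.le
        rw [abs_of_nonpos (by linarith)]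
        push_cast [Nat.cast_sub h.le]
        ring
    have h4 : (0 : ℝ) ≤ ((∑ y ∈ range (2 * m - δ), y : ℕ) : ℝ) := Nat.cast_nonneg _
    rw [Nat.cast_mul, Nat.cast_mul, h3]
    calc ((δ - 1 : ℕ) : ℝ) * ((∑ y ∈ range (2 * m - δ), y : ℕ) : ℝ) * |2 * (m : ℝ) - 2 * δ|
        ≤ ((δ : ℝ) * ((2 * m - δ) ^ 2 / 2)) * |2 * (m : ℝ) - 2 * δ| := by
          refine mul_le_mul_of_nonneg_right ?_ (abs_nonneg _)
          exact mul_le_mul h1 h2 h4 (Nat.cast_nonneg _)
      _ = F δ / 2 := by simp only [F]; ring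
  have hsum : ∑ δ ∈ range (2 * m), F δ ≤ (m : ℝ) ^ 3 * (m ^ 2 - 1) := by
    rw [two_mul, Finset.sum_range_add, ← Finset.sum_range_reflect]
    have hFm : F (m + 0) = 0 := by simp [F]
    have h1 : ∑ i ∈ range m, F (m + i) ≤ ∑ i ∈ range m, F (m + (i + 1)) := by
      have h2 : ∑ i ∈ range m, F (m + i) ≤ ∑ i ∈ range (m + 1), F (m + i) :=
        Finset.sum_le_sum_of_subset_of_nonneg (Finset.range_subset_range.2 (Nat.le_succ m))
          fun _ _ _ => hF0 _
      rw [Finset.sum_range_succ', hFm, add_zero] at h2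
      exact h2
    have h2 : ∀ i ∈ range m, F (m - 1 - i) + F (m + (i + 1)) =
        4 * m * (((i : ℝ) + 1) * ((m : ℝ) ^ 2 - ((i : ℝ) + 1) ^ 2)) := by
      intro i hi
      rw [Finset.mem_range] at hi
      have e1 : ((m - 1 - i : ℕ) : ℝ) = m - (i + 1) := by
        rw [show m - 1 - i = m - (i + 1) by omega, Nat.cast_sub (by omega)]
        push_cast
        ring
      simp only [F]
      rw [e1]
      push_cast
      have e2 : |2 * (m : ℝ) - 2 * (m - (i + 1))| = 2 * (i + 1) := by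
        rw [show 2 * (m : ℝ) - 2 * (m - (i + 1)) = 2 * (i + 1) by ring]
        exact abs_of_nonneg (by positivity)
      have e3 : |2 * (m : ℝ) - 2 * (m + (i + 1))| = 2 * (i + 1) := by
        rw [show 2 * (m : ℝ) - 2 * (m + (i + 1)) = -(2 * (i + 1)) by ring, abs_neg]
        exact abs_of_nonneg (by positivity)
      rw [e2, e3]
      ring
    calc ∑ i ∈ range m, F (m - 1 - i) + ∑ i ∈ range m, F (m + i)
        ≤ ∑ i ∈ range m, F (m - 1 - i) + ∑ i ∈ range m, F (m + (i + 1)) := by linarith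
      _ = ∑ i ∈ range m, (F (m - 1 - i) + F (m + (i + 1))) := Finset.sum_add_distrib.symm
      _ = ∑ i ∈ range m, 4 * m * (((i : ℝ) + 1) * ((m : ℝ) ^ 2 - ((i : ℝ) + 1) ^ 2)) :=
          Finset.sum_congr rfl h2
      _ = (m : ℝ) ^ 3 * (m ^ 2 - 1) := by
          rw [← Finset.mul_sum, closed_form]
          ring
  rw [Nat.cast_sum]
  have h1 := Finset.sum_le_sum hterm
  rw [← Finset.sum_div] at h1
  have h2 : (m : ℝ) ^ 3 * (m ^ 2 - 1) ≤ (m : ℝ) ^ 5 := by
    have : (0 : ℝ) ≤ (m : ℝ) ^ 3 := by positivity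
    nlinarith
  linarith

/-- `cr(K_{2m}) ≤ m⁴ / 4`. -/
theorem cr_even (m : ℕ) : 4 * crossingNumber (⊤ : SimpleGraph (Fin (2 * m))) ≤ m ^ 4 := by
  rcases Nat.eq_zero_or_pos m with rfl | hm
  · have h := cr_top_le (2 * 0) (fun _ _ => true)
    have h2 : quadSum (2 * 0) (fun _ _ => true) = 0 := by simp [quadSum]
    omega
  · have h1 := sum_num m
    have h2 : ((∑ h ∈ range (2 * m), 4 * quadSum (2 * m) (pageF m h) : ℕ) : ℝ) ≤
        ((∑ _h ∈ range (2 * m), m ^ 4 : ℕ) : ℝ) := by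
      rw [← Finset.mul_sum, Finset.sum_const, Finset.card_range, smul_eq_mul]
      have h3 : ((∑ h ∈ range (2 * m), quadSum (2 * m) (pageF m h) : ℕ) : ℝ) ≤
          ((∑ δ ∈ range (2 * m), ((δ - 1) * ∑ y ∈ range (2 * m - δ), y) * gapF m δ : ℕ) : ℝ) := by
        exact_mod_cast sum_quadSum_le m
      rw [Nat.cast_mul]
      push_cast at h1 h3 ⊢
      have h4 : 2 * (m : ℝ) * (m : ℝ) ^ 4 = 2 * (m : ℝ) ^ 5 := by ring
      rw [h4]
      linarith
    have h3 : ∑ h ∈ range (2 * m), 4 * quadSum (2 * m) (pageF m h) ≤ ∑ _h ∈ range (2 * m), m ^ 4 := by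
      exact_mod_cast h2
    obtain ⟨h, _, hh⟩ := Finset.exists_le_of_sum_le (Finset.nonempty_range_iff.2 (by omega)) h3
    exact (Nat.mul_le_mul_left 4 (cr_top_le (2 * m) (pageF m h))).trans hh

end Pool.ConeX
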