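import Pool.Agent.Lib.MP_9ec9ec_co.TwoPage

/-!
The crossing number of a complete graph is at most the number of crossings of a two-page drawing.
-/

namespace Pool.ConeX

open Finset

theorem pageCost_map {V W : Type*} (f : V → W) (P : W → W → Bool) (p s : List V) :
    pageCost (fun a b => P (f a) (f b)) p s = pageCost P (p.map f) (s.map f) := by
  have hm : ∀ (a b : W → ℕ) (s : List V), mergeCost (fun c => a (f c)) (fun c => b (f c)) s =
      mergeCost a b (s.map f) := by
    intro a b s
    induction s with
    | nil => rfl
    | cons c s ih =>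
      simp only [mergeCost, List.map_cons, ih, List.map_map]
      rfl
  induction s generalizing p with
  | nil => rfl
  | cons i s ih =>
    simp only [pageCost, List.map_cons]
    have h1 := hm (fun c => if P (f i) c then 1 else 0)
      (fun c => (p.map f).countP (fun a => P a c)) s
    have h2 := hm (fun c => if P (f i) c then 0 else 1)
      (fun c => (p.map f).countP (fun a => !P a c)) s
    rw [← h1, ← h2, ih (i :: p), List.map_cons]
    simp only [List.countP_map]
    rfl

theorem sum_map_range' (a : ℕ → ℕ) (j k : ℕ) :
    ((List.range' j k).map a).sum = ∑ d ∈ Ico j (j + k), a d := by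
  induction k generalizing j with
  | zero => simp
  | succ k ih =>
    rw [List.range'_succ, List.map_cons, List.sum_cons, ih (j + 1),
      Finset.sum_eq_sum_Ico_succ_bot (by omega : j < j + (k + 1)),
      show j + 1 + k = j + (k + 1) by ring]

theorem mergeCost_range' (a b : ℕ → ℕ) (j k : ℕ) :
    mergeCost a b (List.range' j k) =
      ∑ c ∈ Ico j (j + k), (∑ d ∈ Ico (c + 1) (j + k), a d) * b c := by
  induction k generalizing j with
  | zero => simp [mergeCost]
  | succ k ih =>
    rw [List.range'_succ, mergeCost, ih (j + 1), sum_map_range',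
      Finset.sum_eq_sum_Ico_succ_bot (by omega : j < j + (k + 1)),
      show j + 1 + k = j + (k + 1) by ring]

theorem countP_range_reverse (f : ℕ → Bool) (i : ℕ) :
    (List.range i).reverse.countP f = ∑ a ∈ range i, if f a then 1 else 0 := by
  induction i with
  | zero => simp
  | succ i ih =>
    rw [List.range_succ, List.reverse_append, List.reverse_singleton, List.countP_append, ih,
      Finset.sum_range_succ, add_comm]
    congr 1
    by_cases h : f i <;> simp [h]

theorem pageCost_range (P : ℕ → ℕ → Bool) (i k : ℕ) :
    pageCost P (List.range i).reverse (List.range' i k) =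
      ∑ j ∈ Ico i (i + k), ∑ c ∈ Ico (j + 1) (i + k), ∑ d ∈ Ico (c + 1) (i + k), ∑ a ∈ range j,
        if P a c = P j d then 1 else 0 := by
  induction k generalizing i with
  | zero => simp [pageCost]
  | succ k ih =>
    have h1 : i :: (List.range i).reverse = (List.range (i + 1)).reverse := by
      rw [List.range_succ, List.reverse_append, List.reverse_singleton, List.singleton_append]
    rw [List.range'_succ, pageCost, h1, ih (i + 1), mergeCost_range', mergeCost_range',
      Finset.sum_eq_sum_Ico_succ_bot (by omega : i < i + (k + 1)),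
      show i + 1 + k = i + (k + 1) by ring]
    congr 1
    rw [← Finset.sum_add_distrib]
    refine Finset.sum_congr rfl fun c _ => ?_
    rw [countP_range_reverse, countP_range_reverse, Finset.sum_mul_sum, Finset.sum_mul_sum,
      ← Finset.sum_add_distrib]
    refine Finset.sum_congr rfl fun d _ => ?_
    rw [← Finset.sum_add_distrib]
    refine Finset.sum_congr rfl fun a _ => ?_
    cases P i d <;> cases P a c <;> simp

/-- The crossings of the two-page drawing of the complete graph. -/
def quadSum (n : ℕ) (P : ℕ → ℕ → Bool) : ℕ :=
  ∑ j ∈ range n, ∑ c ∈ Ico (j + 1) n, ∑ d ∈ Ico (c + 1) n, ∑ a ∈ range j,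
    if P a c = P j d then 1 else 0

theorem pageCost_eq_quadSum (P : ℕ → ℕ → Bool) (n : ℕ) :
    pageCost P [] (List.range n) = quadSum n P := by
  have h := pageCost_range P 0 n
  rw [List.range_zero, List.reverse_nil, ← List.range_eq_range', zero_add, ← Finset.range_eq_Ico] at h
  exact h

theorem cr_top_le (n : ℕ) (P : ℕ → ℕ → Bool) :
    crossingNumber (⊤ : SimpleGraph (Fin n)) ≤ quadSum n P := by
  have hnd : (List.finRange n).Nodup := List.nodup_finRange n
  obtain ⟨C, hC, h⟩ := twoPage (Rel := RelG (⊤ : SimpleGraph (Fin n)))
    (fun a b => P a.val b.val) (List.finRange n) (by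
      intro i _ Z hZ hm
      refine ⟨Z, hZ, fun w => ?_, rfl⟩
      rw [hm w, SimpleGraph.top_adj]
      exact ⟨fun h => h.2.symm, fun h => ⟨List.mem_finRange w, h.symm⟩⟩)
    (List.finRange n) [] hnd rfl (S := 0) (C := 0) (Der.refl.cast rfl (by simp [segP]) rfl rfl)
  have h' : DG (⊤ : SimpleGraph (Fin n)) [] [] (Finset.univ : Finset (Fin n)).val (C + 0) :=
    h.cast rfl rfl (by rw [add_zero]; rfl) rfl
  refine (cr_le h').trans ?_
  rw [add_zero, hC, pageCost_map Fin.val P, List.map_nil, List.map_coe_finRange_eq_range,
    pageCost_eq_quadSum]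

end Pool.ConeX
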