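import Pool.Agent.Lib.MP_9ec9ec_co.Graph

/-!
The planar bound: a graph drawn without crossings, whose edges join vertices in `W`, has at most `3 |W|` edges.

The faces are represented by elements of a quotient of the edge space.
-/

namespace Pool.ConeX

open Finset

variable {V : Type*} {A M : Type*} [AddCommGroup A] [AddCommGroup M] [Module (ZMod 2) A]
  [Module (ZMod 2) M]

theorem add_self2 (x : A) : x + x = 0 := by
  have h : (2 : ZMod 2) • x = x + x := two_smul _ x
  rw [← h, show (2 : ZMod 2) = 0 from rfl, zero_smul]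

open Classical in
/-- The indicator of `s = φ`. -/
noncomputable def del (φ s : A) : ZMod 2 := if s = φ then 1 else 0

/-- The boundary of the face `φ` met by a word starting in the face `s`. -/
noncomputable def Th (e : V × V → M) (val : V × V → A) (φ : A) : List (V × V) → A → M
  | [], _ => 0
  | x :: w, s => (del φ s + del φ (s + val x)) • e x + Th e val φ w (s + val x)

section Th

variable (e : V × V → M) (val : V × V → A)

omit [Module (ZMod 2) A] in
theorem Th_append (φ : A) (X Y : List (V × V)) (s : A) :
    Th e val φ (X ++ Y) s = Th e val φ X s + Th e val φ Y (s + (X.map val).sum) := by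
  induction X generalizing s with
  | nil => simp [Th]
  | cons x X ih => simp [Th, ih, add_assoc]

variable {e val} (he : ∀ p, e p.swap = e p) (hval : ∀ p, val p.swap = val p)

include he hval in
theorem Th_pair (φ : A) (X Y : List (V × V)) (x : V × V) (s : A) :
    Th e val φ (X ++ x :: x.swap :: Y) s = Th e val φ (X ++ Y) s := by
  rw [Th_append, Th_append]
  congr 1
  simp only [Th, he, hval]
  set t := s + (List.map val X).sum
  have h1 : t + val x + val x = t := by rw [add_assoc, add_self2, add_zero]
  rw [h1, ← add_assoc, add_comm (del φ (t + val x)) (del φ t), add_self2, zero_add]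

include he hval in
theorem Th_inv [DecidableEq V] {H : SimpleGraph V}
    (hv : ∀ v X, RelG H v X → (X.map val).sum = 0)
    {W : List (V × V)} {S : Multiset V} {C : Multiset ((V × V) × (V × V))}
    (h : DG H [] W S C) (hC : C = 0) (hS : S.Nodup) :
    ∃ (rot : V → List (V × V)) (st : V → A), (∀ v ∈ S, RelG H v (rot v)) ∧
      ∀ φ, Th e val φ W 0 + (S.map fun v => Th e val φ (rot v) (st v)).sum = 0 := by
  induction h with
  | refl => exact ⟨fun _ => [], fun _ => 0, by simp, by simp [Th]⟩
  | create x _ ih =>
    obtain ⟨rot, st, h1, h2⟩ := ih hC hS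
    exact ⟨rot, st, h1, fun φ => by rw [Th_pair he hval]; exact h2 φ⟩
  | cancel x _ ih =>
    obtain ⟨rot, st, h1, h2⟩ := ih hC hS
    exact ⟨rot, st, h1, fun φ => by rw [← Th_pair he hval φ _ _ x]; exact h2 φ⟩
  | cross x y _ ih => simp at hC
  | @vertex X Y Z S C v hvZ _ ih =>
    obtain ⟨hvS, hS'⟩ := Multiset.nodup_cons.1 hS
    obtain ⟨rot, st, h1, h2⟩ := ih hC hS'
    refine ⟨Function.update rot v Z, Function.update st v ((X.map val).sum), ?_, fun φ => ?_⟩
    · intro w hw
      by_cases hwv : w = v
      · subst hwv; simpa using hvZ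
      · rw [Function.update_of_ne hwv]
        exact h1 w ((Multiset.mem_cons.1 hw).resolve_left hwv)
    · have e1 : (S.map fun w => Th e val φ (Function.update rot v Z w)
          (Function.update st v ((X.map val).sum) w)) =
          S.map fun w => Th e val φ (rot w) (st w) := by
        refine Multiset.map_congr rfl fun w hw => ?_
        have hwv : w ≠ v := fun h => hvS (h ▸ hw)
        rw [Function.update_of_ne hwv, Function.update_of_ne hwv]
      rw [Multiset.map_cons, Multiset.sum_cons, e1, Function.update_self, Function.update_self]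
      have h3 := h2 φ
      rw [Th_append, Th_append] at h3
      simp only [zero_add, List.map_append, List.sum_append, hv v Z hvZ, add_zero] at h3
      rw [Th_append, zero_add]
      rw [← h3]
      abel

end Th

section Main

variable [Fintype V] [DecidableEq V]

/-- The basis vector of an edge. -/
def ev (p : V × V) : Sym2 V → ZMod 2 := Pi.single s(p.1, p.2) 1

omit [Fintype V] in
theorem ev_swap (p : V × V) : ev p.swap = ev p := by
  simp [ev, Sym2.eq_swap]

omit [Fintype V] in
theorem ev_apply_self (a b : V) : ev (a, b) s(a, b) = 1 := by simp [ev]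

omit [Fintype V] in
theorem ev_apply_ne {p : V × V} {z : Sym2 V} (h : z ≠ s(p.1, p.2)) : ev p z = 0 := by
  simp [ev, Pi.single_eq_of_ne h]

omit [Fintype V] in
/-- Coefficients of a vertex word. -/
theorem Th_coeff {A : Type*} [AddCommGroup A] [Module (ZMod 2) A] (val : V × V → A) (φ : A)
    {X : List (V × V)} {s : A} {z : Sym2 V} (h : ∀ x ∈ X, z ≠ s(x.1, x.2)) :
    Th ev val φ X s z = 0 := by
  induction X generalizing s with
  | nil => rfl
  | cons x X ih =>
    simp only [Th, Pi.add_apply, Pi.smul_apply]
    rw [ev_apply_ne (h x (by simp)), ih fun y hy => h y (by simp [hy])]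
    simp

theorem Th_total {A : Type*} [AddCommGroup A] [Module (ZMod 2) A] (val : V × V → A) (φ : A)
    (X : List (V × V)) (s : A) :
    ∑ z, Th ev val φ X s z = del φ s + del φ (s + (X.map val).sum) := by
  induction X generalizing s with
  | nil => simp [Th, add_self2]
  | cons x X ih =>
    simp only [Th, Pi.add_apply, Pi.smul_apply, Finset.sum_add_distrib, ih, List.map_cons,
      List.sum_cons]
    have : ∑ z, (del φ s + del φ (s + val x)) • (ev x : Sym2 V → ZMod 2) z =
        del φ s + del φ (s + val x) := by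
      rw [← Finset.smul_sum]
      simp [ev]
    rw [this, ← add_assoc s (val x)]
    have h2 := add_self2 (del φ (s + val x))
    linear_combination h2

omit [Fintype V] in
/-- The two faces at an edge end. -/
theorem Th_edge {A : Type*} [AddCommGroup A] [Module (ZMod 2) A] (val : V × V → A)
    {H : SimpleGraph V} {a b : V} {X : List (V × V)} (hX : RelG H a X) (hab : H.Adj a b) (s : A) :
    ∃ σ, ∀ φ, Th ev val φ X s s(a, b) = del φ σ + del φ (σ + val (b, a)) := by
  obtain ⟨P, hP, hm, rfl⟩ := hX
  obtain ⟨P₁, P₂, rfl⟩ := List.append_of_mem ((hm b).2 hab)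
  refine ⟨s + ((P₁.map (fun w => (w, a))).map val).sum, fun φ => ?_⟩
  have hb1 : b ∉ P₁ := fun h => by
    rw [List.nodup_append] at hP
    exact hP.2.2 b h b (by simp) rfl
  have hb2 : b ∉ P₂ := fun h => by
    rw [List.nodup_append, List.nodup_cons] at hP
    exact hP.2.1.1 h
  have hne : ∀ w, w ≠ b → s(a, b) ≠ s(w, a) := by
    intro w hw h
    rw [Sym2.eq_iff] at h
    rcases h with ⟨h1, h2⟩ | ⟨h1, h2⟩
    · exact hw (h1 ▸ h2.symm ▸ rfl)
    · exact hw h2.symm
  rw [List.map_append, List.map_cons, Th_append]
  simp only [Th, Pi.add_apply, Pi.smul_apply]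
  rw [Th_coeff val φ (X := List.map (fun w => (w, a)) P₁), Th_coeff val φ
    (X := List.map (fun w => (w, a)) P₂)]
  · have : (ev (b, a) : Sym2 V → ZMod 2) s(a, b) = 1 := by simp [ev, Sym2.eq_swap]
    rw [this]
    simp
  · intro x hx
    obtain ⟨w, hw, rfl⟩ := List.mem_map.1 hx
    exact hne w fun h => hb2 (h ▸ hw)
  · intro x hx
    obtain ⟨w, hw, rfl⟩ := List.mem_map.1 hx
    exact hne w fun h => hb1 (h ▸ hw)

omit [Fintype V] in
theorem six_darts {D : Finset (V × V)} (hne : ∀ p ∈ D, p.1 ≠ p.2)
    (hsym : ∀ p ∈ D, p.swap ∈ D)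
    (hnext : ∀ a b, (a, b) ∈ D → ∃ c, c ≠ b ∧ (a, c) ∈ D) (h : D.Nonempty) : 6 ≤ D.card := by
  obtain ⟨⟨a, b⟩, hab⟩ := h
  obtain ⟨c, hcb, hac⟩ := hnext a b hab
  have hba : (b, a) ∈ D := hsym _ hab
  obtain ⟨d, hda, hbd⟩ := hnext b a hba
  have hca : (c, a) ∈ D := hsym _ hac
  have hdb : (d, b) ∈ D := hsym _ hbd
  have n1 : a ≠ b := hne _ hab
  have n2 : a ≠ c := hne _ hac
  have n3 : b ≠ d := hne _ hbd
  have hsub : ({(a, b), (b, a), (a, c), (c, a), (b, d), (d, b)} : Finset (V × V)) ⊆ D := by
    intro x hx
    simp only [Finset.mem_insert, Finset.mem_singleton] at hx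
    rcases hx with rfl | rfl | rfl | rfl | rfl | rfl <;> assumption
  have hcard : ({(a, b), (b, a), (a, c), (c, a), (b, d), (d, b)} : Finset (V × V)).card = 6 := by
    rw [Finset.card_insert_of_notMem, Finset.card_insert_of_notMem, Finset.card_insert_of_notMem,
      Finset.card_insert_of_notMem, Finset.card_insert_of_notMem, Finset.card_singleton]
    all_goals
      simp only [Finset.mem_insert, Finset.mem_singleton, Prod.mk.injEq, not_or, not_and]
    all_goals grind
  calc 6 = _ := hcard.symm
    _ ≤ _ := Finset.card_le_card hsub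

theorem del_self {A : Type*} (s : A) : del s s = 1 := by simp [del]
theorem del_ne {A : Type*} {φ s : A} (h : s ≠ φ) : del φ s = 0 := by simp [del, h]

/-- **Planar bound.** -/
theorem planar_bound {H : SimpleGraph V} [DecidableRel H.Adj]
    (h : DG H [] [] (Finset.univ : Finset V).val 0) (W : Finset V)
    (hW : ∀ a b, H.Adj a b → a ∈ W) : H.edgeFinset.card ≤ 3 * W.card := by
  classical
  let d : V → (Sym2 V → ZMod 2) := fun v => ∑ w ∈ H.neighborFinset v, ev (v, w)
  let T : Finset (Sym2 V → ZMod 2) :=
    W.image d ∪ (Finset.univ \ H.edgeFinset).image (fun z => Pi.single z 1)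
  let N : Submodule (ZMod 2) (Sym2 V → ZMod 2) := Submodule.span _ (T : Set (Sym2 V → ZMod 2))
  let A := (Sym2 V → ZMod 2) ⧸ N
  let val : V × V → A := fun p => N.mkQ (ev p)
  have hTN : ∀ x ∈ T, N.mkQ x = 0 := fun x hx => by
    rw [Submodule.mkQ_apply, Submodule.Quotient.mk_eq_zero]
    exact Submodule.subset_span hx
  have hval : ∀ p, val p.swap = val p := fun p => by simp only [val, ev_swap]
  have hv : ∀ v X, RelG H v X → (X.map val).sum = 0 := by
    rintro v X ⟨P, hP, hm, rfl⟩
    have hPn : P.toFinset = H.neighborFinset v := by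
      ext w; simp [hm]
    rw [List.map_map, ← List.sum_toFinset _ hP, hPn]
    have e1 : ∑ w ∈ H.neighborFinset v, (val ∘ fun w => (w, v)) w = N.mkQ (d v) := by
      rw [map_sum]
      refine Finset.sum_congr rfl fun w _ => ?_
      exact (hval (v, w))
    rw [e1]
    by_cases hvW : v ∈ W
    · exact hTN _ (Finset.mem_union_left _ (Finset.mem_image_of_mem _ hvW))
    · have : H.neighborFinset v = ∅ := by
        ext w
        simp only [SimpleGraph.mem_neighborFinset, Finset.notMem_empty, iff_false]
        exact fun hw => hvW (hW v w hw)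
      simp only [d, this, Finset.sum_empty, map_zero]
  obtain ⟨rot, st, hrot, hsum⟩ := Th_inv (e := ev) (val := val) ev_swap hval hv h rfl
    (Finset.univ : Finset V).nodup
  have hrot' : ∀ v, RelG H v (rot v) := fun v => hrot v (Finset.mem_univ v)
  have hsum' : ∀ φ, ∑ v, Th ev val φ (rot v) (st v) = 0 := fun φ => by
    have := hsum φ
    simp only [Th, zero_add] at this
    exact this
  let β : A → V → V → ZMod 2 := fun φ a b => Th ev val φ (rot a) (st a) s(a, b)
  -- both ends of an edge see the same faces
  have hβsym : ∀ φ a b, H.Adj a b → β φ a b = β φ b a := by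
    intro φ a b hab
    have h1 := congrFun (hsum' φ) s(a, b)
    rw [Finset.sum_apply, Pi.zero_apply, Finset.sum_eq_add a b hab.ne] at h1
    · have h2 : β φ a b + β φ b a = 0 := by
        rw [← h1]
        simp only [β]
        rw [show s(b, a) = s(a, b) from Sym2.eq_swap]
      have h3 := add_self2 (β φ b a)
      linear_combination h2 - h3
    · rintro c - ⟨hca, hcb⟩
      refine Th_coeff val φ fun x hx => ?_
      obtain ⟨P, -, -, hr⟩ := hrot' c
      rw [hr] at hx
      obtain ⟨w, -, rfl⟩ := List.mem_map.1 hx
      intro he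
      rw [Sym2.eq_iff] at he
      rcases he with ⟨-, h3⟩ | ⟨h3, -⟩
      · exact hcb h3.symm
      · exact hca h3.symm
    · simp
    · simp
  -- parity at a vertex
  have hβsum : ∀ φ a, ∑ b ∈ H.neighborFinset a, β φ a b = 0 := by
    intro φ a
    have h1 := Th_total val φ (rot a) (st a)
    rw [hv a _ (hrot' a), add_zero, add_self2] at h1
    rw [← h1]
    have hinj : Set.InjOn (fun b => s(a, b)) (H.neighborFinset a : Set V) := by
      intro b _ c _ hbc
      rcases Sym2.eq_iff.1 hbc with ⟨-, h⟩ | ⟨h, h'⟩
      · exact h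
      · rw [h', ← h]
    have h2 : ∑ b ∈ H.neighborFinset a, β φ a b =
        ∑ z ∈ (H.neighborFinset a).image (fun b => s(a, b)), Th ev val φ (rot a) (st a) z := by
      rw [Finset.sum_image hinj]
    rw [h2]
    refine Finset.sum_subset (Finset.subset_univ _) fun z _ hz => ?_
    refine Th_coeff val φ fun x hx he => hz ?_
    obtain ⟨P, -, hm, hr⟩ := hrot' a
    rw [hr] at hx
    obtain ⟨w, hw, rfl⟩ := List.mem_map.1 hx
    rw [he, Finset.mem_image]
    exact ⟨w, by simpa using (hm w).1 hw, Sym2.eq_swap⟩
  let D : Finset (V × V) := Finset.univ.filter fun p => H.Adj p.1 p.2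
  have hDcard : D.card = 2 * H.edgeFinset.card := by
    rw [← H.sum_degrees_eq_twice_card_edges]
    simp only [D, Finset.card_filter, ← Finset.univ_product_univ, Finset.sum_product]
    refine Finset.sum_congr rfl fun a _ => ?_
    rw [← Finset.card_filter, ← SimpleGraph.card_neighborFinset_eq_degree]
    congr 1
    ext b; simp
  let B : A → Finset (V × V) := fun φ => D.filter fun p => β φ p.1 p.2 = 1
  have : Finite A := Quotient.finite _
  have _ftA : Fintype A := Fintype.ofFinite A
  let Φ : Finset A := Finset.univ.filter fun φ => (B φ).Nonempty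
  have h01 : ∀ x : ZMod 2, x ≠ 0 → x = 1 := by decide
  have hB6 : ∀ φ ∈ Φ, 6 ≤ (B φ).card := by
    intro φ hφ
    refine six_darts ?_ ?_ ?_ (Finset.mem_filter.1 hφ).2
    · intro p hp
      exact (Finset.mem_filter.1 (Finset.mem_filter.1 hp).1).2.ne
    · intro p hp
      obtain ⟨h1, h2⟩ := Finset.mem_filter.1 hp
      have hadj : H.Adj p.1 p.2 := (Finset.mem_filter.1 h1).2
      refine Finset.mem_filter.2 ⟨Finset.mem_filter.2 ⟨Finset.mem_univ _, hadj.symm⟩, ?_⟩
      change β φ p.2 p.1 = 1
      rw [← hβsym φ _ _ hadj]; exact h2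
    · intro a b hab
      obtain ⟨h1, h2⟩ := Finset.mem_filter.1 hab
      have hadj : H.Adj a b := (Finset.mem_filter.1 h1).2
      have h2' : β φ a b = 1 := h2
      by_contra hcon
      have h3 := hβsum φ a
      rw [Finset.sum_eq_single b] at h3
      · rw [h2'] at h3
        exact absurd h3 (by decide)
      · intro c hc hcb
        by_contra hne
        refine hcon ⟨c, hcb, Finset.mem_filter.2 ⟨Finset.mem_filter.2 ⟨Finset.mem_univ _, ?_⟩,
          h01 _ hne⟩⟩
        simpa using hc
      · intro hb
        exact absurd (by simpa using hadj) hb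
  have hface : ∀ a b, H.Adj a b → ∃ σ, ∀ φ, β φ a b = del φ σ + del φ (σ + val (b, a)) :=
    fun a b hab => Th_edge val (hrot' a) hab (st a)
  have hcount : 3 * Φ.card ≤ 2 * H.edgeFinset.card := by
    have h1 : 6 * Φ.card ≤ ∑ φ : A, (B φ).card := by
      calc 6 * Φ.card = ∑ _φ ∈ Φ, 6 := by rw [Finset.sum_const, smul_eq_mul, mul_comm]
        _ ≤ ∑ φ ∈ Φ, (B φ).card := Finset.sum_le_sum hB6
        _ ≤ ∑ φ : A, (B φ).card := Finset.sum_le_sum_of_subset (Finset.subset_univ _)
    have h2 : ∑ φ : A, (B φ).card =
        ∑ p ∈ D, (Finset.univ.filter fun φ : A => β φ p.1 p.2 = 1).card := by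
      simp only [B, Finset.card_filter]
      exact Finset.sum_comm
    have h3 : ∑ p ∈ D, (Finset.univ.filter fun φ : A => β φ p.1 p.2 = 1).card ≤ 2 * D.card := by
      rw [mul_comm, ← smul_eq_mul, ← Finset.sum_const]
      refine Finset.sum_le_sum fun p hp => ?_
      obtain ⟨σ, hσ⟩ := hface p.1 p.2 (Finset.mem_filter.1 hp).2
      have hsub : (Finset.univ.filter fun φ : A => β φ p.1 p.2 = 1) ⊆ {σ, σ + val (p.2, p.1)} := by
        intro φ hφ
        have h4 : β φ p.1 p.2 = 1 := (Finset.mem_filter.1 hφ).2
        rw [hσ] at h4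
        simp only [Finset.mem_insert, Finset.mem_singleton]
        by_contra hcon
        push Not at hcon
        rw [del_ne hcon.1.symm, del_ne hcon.2.symm] at h4
        exact absurd h4 (by decide)
      exact (Finset.card_le_card hsub).trans Finset.card_le_two
    omega
  have hspan : Submodule.span (ZMod 2) (Φ : Set A) = ⊤ := by
    have hedge : ∀ a b, H.Adj a b → val (b, a) ∈ Submodule.span (ZMod 2) (Φ : Set A) := by
      intro a b hab
      by_cases h0 : val (b, a) = 0
      · rw [h0]; exact Submodule.zero_mem _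
      obtain ⟨σ, hσ⟩ := hface a b hab
      have hne : σ + val (b, a) ≠ σ := by simpa using h0
      have m1 : σ ∈ Φ := by
        refine Finset.mem_filter.2 ⟨Finset.mem_univ _, ⟨(a, b), Finset.mem_filter.2
          ⟨Finset.mem_filter.2 ⟨Finset.mem_univ _, hab⟩, ?_⟩⟩⟩
        change β σ a b = 1
        rw [hσ, del_self, del_ne hne, add_zero]
      have m2 : σ + val (b, a) ∈ Φ := by
        refine Finset.mem_filter.2 ⟨Finset.mem_univ _, ⟨(a, b), Finset.mem_filter.2
          ⟨Finset.mem_filter.2 ⟨Finset.mem_univ _, hab⟩, ?_⟩⟩⟩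
        change β (σ + val (b, a)) a b = 1
        rw [hσ, del_self, del_ne hne.symm, zero_add]
      have : val (b, a) = (σ + val (b, a)) - σ := by abel
      rw [this]
      exact Submodule.sub_mem _ (Submodule.subset_span m2) (Submodule.subset_span m1)
    rw [eq_top_iff]
    rintro x -
    obtain ⟨m, rfl⟩ := N.mkQ_surjective x
    have hm : m = ∑ z, m z • (Pi.single z 1 : Sym2 V → ZMod 2) := by
      ext y
      rw [Finset.sum_apply, Finset.sum_eq_single y]
      · simp
      · intro z _ hz
        simp [Pi.single_eq_of_ne hz.symm]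
      · simp
    rw [hm, map_sum]
    refine Submodule.sum_mem _ fun z _ => ?_
    rw [map_smul]
    refine Submodule.smul_mem _ _ ?_
    by_cases hz : z ∈ H.edgeFinset
    · induction z using Sym2.ind with
      | _ a b =>
        have hab : H.Adj a b := by simpa using hz
        have h5 := hedge b a hab.symm
        exact h5
    · rw [hTN _ (Finset.mem_union_right _ (Finset.mem_image_of_mem _ (by simpa using hz)))]
      exact Submodule.zero_mem _
  have hdim1 : Module.finrank (ZMod 2) A ≤ Φ.card := by
    have := finrank_span_finset_le_card (R := ZMod 2) Φ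
    rw [Set.finrank, hspan, finrank_top] at this
    exact this
  have hdim2 := N.finrank_quotient_add_finrank
  have hdim3 : Module.finrank (ZMod 2) N ≤ T.card := finrank_span_finset_le_card T
  have hdim4 : Module.finrank (ZMod 2) (Sym2 V → ZMod 2) = Fintype.card (Sym2 V) :=
    Module.finrank_fintype_fun_eq_card _
  have hT : T.card ≤ W.card + (Fintype.card (Sym2 V) - H.edgeFinset.card) := by
    refine (Finset.card_union_le _ _).trans (Nat.add_le_add Finset.card_image_le ?_)
    refine Finset.card_image_le.trans ?_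
    rw [Finset.card_sdiff_of_subset (Finset.subset_univ _), Finset.card_univ]
  have hE : H.edgeFinset.card ≤ Fintype.card (Sym2 V) := Finset.card_le_univ _
  have hdim2' : Module.finrank (ZMod 2) A + Module.finrank (ZMod 2) N = Fintype.card (Sym2 V) := by
    rw [← hdim4]; exact hdim2
  omega

end Main

end Pool.ConeX
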