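import Pool.Agent.Lib.MP_9ec9ec_co.Graph

/-!
Two-page drawings of complete graphs in the word calculus.
-/

namespace Pool.ConeX

variable {V : Type*}

/-- Passing a vertex with left neighbours `X` and right neighbours `Y` (both from bottom to top). -/
theorem Der.vertexXY {Rel : V → List (V × V) → Prop} {u A B : List (V × V)} {S : Multiset V}
    {C : Multiset ((V × V) × (V × V))} (v : V) (X Y : List V)
    (hr : Rel v ((X ++ Y.reverse).map (fun w => (w, v))))
    (h : Der Prod.swap Rel u (A ++ X.map (fun w => (w, v)) ++ B) S C) :
    Der Prod.swap Rel u (A ++ Y.map (fun w => (v, w)) ++ B) (v ::ₘ S) C := by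
  have h1 := Der.createWord (Y.reverse.map (fun w => (w, v))) h
  have e : invWord Prod.swap (Y.reverse.map (fun w => (w, v))) = Y.map (fun w => (v, w)) := by
    simp [invWord, Function.comp_def]
  rw [e] at h1
  have h2 := Der.vertex (A := A) (B := Y.map (fun w => (v, w)) ++ B) v hr
    (h1.cast rfl (by simp) rfl rfl)
  exact h2.cast rfl (by simp) rfl rfl

/-- The number of exchanges needed to sort new letters into the old segments. -/
def mergeCost (a b : V → ℕ) : List V → ℕ
  | [] => 0
  | c :: s => (s.map a).sum * b c + mergeCost a b s

theorem length_flatMap' {α β : Type*} (f : α → List β) (s : List α) :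
    (s.flatMap f).length = (s.map fun c => (f c).length).sum := by
  induction s with
  | nil => rfl
  | cons c s ih => simp [ih]

/-- Sorting the new letters of the upper page. -/
theorem Der.mergeUp {L ι : Type*} {inv : L → L} {Rel : ι → List L → Prop} (nw seg : V → List L)
    (s : List V) {u A B : List L} {S : Multiset ι} {C : Multiset (L × L)}
    (h : Der inv Rel u (A ++ s.flatMap nw ++ s.flatMap seg ++ B) S C) :
    ∃ C' : Multiset (L × L), C'.card = mergeCost (fun c => (nw c).length) (fun c => (seg c).length) s ∧
      Der inv Rel u (A ++ s.flatMap (fun c => nw c ++ seg c) ++ B) S (C' + C) := by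
  induction s generalizing A C with
  | nil => exact ⟨0, rfl, by simpa using h⟩
  | cons c s ih =>
    obtain ⟨C₁, hC₁, h1⟩ := Der.crossWord (A := A ++ nw c) (B := s.flatMap seg ++ B)
      (s.flatMap nw) (seg c) (h.cast rfl (by simp) rfl rfl)
    obtain ⟨C₂, hC₂, h2⟩ := ih (A := A ++ nw c ++ seg c) (C := C₁ + C)
      (h1.cast rfl (by simp) rfl rfl)
    refine ⟨C₂ + C₁, ?_, h2.cast rfl (by simp) rfl (by rw [add_assoc])⟩
    rw [Multiset.card_add, hC₁, hC₂, mergeCost, length_flatMap', add_comm]

/-- Sorting the new letters of the lower page. -/
theorem Der.mergeDown {L ι : Type*} {inv : L → L} {Rel : ι → List L → Prop} (nw seg : V → List L)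
    (s : List V) {u A B : List L} {S : Multiset ι} {C : Multiset (L × L)}
    (h : Der inv Rel u (A ++ (s.flatMap seg).reverse ++ (s.flatMap nw).reverse ++ B) S C) :
    ∃ C' : Multiset (L × L), C'.card = mergeCost (fun c => (nw c).length) (fun c => (seg c).length) s ∧
      Der inv Rel u (A ++ (s.flatMap (fun c => nw c ++ seg c)).reverse ++ B) S (C' + C) := by
  induction s generalizing B C with
  | nil => exact ⟨0, rfl, by simpa using h⟩
  | cons c s ih =>
    obtain ⟨C₁, hC₁, h1⟩ := Der.crossWord (A := A ++ (s.flatMap seg).reverse)
      (B := (nw c).reverse ++ B) (seg c).reverse (s.flatMap nw).reverse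
      (h.cast rfl (by simp) rfl rfl)
    obtain ⟨C₂, hC₂, h2⟩ := ih (B := (seg c).reverse ++ (nw c).reverse ++ B) (C := C₁ + C)
      (h1.cast rfl (by simp) rfl rfl)
    refine ⟨C₂ + C₁, ?_, h2.cast rfl (by simp) rfl (by rw [add_assoc])⟩
    rw [Multiset.card_add, hC₁, hC₂, mergeCost, List.length_reverse, List.length_reverse,
      length_flatMap', add_comm, mul_comm]

/-- The number of crossings of the two-page drawing: `p` are the vertices passed, the last one first, `s` the
remaining ones. -/
def pageCost (P : V → V → Bool) : List V → List V → ℕ
  | _, [] => 0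
  | p, i :: s =>
    mergeCost (fun c => if P i c then 1 else 0) (fun c => p.countP (fun a => P a c)) s +
    mergeCost (fun c => if P i c then 0 else 1) (fun c => p.countP (fun a => !P a c)) s +
    pageCost P (i :: p) s

/-- The letters of the edges to `c` on the page `P`. -/
def segP (P : V → V → Bool) (p : List V) (c : V) : List (V × V) :=
  (p.filter (fun a => P a c)).map (fun a => (a, c))

theorem segP_cons (P : V → V → Bool) (i : V) (p : List V) (c : V) :
    segP P (i :: p) c = (if P i c then [(i, c)] else []) ++ segP P p c := by
  unfold segP
  by_cases h : P i c <;> simp [h]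

theorem map_filter_eq_flatMap (P : V → Bool) (i : V) (s : List V) :
    (s.filter P).map (fun w => (i, w)) = s.flatMap (fun c => if P c then [(i, c)] else []) := by
  induction s with
  | nil => rfl
  | cons c s ih => by_cases h : P c <;> simp [h, ih]

theorem length_segP (P : V → V → Bool) (p : List V) (c : V) :
    (segP P p c).length = p.countP (fun a => P a c) := by
  unfold segP
  rw [List.length_map, List.countP_eq_length_filter]

/-- **Two-page drawings.** -/
theorem twoPage {Rel : V → List (V × V) → Prop} (P : V → V → Bool) (l : List V)
    (hRel : ∀ i ∈ l, ∀ Z : List V, Z.Nodup → (∀ w, w ∈ Z ↔ w ∈ l ∧ w ≠ i) →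
      Rel i (Z.map (fun w => (w, i)))) :
    ∀ (s p : List V), l.Nodup → l = p.reverse ++ s → ∀ {S : Multiset V}
      {C : Multiset ((V × V) × (V × V))},
      Der Prod.swap Rel [] ((s.flatMap (segP (fun a c => !P a c) p)).reverse ++
        s.flatMap (segP P p)) S C →
      ∃ C' : Multiset ((V × V) × (V × V)), C'.card = pageCost P p s ∧
        Der Prod.swap Rel [] [] (↑s + S) (C' + C) := by
  intro s
  induction s with
  | nil =>
    intro p _ _ S C h
    exact ⟨0, rfl, by simpa using h⟩
  | cons i s ih =>
    intro p hnd hl S C h
    have hl' : l = (i :: p).reverse ++ s := by rw [hl]; simp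
    -- the vertex `i`
    let X : List V := (p.filter (fun a => !P a i)).reverse ++ p.filter (fun a => P a i)
    let Y : List V := (s.filter (fun c => !P i c)).reverse ++ s.filter (fun c => P i c)
    have hi : i ∈ l := by rw [hl]; simp
    have hnd' : (p.reverse ++ i :: s).Nodup := hl ▸ hnd
    rw [List.nodup_append, List.nodup_reverse, List.nodup_cons] at hnd'
    obtain ⟨hp, ⟨his, hs⟩, hdis⟩ := hnd'
    have hip : i ∉ p := fun h => hdis i (by simpa using h) i (by simp) rfl
    have hps : ∀ a ∈ p, a ∉ s := fun a ha hs => hdis a (by simpa using ha) a (by simp [hs]) rfl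
    have hperm : (X ++ Y.reverse).Perm (p ++ s) := by
      refine List.Perm.append ?_ ?_
      · refine ((List.reverse_perm _).append_right _).trans ?_
        refine List.perm_append_comm.trans ?_
        have := List.filter_append_perm (fun a => P a i) p
        simpa using this
      · refine (List.reverse_perm _).trans ?_
        refine ((List.reverse_perm _).append_right _).trans ?_
        refine List.perm_append_comm.trans ?_
        have := List.filter_append_perm (fun c => P i c) s
        simpa using this
    have hr : Rel i ((X ++ Y.reverse).map (fun w => (w, i))) := by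
      refine hRel i hi _ ?_ ?_
      · rw [hperm.nodup_iff, List.nodup_append]
        exact ⟨hp, hs, fun a ha b hb hab => hps a ha (hab ▸ hb)⟩
      · intro w
        rw [hperm.mem_iff, List.mem_append, hl]
        simp only [List.mem_append, List.mem_reverse, List.mem_cons]
        constructor
        · rintro (hw | hw)
          · exact ⟨Or.inl hw, fun h => hip (h ▸ hw)⟩
          · exact ⟨Or.inr (Or.inr hw), fun h => his (h ▸ hw)⟩
        · rintro ⟨hw | hw | hw, hne⟩
          · exact Or.inl hw
          · exact absurd hw hne
          · exact Or.inr hw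
    have h1 := Der.vertexXY (A := (s.flatMap (segP (fun a c => !P a c) p)).reverse)
      (B := s.flatMap (segP P p)) i X Y hr (h.cast rfl (by
        simp only [List.flatMap_cons, List.reverse_append, X, List.map_append, List.map_reverse, segP,
          List.append_assoc]) rfl rfl)
    -- sorting the upper page
    obtain ⟨C₁, hC₁, h2⟩ := Der.mergeUp (fun c => if P i c then [(i, c)] else []) (segP P p) s
      (A := (s.flatMap (segP (fun a c => !P a c) p)).reverse ++
        (s.flatMap (fun c => if (!P i c) then [(i, c)] else [])).reverse) (B := []) (h1.cast rfl (by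
          simp only [Y, List.map_append, List.map_reverse, List.append_nil, List.append_assoc]
          rw [map_filter_eq_flatMap, map_filter_eq_flatMap]) rfl rfl)
    -- sorting the lower page
    obtain ⟨C₂, hC₂, h3⟩ := Der.mergeDown (fun c => if (!P i c) then [(i, c)] else [])
      (segP (fun a c => !P a c) p) s (A := [])
      (B := s.flatMap (fun c => (if P i c then [(i, c)] else []) ++ segP P p c))
      (h2.cast rfl (by simp) rfl rfl)
    obtain ⟨C₃, hC₃, h4⟩ := ih (i :: p) hnd hl' (h3.cast rfl (by
      simp only [List.nil_append]
      congr 2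
      · congr 1
        funext c
        exact (segP_cons (fun a c => !P a c) i p c).symm
      · funext c
        exact (segP_cons P i p c).symm) rfl rfl)
    refine ⟨C₃ + C₂ + C₁, ?_, h4.cast rfl rfl ?_ (by rw [add_assoc, add_assoc])⟩
    · rw [Multiset.card_add, Multiset.card_add, hC₁, hC₂, hC₃, pageCost]
      have e1 : (fun c => (if P i c then [(i, c)] else [] : List (V × V)).length) =
          fun c => if P i c then 1 else 0 := by
        funext c
        by_cases h : P i c <;> simp [h]
      have e2 : (fun c => (if (!P i c) then [(i, c)] else [] : List (V × V)).length) =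
          fun c => if P i c then 0 else 1 := by
        funext c
        by_cases h : P i c <;> simp [h]
      simp only [length_segP]
      rw [e1, e2]
      ring
    · rw [Multiset.add_cons, ← Multiset.cons_coe, Multiset.cons_add]

end Pool.ConeX
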