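import Pool.Agent.Lib.MP_9ec9ec_co.Graph
import Pool.Agent.Lib.MP_9ec9ec_co.PageAvg

/-!
Crossing numbers of isomorphic graphs, of disjoint unions and of cones over them, and the deletion inequality
for complete graphs.
-/

namespace Pool.ConeX

variable {V W : Type*}

/-- Mapping a derivation along an injective map of the vertices. -/
theorem Der.push (f : V → W) (hf : Function.Injective f) {G : SimpleGraph V} {H : SimpleGraph W}
    {u w : List (V × V)} {S : Multiset V} {C : Multiset ((V × V) × (V × V))} (h : DG G u w S C)
    (hH : ∀ v ∈ S, ∀ y, H.Adj (f v) y ↔ ∃ x, G.Adj v x ∧ f x = y) :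
    ∃ C', C'.card = C.card ∧
      DG H (u.map (Prod.map f f)) (w.map (Prod.map f f)) (S.map f) C' := by
  obtain ⟨C', hC', h'⟩ := h.hom (inv' := Prod.swap) (Rel' := RelG H) (fun p => [Prod.map f f p])
    (fun v => {f v}) (by rintro ⟨a, b⟩; rfl) (by
      rintro v hv X ⟨P, hP, hm, rfl⟩
      have hr : RelG H (f v) ((P.map (fun w => (w, v))).map (Prod.map f f)) := by
        refine ⟨P.map f, hP.map hf, fun y => ?_, by simp⟩
        rw [hH v hv, List.mem_map]
        exact ⟨fun ⟨x, hx, e⟩ => ⟨x, (hm x).1 hx, e⟩, fun ⟨x, hx, e⟩ => ⟨x, (hm x).2 hx, e⟩⟩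
      rw [flatMap_single]
      exact Der.vertexWord hr)
  refine ⟨C', by simpa using hC', ?_⟩
  rw [flatMap_single, flatMap_single] at h'
  exact h'.cast rfl rfl (by rw [Multiset.bind_singleton]) rfl

theorem cr_iso_le [Fintype V] [DecidableEq V] [Fintype W] [DecidableEq W] {G : SimpleGraph V}
    {H : SimpleGraph W} (e : G ≃g H) : crossingNumber H ≤ crossingNumber G := by
  obtain ⟨C, h, hC⟩ := cr_attained G
  obtain ⟨C', hC', h'⟩ := h.push e e.injective (H := H) (by
    intro v _ y
    constructor
    · intro hy
      refine ⟨e.symm y, ?_, e.apply_symm_apply y⟩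
      rw [← e.map_rel_iff, RelIso.apply_symm_apply]
      exact hy
    · rintro ⟨x, hx, rfl⟩
      exact e.map_rel_iff.2 hx)
  have h2 : (Finset.univ : Finset V).val.map e = (Finset.univ : Finset W).val := by
    have h3 := congrArg Finset.val (Finset.map_univ_equiv e.toEquiv)
    exact h3
  have h3 : DG H [] [] (Finset.univ : Finset W).val C' := h'.cast rfl rfl h2 rfl
  exact (cr_le h3).trans (by omega)

theorem cr_iso [Fintype V] [DecidableEq V] [Fintype W] [DecidableEq W] {G : SimpleGraph V}
    {H : SimpleGraph W} (e : G ≃g H) : crossingNumber G = crossingNumber H :=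
  le_antisymm (cr_iso_le e.symm) (cr_iso_le e)

/-- The letters of an induced subgraph. -/
noncomputable def pullφ (f : W → V) (p : V × V) : List (W × W) :=
  match Function.partialInv f p.1, Function.partialInv f p.2 with
  | some a, some b => [(a, b)]
  | _, _ => []

/-- The vertices of an induced subgraph. -/
noncomputable def pullS (f : W → V) (v : V) : Multiset W :=
  match Function.partialInv f v with
  | some a => {a}
  | none => 0

theorem partialInv_none {f : W → V} (hf : Function.Injective f) (v : V) :
    Function.partialInv f v = none ↔ v ∉ Set.range f := by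
  have h1 := hf.isPartialInv
  constructor
  · rintro h ⟨a, ha⟩
    rw [(h1 a v).2 ha] at h
    cases h
  · intro h
    cases h2 : Function.partialInv f v with
    | none => rfl
    | some a => exact absurd ⟨a, (h1 a v).1 h2⟩ h

open Classical in
theorem length_pullφ {f : W → V} (hf : Function.Injective f) (p : V × V) :
    (pullφ f p).length = if p.1 ∈ Set.range f ∧ p.2 ∈ Set.range f then 1 else 0 := by
  have h1 := hf.isPartialInv
  unfold pullφ
  cases h2 : Function.partialInv f p.1 with
  | none =>
    have h3 := (partialInv_none hf _).1 h2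
    rw [if_neg (fun h => h3 h.1)]
    rfl
  | some a =>
    have ha := (h1 _ _).1 h2
    cases h3 : Function.partialInv f p.2 with
    | none =>
      have h4 := (partialInv_none hf _).1 h3
      rw [if_neg (fun h => h4 h.2)]
      rfl
    | some b =>
      have hb := (h1 _ _).1 h3
      rw [if_pos ⟨⟨a, ha⟩, ⟨b, hb⟩⟩]
      rfl

theorem ite_and_mul (p q : Prop) [Decidable p] [Decidable q] :
    (if p then 1 else 0) * (if q then 1 else 0) = if p ∧ q then 1 else 0 := by
  by_cases hp : p <;> by_cases hq : q <;> simp [hp, hq]

theorem countP_disj {α : Type*} (p q : α → Prop) [DecidablePred p] [DecidablePred q]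
    (h : ∀ x, p x → ¬ q x) (C : Multiset α) : C.countP p + C.countP q ≤ C.card := by
  induction C using Multiset.induction_on with
  | empty => simp
  | cons x C ih =>
    rw [Multiset.countP_cons, Multiset.countP_cons, Multiset.card_cons]
    by_cases hp : p x
    · rw [if_pos hp, if_neg (h x hp)]
      omega
    · rw [if_neg hp]
      split_ifs <;> omega

/-- All ends lie in the range of `f`. -/
def onRange (f : W → V) (p : (V × V) × (V × V)) : Prop :=
  (p.1.1 ∈ Set.range f ∧ p.1.2 ∈ Set.range f) ∧ (p.2.1 ∈ Set.range f ∧ p.2.2 ∈ Set.range f)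

noncomputable instance (f : W → V) : DecidablePred (onRange f) := Classical.decPred _

open Classical in
/-- The restriction of a drawing to an induced subgraph. -/
theorem Der.pull [Fintype V] [Fintype W] (f : W → V) (hf : Function.Injective f)
    {G : SimpleGraph V} {H : SimpleGraph W} (hH : ∀ a b, H.Adj a b ↔ G.Adj (f a) (f b))
    {C : Multiset ((V × V) × (V × V))} (h : DG G [] [] (Finset.univ : Finset V).val C) :
    ∃ C', C'.card = C.countP (onRange f) ∧
      DG H [] [] (Finset.univ : Finset W).val C' := by
  have hi := hf.isPartialInv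
  obtain ⟨C', hC', h'⟩ := h.hom (inv' := Prod.swap) (Rel' := RelG H) (pullφ f) (pullS f) (by
    rintro ⟨a, b⟩
    simp only [pullφ, Prod.swap_prod_mk]
    cases Function.partialInv f a <;> cases Function.partialInv f b <;> rfl) (by
      rintro v - X ⟨P, hP, hm, rfl⟩
      cases hv : Function.partialInv f v with
      | none =>
        have e : (P.map (fun w => (w, v))).flatMap (pullφ f) = [] := by
          rw [List.flatMap_eq_nil_iff]
          intro x hx
          obtain ⟨w, -, rfl⟩ := List.mem_map.1 hx
          simp only [pullφ, hv]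
          cases Function.partialInv f w <;> rfl
        have e2 : pullS f v = 0 := by simp only [pullS, hv]
        rw [e, e2]
        exact .refl
      | some b =>
        have hb := (hi _ _).1 hv
        have e : (P.map (fun w => (w, v))).flatMap (pullφ f) =
            (P.filterMap (Function.partialInv f)).map (fun w => (w, b)) := by
          clear hP hm
          induction P with
          | nil => rfl
          | cons w P ih =>
            rw [List.map_cons, List.flatMap_cons, ih, List.filterMap_cons]
            simp only [pullφ, hv]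
            cases Function.partialInv f w <;> rfl
        have e2 : pullS f v = {b} := by simp only [pullS, hv]
        rw [e, e2]
        refine Der.vertexWord ⟨_, ?_, fun w => ?_, rfl⟩
        · refine hP.filterMap ?_
          intro x y z hx hy
          rw [Option.mem_def] at hx hy
          exact ((hi _ _).1 hx).symm.trans ((hi _ _).1 hy)
        · rw [List.mem_filterMap, hH, hb]
          constructor
          · rintro ⟨x, hx, hxw⟩
            rw [(hi _ _).1 hxw]
            exact (hm x).1 hx
          · intro h
            exact ⟨f w, (hm _).2 h, (hi _ _).2 rfl⟩)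
  refine ⟨C', ?_, h'.cast rfl rfl ?_ rfl⟩
  · rw [hC']
    clear hC' h' C' h
    induction C using Multiset.induction_on with
    | empty => simp
    | cons p C ih =>
      rw [Multiset.map_cons, Multiset.sum_cons, ih, Multiset.countP_cons, length_pullφ hf,
        length_pullφ hf]
      rw [ite_and_mul, add_comm]
      by_cases hr : onRange f p
      · rw [if_pos hr]
        exact congrArg _ (if_pos hr)
      · rw [if_neg hr]
        exact congrArg _ (if_neg hr)
  · refine Multiset.ext.2 fun a => ?_
    rw [Multiset.count_bind, Multiset.count_univ]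
    have e : ∀ v, Multiset.count a (pullS f v) = if v = f a then 1 else 0 := by
      intro v
      unfold pullS
      cases hv : Function.partialInv f v with
      | none =>
        have h1 := (partialInv_none hf _).1 hv
        rw [if_neg (fun h => h1 ⟨a, h.symm⟩)]
        simp
      | some b =>
        have hb := (hi _ _).1 hv
        rw [← hb]
        by_cases hab : b = a
        · simp [hab]
        · rw [if_neg (fun h => hab (hf h)), Multiset.count_singleton,
            if_neg (fun h => hab h.symm)]
    simp only [e]
    have h1 : ∑ v : V, (if v = f a then 1 else 0) = 1 := by simp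
    exact h1

theorem cr_sum_ge [Fintype V] [DecidableEq V] [Fintype W] [DecidableEq W] (G : SimpleGraph V)
    (H : SimpleGraph W) : crossingNumber G + crossingNumber H ≤ crossingNumber (G ⊕g H) := by
  classical
  obtain ⟨C, h, hC⟩ := cr_attained (G ⊕g H)
  obtain ⟨C₁, hC₁, h1⟩ := h.pull Sum.inl Sum.inl_injective (H := G) (fun a b => by simp)
  obtain ⟨C₂, hC₂, h2⟩ := h.pull Sum.inr Sum.inr_injective (H := H) (fun a b => by simp)
  have h3 := cr_le h1
  have h4 := cr_le h2
  have h5 : C₁.card + C₂.card ≤ C.card := by
    rw [hC₁, hC₂]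
    refine countP_disj _ _ (fun p hp hq => ?_) C
    obtain ⟨a, ha⟩ := hp.1.1
    obtain ⟨b, hb⟩ := hq.1.1
    rw [← hb] at ha
    cases ha
  omega

theorem cr_sum_le [Fintype V] [DecidableEq V] [Fintype W] [DecidableEq W] (G : SimpleGraph V)
    (H : SimpleGraph W) : crossingNumber (G ⊕g H) ≤ crossingNumber G + crossingNumber H := by
  obtain ⟨C₁, h1, hC₁⟩ := cr_attained G
  obtain ⟨C₂, h2, hC₂⟩ := cr_attained H
  obtain ⟨C₃, hC₃, h3⟩ := h1.push Sum.inl Sum.inl_injective (H := G ⊕g H) (by
    rintro v - (y | y) <;> simp)
  obtain ⟨C₄, hC₄, h4⟩ := h2.push Sum.inr Sum.inr_injective (H := G ⊕g H) (by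
    rintro v - (y | y) <;> simp)
  have h5 : DG (G ⊕g H) [] [] (Finset.univ : Finset (V ⊕ W)).val (C₃ + C₄) :=
    (h3.trans h4).cast rfl rfl (by rw [← Finset.univ_disjSum_univ]; rfl) rfl
  have h6 := cr_le h5
  rw [Multiset.card_add] at h6
  omega

/-- The crossing number of a disjoint union. -/
theorem cr_sum [Fintype V] [DecidableEq V] [Fintype W] [DecidableEq W] (G : SimpleGraph V)
    (H : SimpleGraph W) : crossingNumber (G ⊕g H) = crossingNumber G + crossingNumber H :=
  le_antisymm (cr_sum_le G H) (cr_sum_ge G H)

@[simp] theorem cone_none_some (G : SimpleGraph V) (a : V) : (cone G).Adj none (some a) := trivial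

@[simp] theorem cone_some_none (G : SimpleGraph V) (a : V) : (cone G).Adj (some a) none := trivial

@[simp] theorem cone_none_none (G : SimpleGraph V) : ¬ (cone G).Adj none none := fun h => h

@[simp] theorem cone_some_some (G : SimpleGraph V) (a b : V) :
    (cone G).Adj (some a) (some b) ↔ G.Adj a b := Iff.rfl

/-- The cone over a disjoint union. -/
theorem cr_cone_sum [Fintype V] [DecidableEq V] [Fintype W] [DecidableEq W] (G : SimpleGraph V)
    (H : SimpleGraph W) :
    crossingNumber (cone (G ⊕g H)) ≤ crossingNumber (cone G) + crossingNumber (cone H) := by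
  obtain ⟨C₁, h1, hC₁⟩ := cr_attained (cone G)
  obtain ⟨C₂, h2, hC₂⟩ := cr_attained (cone H)
  obtain ⟨X₁, S₁, hS₁, ⟨P₁, hP₁, hm₁, rfl⟩, h1⟩ := h1.last Prod.swap_swap
    (Finset.mem_univ none : none ∈ (Finset.univ : Finset (Option V)).val)
  obtain ⟨X₂, S₂, hS₂, ⟨P₂, hP₂, hm₂, rfl⟩, h2⟩ := h2.last Prod.swap_swap
    (Finset.mem_univ none : none ∈ (Finset.univ : Finset (Option W)).val)
  have hs₁ : (Finset.univ : Finset V).val.map some = S₁ := by
    have h3 : (Finset.univ : Finset (Option V)).val =
        none ::ₘ (Finset.univ : Finset V).val.map some := rfl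
    rw [h3, Multiset.cons_inj_right] at hS₁
    exact hS₁
  have hs₂ : (Finset.univ : Finset W).val.map some = S₂ := by
    have h3 : (Finset.univ : Finset (Option W)).val =
        none ::ₘ (Finset.univ : Finset W).val.map some := rfl
    rw [h3, Multiset.cons_inj_right] at hS₂
    exact hS₂
  subst hs₁ hs₂
  let f₁ : Option V → Option (V ⊕ W) := Option.map Sum.inl
  let f₂ : Option W → Option (V ⊕ W) := Option.map Sum.inr
  have hf₁ : Function.Injective f₁ := Option.map_injective Sum.inl_injective
  have hf₂ : Function.Injective f₂ := Option.map_injective Sum.inr_injective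
  obtain ⟨C₃, hC₃, h3⟩ := h1.push f₁ hf₁ (H := cone (G ⊕g H)) (by
    intro v hv y
    obtain ⟨a, -, rfl⟩ := Multiset.mem_map.1 hv
    rcases y with _ | y | y <;> simp [f₁])
  obtain ⟨C₄, hC₄, h4⟩ := h2.push f₂ hf₂ (H := cone (G ⊕g H)) (by
    intro v hv y
    obtain ⟨a, -, rfl⟩ := Multiset.mem_map.1 hv
    rcases y with _ | y | y <;> simp [f₂])
  have h5 := h3.trans (((h4.ctx ((P₁.map (fun w => (w, none))).map (Prod.map f₁ f₁)) []).cast
    (by simp) rfl rfl rfl))
  have hr : RelG (cone (G ⊕g H)) none ((P₁.map f₁ ++ P₂.map f₂).map (fun w => (w, none))) := by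
    refine ⟨_, ?_, fun y => ?_, rfl⟩
    · rw [List.nodup_append]
      refine ⟨hP₁.map hf₁, hP₂.map hf₂, ?_⟩
      rintro a ha b hb rfl
      obtain ⟨x, hx, hxa⟩ := List.mem_map.1 ha
      obtain ⟨y, hy, hya⟩ := List.mem_map.1 hb
      rcases x with _ | x
      · exact absurd ((hm₁ none).1 hx) (by simp)
      · rcases y with _ | y
        · exact absurd ((hm₂ none).1 hy) (by simp)
        · rw [← hxa] at hya
          simp [f₁, f₂] at hya
    · rw [List.mem_append, List.mem_map, List.mem_map]
      constructor
      · rintro (⟨x, hx, rfl⟩ | ⟨x, hx, rfl⟩)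
        · rcases x with _ | x
          · exact absurd ((hm₁ none).1 hx) (by simp)
          · simp [f₁]
        · rcases x with _ | x
          · exact absurd ((hm₂ none).1 hx) (by simp)
          · simp [f₂]
      · intro hy
        rcases y with _ | y | y
        · exact absurd hy (by simp)
        · exact Or.inl ⟨some y, (hm₁ _).2 (by simp), rfl⟩
        · exact Or.inr ⟨some y, (hm₂ _).2 (by simp), rfl⟩
  have h6 := Der.vertex (A := []) (B := []) none hr (h5.cast rfl (by
    simp only [List.map_append, List.map_map, List.append_nil, List.nil_append]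
    rfl) rfl rfl)
  have h7 : DG (cone (G ⊕g H)) [] [] (Finset.univ : Finset (Option (V ⊕ W))).val (C₃ + C₄) := by
    refine h6.cast rfl (by simp) ?_ rfl
    have e : (Finset.univ : Finset (Option (V ⊕ W))).val =
        none ::ₘ (Finset.univ : Finset (V ⊕ W)).val.map some := rfl
    rw [e, ← Finset.univ_disjSum_univ]
    change _ = none ::ₘ (Multiset.map some
      ((Finset.univ : Finset V).val.map Sum.inl + (Finset.univ : Finset W).val.map Sum.inr))
    rw [Multiset.map_add]
    simp only [Multiset.map_map, f₁, f₂]
    rfl
  have h8 := cr_le h7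
  rw [Multiset.card_add] at h8
  omega

theorem cone_top : cone (⊤ : SimpleGraph V) = ⊤ := by
  ext a b
  rcases a with _ | a <;> rcases b with _ | b <;> simp

/-- The isomorphism of cones. -/
def coneIso {G : SimpleGraph V} {H : SimpleGraph W} (e : G ≃g H) : cone G ≃g cone H where
  toEquiv := Equiv.optionCongr e.toEquiv
  map_rel_iff' := by
    rintro (_ | a) (_ | b)
    · simp
    · simp
    · simp
    · exact e.map_rel_iff

theorem cr_cone_top (n : ℕ) : crossingNumber (cone (⊤ : SimpleGraph (Fin n))) =
    crossingNumber (⊤ : SimpleGraph (Fin (n + 1))) := by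
  rw [cone_top]
  exact cr_iso (SimpleGraph.Iso.completeGraph (finSuccEquiv n)).symm

end Pool.ConeX
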