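import Pool.Agent.Lib.MP_9ec9ec_co.Delete

/-!
Graphs with crossing number exactly `k` whose cones have few more crossings.
-/

namespace Pool.ConeX

open Finset Filter Topology

/-- Some graph with crossing number `k` has a cone with crossing number at most `k + t`. -/
def Up (k : ℕ) (t : ℝ) : Prop :=
  ∃ (n : ℕ) (G : SimpleGraph (Fin n)), crossingNumber G = k ∧ (crossingNumber (cone G) : ℝ) ≤ k + t

theorem Up.mono {k : ℕ} {t s : ℝ} (h : Up k t) (hts : t ≤ s) : Up k s := by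
  obtain ⟨n, G, h1, h2⟩ := h
  exact ⟨n, G, h1, by linarith⟩

theorem Up.add {k l : ℕ} {t s : ℝ} (h : Up k t) (h' : Up l s) : Up (k + l) (t + s) := by
  obtain ⟨n, G, h1, h2⟩ := h
  obtain ⟨m, H, h3, h4⟩ := h'
  let e : Fin n ⊕ Fin m ≃ Fin (n + m) := finSumFinEquiv
  let I : (G ⊕g H) ≃g (G ⊕g H).map e.toEmbedding := SimpleGraph.Iso.map e _
  refine ⟨n + m, (G ⊕g H).map e.toEmbedding, ?_, ?_⟩
  · rw [← cr_iso I, cr_sum, h1, h3]
  · rw [← cr_iso (coneIso I)]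
    have h5 : (crossingNumber (cone (G ⊕g H)) : ℝ) ≤
        ((crossingNumber (cone G) + crossingNumber (cone H) : ℕ) : ℝ) := by
      exact_mod_cast cr_cone_sum G H
    push_cast at h5 ⊢
    linarith

theorem Up_top (n : ℕ) : Up (crK n) ((crK (n + 1) : ℝ) - crK n) :=
  ⟨n, ⊤, rfl, by rw [cr_cone_top]; change (crK (n + 1) : ℝ) ≤ _; linarith⟩

theorem Up_zero : Up 0 0 := by
  have h := Up_top 0
  rw [crK_zero, zero_add, crK_one] at h
  simpa using h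

theorem Up_one : ∃ T : ℝ, 0 ≤ T ∧ Up 1 T := by
  have h := Up_top 5
  rw [crK_five] at h
  refine ⟨_, ?_, h⟩
  have h1 : crK 5 ≤ crK 6 := crK_mono (by norm_num)
  rw [crK_five] at h1
  have h2 : (1 : ℝ) ≤ crK 6 := by exact_mod_cast h1
  push_cast
  linarith

theorem Up_mul {T : ℝ} (h : Up 1 T) (k : ℕ) : Up k (k * T) := by
  induction k with
  | zero => simpa using Up_zero
  | succ k ih =>
    have := ih.add h
    push_cast
    rw [add_mul, one_mul]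
    exact this

/-- Every number is a crossing number. -/
theorem exists_cr (k : ℕ) : ∃ (n : ℕ) (G : SimpleGraph (Fin n)), crossingNumber G = k := by
  obtain ⟨T, -, hT⟩ := Up_one
  obtain ⟨n, G, h, -⟩ := Up_mul hT k
  exact ⟨n, G, h⟩

theorem tendsto_root : Tendsto (fun k : ℕ => (k : ℝ) ^ (1 / 4 : ℝ)) atTop atTop :=
  (tendsto_rpow_atTop (by norm_num)).comp tendsto_natCast_atTop_atTop

theorem root_pow (k : ℕ) : ((k : ℝ) ^ (1 / 4 : ℝ)) ^ 4 = k := by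
  rw [← Real.rpow_natCast, ← Real.rpow_mul (Nat.cast_nonneg k)]
  norm_num

theorem root_cube (k : ℕ) : ((k : ℝ) ^ (1 / 4 : ℝ)) ^ 3 = (k : ℝ) ^ (3 / 4 : ℝ) := by
  rw [← Real.rpow_natCast, ← Real.rpow_mul (Nat.cast_nonneg k)]
  norm_num

variable {κ : ℝ}

/-- The size of the complete graph. -/
noncomputable def sz (β : ℝ) (k : ℕ) : ℕ := ⌊β * (k : ℝ) ^ (1 / 4 : ℝ)⌋₊

theorem sz_div {β : ℝ} (hβ : 0 < β) :
    Tendsto (fun k : ℕ => (sz β k : ℝ) / (k : ℝ) ^ (1 / 4 : ℝ)) atTop (𝓝 β) :=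
  (tendsto_nat_floor_mul_div_atTop hβ.le).comp tendsto_root

theorem sz_top {β : ℝ} (hβ : 0 < β) : Tendsto (sz β) atTop atTop :=
  tendsto_nat_floor_atTop.comp (tendsto_root.const_mul_atTop hβ)

theorem crK_sz (hκ : Tendsto (fun n : ℕ => (crK n : ℝ) / (n : ℝ) ^ 4) atTop (𝓝 κ)) {β : ℝ}
    (hβ : 0 < β) : Tendsto (fun k : ℕ => (crK (sz β k) : ℝ) / k) atTop (𝓝 (κ * β ^ 4)) := by
  have h1 := (hκ.comp (sz_top hβ)).mul ((sz_div hβ).pow 4)
  refine h1.congr' ?_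
  filter_upwards [(sz_top hβ).eventually_ne_atTop 0, eventually_ne_atTop 0] with k h2 h3
  have h2' : (sz β k : ℝ) ≠ 0 := by exact_mod_cast h2
  have h3' : (k : ℝ) ≠ 0 := by exact_mod_cast h3
  simp only [Function.comp_apply]
  rw [div_pow, root_pow]
  field_simp

/-- Almost all of `k` crossings by one complete graph. -/
theorem large_part (hκ0 : 0 < κ)
    (hκ : Tendsto (fun n : ℕ => (crK n : ℝ) / (n : ℝ) ^ 4) atTop (𝓝 κ)) {θ : ℝ} (hθ0 : 0 < θ)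
    (hθ1 : θ < 1) : ∀ᶠ k : ℕ in atTop, ∃ n, crK n ≤ k ∧ (1 - θ) * k ≤ crK n ∧
      (crK (n + 1) : ℝ) - crK n ≤ 4 * κ ^ (1 / 4 : ℝ) * (k : ℝ) ^ (3 / 4 : ℝ) := by
  set b : ℝ := κ ^ (1 / 4 : ℝ) with hb
  have hb0 : 0 < b := Real.rpow_pos_of_pos hκ0 _
  have hb4 : b ^ 4 = κ := by
    rw [hb, ← Real.rpow_natCast, ← Real.rpow_mul hκ0.le]
    norm_num
  -- the two sizes
  let s₁ : ℝ := 1 - θ / 4
  let s₂ : ℝ := 1 - θ / 8
  have hs₁ : 0 < s₁ := by simp only [s₁]; linarith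
  have hs₁₂ : s₁ < s₂ := by simp only [s₁, s₂]; linarith
  have hs₂ : s₂ < 1 := by simp only [s₂]; linarith
  have hs₂0 : 0 < s₂ := hs₁.trans hs₁₂
  have hs₁4 : 1 - θ < s₁ ^ 4 := by
    simp only [s₁]
    nlinarith [sq_nonneg (θ / 4), mul_pos hθ0 hθ0, mul_pos (mul_pos hθ0 hθ0) (sub_pos.2 hθ1), sq_nonneg (1 - θ / 4)]
  have hβ₁ : 0 < s₁ / b := by positivity
  have hβ₂ : 0 < s₂ / b := by positivity
  have l₁ := crK_sz hκ hβ₁
  have l₂ := crK_sz hκ hβ₂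
  have e₁ : κ * (s₁ / b) ^ 4 = s₁ ^ 4 := by rw [div_pow, hb4]; field_simp
  have e₂ : κ * (s₂ / b) ^ 4 = s₂ ^ 4 := by rw [div_pow, hb4]; field_simp
  rw [e₁] at l₁
  rw [e₂] at l₂
  have d := ((sz_div hβ₂).sub (sz_div hβ₁)).const_mul (4 * b)
  have e₃ : s₂ ^ 4 - s₁ ^ 4 < 4 * b * (s₂ / b - s₁ / b) := by
    have : 4 * b * (s₂ / b - s₁ / b) = 4 * (s₂ - s₁) := by field_simp
    rw [this]
    have h1 : s₂ ^ 4 - s₁ ^ 4 = (s₂ - s₁) * ((s₂ + s₁) * (s₂ ^ 2 + s₁ ^ 2)) := by ring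
    rw [h1]
    have h2 : (s₂ + s₁) * (s₂ ^ 2 + s₁ ^ 2) < 4 := by nlinarith
    nlinarith
  have e₄ := (l₂.sub l₁).eventually_lt d e₃
  have e₅ := l₁.eventually_const_lt hs₁4
  have e₆ : ∀ᶠ k : ℕ in atTop, (crK (sz (s₂ / b) k) : ℝ) / k < 1 :=
    l₂.eventually_lt_const (by
      have : s₂ ^ 4 < 1 := by
        exact pow_lt_one₀ hs₂0.le hs₂ (by norm_num)
      exact this)
  filter_upwards [e₄, e₅, e₆, eventually_gt_atTop 0] with k h4 h5 h6 h7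
  have hk : (0 : ℝ) < k := by exact_mod_cast h7
  set N₁ := sz (s₁ / b) k
  set N₂ := sz (s₂ / b) k
  rw [lt_div_iff₀ hk] at h5
  rw [div_lt_one hk] at h6
  set x : ℝ := (k : ℝ) ^ (1 / 4 : ℝ) with hx
  have hx0 : 0 < x := Real.rpow_pos_of_pos hk _
  have hx4 : x ^ 4 = k := root_pow k
  have hx3 : x ^ 3 = (k : ℝ) ^ (3 / 4 : ℝ) := root_cube k
  have hN : N₁ ≤ N₂ := by
    refine Nat.floor_le_floor ?_
    exact mul_le_mul_of_nonneg_right (div_le_div_of_nonneg_right hs₁₂.le hb0.le) hx0.le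
  have h8 : (crK N₂ : ℝ) - crK N₁ < 4 * b * x ^ 3 * ((N₂ : ℝ) - N₁) := by
    have h9 : ((crK N₂ : ℝ) - crK N₁) / k < 4 * b * ((N₂ : ℝ) - N₁) / x := by
      calc ((crK N₂ : ℝ) - crK N₁) / k = (crK N₂ : ℝ) / k - (crK N₁ : ℝ) / k := by rw [sub_div]
        _ < 4 * b * ((N₂ : ℝ) / x - (N₁ : ℝ) / x) := h4
        _ = 4 * b * ((N₂ : ℝ) - N₁) / x := by ring
    rw [div_lt_div_iff₀ hk hx0, ← hx4] at h9
    have h10 : x * ((crK N₂ : ℝ) - crK N₁) < x * (4 * b * x ^ 3 * ((N₂ : ℝ) - N₁)) := by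
      calc x * ((crK N₂ : ℝ) - crK N₁) = ((crK N₂ : ℝ) - crK N₁) * x := by ring
        _ < 4 * b * ((N₂ : ℝ) - N₁) * x ^ 4 := h9
        _ = x * (4 * b * x ^ 3 * ((N₂ : ℝ) - N₁)) := by ring
    exact lt_of_mul_lt_mul_left h10 hx0.le
  -- a small increment
  obtain ⟨n, hn, hn'⟩ : ∃ n ∈ Finset.Ico N₁ N₂, (crK (n + 1) : ℝ) - crK n ≤ 4 * b * x ^ 3 := by
    by_contra hcon
    push Not at hcon
    have h9 : ∑ n ∈ Finset.Ico N₁ N₂, 4 * b * x ^ 3 ≤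
        ∑ n ∈ Finset.Ico N₁ N₂, ((crK (n + 1) : ℝ) - crK n) :=
      Finset.sum_le_sum fun n hn => (hcon n hn).le
    rw [Finset.sum_Ico_sub (fun n => (crK n : ℝ)) hN, Finset.sum_const, Nat.card_Ico, nsmul_eq_mul,
      Nat.cast_sub hN] at h9
    linarith
  rw [Finset.mem_Ico] at hn
  refine ⟨n, ?_, ?_, ?_⟩
  · have h9 : (crK n : ℝ) ≤ crK N₂ := by exact_mod_cast crK_mono hn.2.le
    have h10 : (crK n : ℝ) < k := by linarith
    exact_mod_cast h10.le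
  · have h9 : (crK N₁ : ℝ) ≤ crK n := by exact_mod_cast crK_mono hn.1
    linarith
  · rw [← hx3]
    exact hn'

/-- A crude bound for every `k`. -/
theorem crude (hκ0 : 0 < κ)
    (hκ : Tendsto (fun n : ℕ => (crK n : ℝ) / (n : ℝ) ^ 4) atTop (𝓝 κ)) :
    ∃ C D : ℝ, 0 ≤ C ∧ 0 ≤ D ∧ ∀ k : ℕ, Up k (C * (k : ℝ) ^ (3 / 4 : ℝ) + D) := by
  obtain ⟨K, hK⟩ := eventually_atTop.1 (large_part hκ0 hκ (θ := 1 / 2) (by norm_num) (by norm_num))
  obtain ⟨T, hT0, hT⟩ := Up_one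
  set c : ℝ := 4 * κ ^ (1 / 4 : ℝ)
  have hc : 0 ≤ c := by positivity
  refine ⟨5 / 2 * c, K * T, by positivity, by positivity, fun k => ?_⟩
  induction k using Nat.strong_induction_on with
  | _ k ih =>
    rcases lt_or_ge k (max K 1) with hlt | hge
    · refine (Up_mul hT k).mono ?_
      have h1 : (k : ℝ) * T ≤ K * T := by
        refine mul_le_mul_of_nonneg_right ?_ hT0
        exact_mod_cast (by omega : k ≤ K)
      have h2 : 0 ≤ 5 / 2 * c * (k : ℝ) ^ (3 / 4 : ℝ) := by positivity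
      linarith
    · obtain ⟨n, h1, h2, h3⟩ := hK k (le_of_max_le_left hge)
      have hk : (1 : ℝ) ≤ k := by exact_mod_cast le_of_max_le_right hge
      have h4 : 0 < crK n := by
        by_contra hcon
        have : crK n = 0 := by omega
        rw [this] at h2
        push_cast at h2
        linarith
      have h5 := (Up_top n).add (ih (k - crK n) (by omega))
      rw [Nat.add_sub_cancel' h1] at h5
      refine h5.mono ?_
      have h6 : ((k - crK n : ℕ) : ℝ) ≤ k / 2 := by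
        rw [Nat.cast_sub h1]
        linarith
      have h7 : ((k - crK n : ℕ) : ℝ) ^ (3 / 4 : ℝ) ≤ 3 / 5 * (k : ℝ) ^ (3 / 4 : ℝ) := by
        calc ((k - crK n : ℕ) : ℝ) ^ (3 / 4 : ℝ) ≤ ((1 / 2 : ℝ) * k) ^ (3 / 4 : ℝ) :=
              Real.rpow_le_rpow (Nat.cast_nonneg _) (by linarith) (by norm_num)
          _ = (1 / 2 : ℝ) ^ (3 / 4 : ℝ) * (k : ℝ) ^ (3 / 4 : ℝ) :=
              Real.mul_rpow (by norm_num) (by linarith)
          _ ≤ 3 / 5 * (k : ℝ) ^ (3 / 4 : ℝ) := by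
              refine mul_le_mul_of_nonneg_right ?_ (by positivity)
              have h8 : ((1 / 2 : ℝ) ^ (3 / 4 : ℝ)) ^ 4 ≤ (3 / 5 : ℝ) ^ 4 := by
                rw [← Real.rpow_natCast, ← Real.rpow_mul (by norm_num)]
                norm_num
              exact le_of_pow_le_pow_left₀ (by norm_num) (by norm_num) h8
      have h8 : 5 / 2 * c * ((k - crK n : ℕ) : ℝ) ^ (3 / 4 : ℝ) ≤
          5 / 2 * c * (3 / 5 * (k : ℝ) ^ (3 / 4 : ℝ)) :=
        mul_le_mul_of_nonneg_left h7 (by positivity)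
      linarith

/-- **The upper bound.** -/
theorem upper (hκ0 : 0 < κ)
    (hκ : Tendsto (fun n : ℕ => (crK n : ℝ) / (n : ℝ) ^ 4) atTop (𝓝 κ)) {ε : ℝ} (hε : 0 < ε) :
    ∀ᶠ k : ℕ in atTop, Up k ((4 * κ ^ (1 / 4 : ℝ) + ε) * (k : ℝ) ^ (3 / 4 : ℝ)) := by
  obtain ⟨C, D, hC, hD, h⟩ := crude hκ0 hκ
  -- the fraction
  let s : ℝ := min (1 / 2) (ε / (2 * (C + 1)))
  have hs0 : 0 < s := lt_min (by norm_num) (by positivity)
  have hs1 : s ≤ 1 / 2 := min_le_left _ _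
  have hs2 : C * s ^ 3 ≤ ε / 2 := by
    have h1 : s ≤ ε / (2 * (C + 1)) := min_le_right _ _
    have h2 : s ^ 3 ≤ s := by
      calc s ^ 3 = s * s ^ 2 := by ring
        _ ≤ s * 1 := by
          refine mul_le_mul_of_nonneg_left ?_ hs0.le
          nlinarith
        _ = s := mul_one s
    calc C * s ^ 3 ≤ (C + 1) * s := by nlinarith [mul_nonneg hC hs0.le, mul_le_mul_of_nonneg_left h2 hC]
      _ ≤ (C + 1) * (ε / (2 * (C + 1))) := mul_le_mul_of_nonneg_left h1 (by positivity)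
      _ = ε / 2 := by field_simp
  have h1 := large_part hκ0 hκ (θ := s ^ 4) (by positivity) (by
    have : s ^ 4 ≤ (1 / 2) ^ 4 := pow_le_pow_left₀ hs0.le hs1 4
    linarith)
  have h2 : ∀ᶠ k : ℕ in atTop, D ≤ ε / 2 * (k : ℝ) ^ (3 / 4 : ℝ) :=
    (((tendsto_rpow_atTop (by norm_num : (0:ℝ) < 3 / 4)).comp
      tendsto_natCast_atTop_atTop).const_mul_atTop (by positivity)).eventually_ge_atTop D
  filter_upwards [h1, h2] with k h3 h4
  obtain ⟨n, h5, h6, h7⟩ := h3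
  have h8 := (Up_top n).add (h (k - crK n))
  rw [Nat.add_sub_cancel' h5] at h8
  refine h8.mono ?_
  have h9 : ((k - crK n : ℕ) : ℝ) ≤ s ^ 4 * k := by
    rw [Nat.cast_sub h5]
    linarith
  have h10 : ((k - crK n : ℕ) : ℝ) ^ (3 / 4 : ℝ) ≤ s ^ 3 * (k : ℝ) ^ (3 / 4 : ℝ) := by
    calc ((k - crK n : ℕ) : ℝ) ^ (3 / 4 : ℝ) ≤ (s ^ 4 * k) ^ (3 / 4 : ℝ) :=
          Real.rpow_le_rpow (Nat.cast_nonneg _) h9 (by norm_num)
      _ = (s ^ 4) ^ (3 / 4 : ℝ) * (k : ℝ) ^ (3 / 4 : ℝ) :=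
          Real.mul_rpow (by positivity) (Nat.cast_nonneg _)
      _ = s ^ 3 * (k : ℝ) ^ (3 / 4 : ℝ) := by
          congr 1
          rw [← Real.rpow_natCast, ← Real.rpow_mul hs0.le, ← Real.rpow_natCast]
          norm_num
  have h11 : C * ((k - crK n : ℕ) : ℝ) ^ (3 / 4 : ℝ) ≤ ε / 2 * (k : ℝ) ^ (3 / 4 : ℝ) := by
    calc C * ((k - crK n : ℕ) : ℝ) ^ (3 / 4 : ℝ) ≤ C * (s ^ 3 * (k : ℝ) ^ (3 / 4 : ℝ)) :=
          mul_le_mul_of_nonneg_left h10 hC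
      _ = (C * s ^ 3) * (k : ℝ) ^ (3 / 4 : ℝ) := by ring
      _ ≤ ε / 2 * (k : ℝ) ^ (3 / 4 : ℝ) := mul_le_mul_of_nonneg_right hs2 (by positivity)
  linarith

end Pool.ConeX
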