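import Pool.Agent.Lib.MP_9ec9ec_co.Upper

/-!
The upper half of the conjecture on the increase of the crossing number under coning, and its relation to the
crossing numbers of complete graphs.
-/

namespace Pool.ConeX

open Filter Topology

theorem sqrt_two_pow_four : (√2 : ℝ) ^ 4 = 4 := by
  have : (√2 : ℝ) ^ 4 = ((√2) ^ 2) ^ 2 := by ring
  rw [this, Real.sq_sqrt (by norm_num)]
  norm_num

theorem four_root_le {κ : ℝ} (h0 : 0 ≤ κ) (h : κ ≤ 1 / 64) :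
    4 * κ ^ (1 / 4 : ℝ) ≤ √2 := by
  refine le_of_pow_le_pow_left₀ (n := 4) (by norm_num) (Real.sqrt_nonneg 2) ?_
  rw [sqrt_two_pow_four, mul_pow, ← Real.rpow_natCast (κ ^ (1 / 4 : ℝ)), ← Real.rpow_mul h0]
  norm_num
  linarith

theorem le_four_root {κ : ℝ} (h0 : 0 ≤ κ) (h : √2 ≤ 4 * κ ^ (1 / 4 : ℝ)) : 1 / 64 ≤ κ := by
  have h2 := pow_le_pow_left₀ (Real.sqrt_nonneg 2) h 4
  rw [sqrt_two_pow_four, mul_pow, ← Real.rpow_natCast (κ ^ (1 / 4 : ℝ)),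
    ← Real.rpow_mul h0] at h2
  norm_num at h2
  linarith

/-- The upper half of the conjecture; the lower half implies the value of `lim cr(K_n) / n⁴`. -/
theorem cone_upper : ∃ κ : ℝ, 1 / 120 ≤ κ ∧ κ ≤ 1 / 64 ∧
    Tendsto (fun n : ℕ => (crossingNumber (⊤ : SimpleGraph (Fin n)) : ℝ) / (n : ℝ) ^ 4) atTop
      (𝓝 κ) ∧
    4 * κ ^ (1 / 4 : ℝ) ≤ √2 ∧
    (∀ ε : ℝ, 0 < ε → ∀ᶠ k : ℕ in atTop, ∃ (n : ℕ) (G : SimpleGraph (Fin n)),
      crossingNumber G = k ∧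
      (crossingNumber (cone G) : ℝ) ≤ k + (4 * κ ^ (1 / 4 : ℝ) + ε) * (k : ℝ) ^ (3 / 4 : ℝ)) ∧
    ((∀ ε : ℝ, 0 < ε → ∀ᶠ k : ℕ in atTop, ∀ (n : ℕ) (G : SimpleGraph (Fin n)),
      crossingNumber G = k →
      k + (√2 - ε) * (k : ℝ) ^ (3 / 4 : ℝ) ≤ (crossingNumber (cone G) : ℝ)) → κ = 1 / 64) := by
  obtain ⟨κ, h1, h2, h3⟩ := exists_limit
  have h0 : 0 < κ := lt_of_lt_of_le (by norm_num) h1
  refine ⟨κ, h1, h2, h3, four_root_le h0.le h2, fun ε hε => upper h0 h3 hε, fun h => ?_⟩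
  refine le_antisymm h2 (le_four_root h0.le ?_)
  refine le_of_forall_pos_le_add fun ε hε => ?_
  obtain ⟨k, hk1, ⟨n, G, hG, hk2⟩, hk3⟩ := ((h (ε / 2) (by positivity)).and
    ((upper h0 h3 (ε := ε / 2) (by positivity)).and (eventually_gt_atTop 0))).exists
  have hk : (0 : ℝ) < (k : ℝ) ^ (3 / 4 : ℝ) := Real.rpow_pos_of_pos (by exact_mod_cast hk3) _
  have h5 := (hk1 n G hG).trans hk2
  have h6 : (√2 - ε / 2) * (k : ℝ) ^ (3 / 4 : ℝ) ≤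
      (4 * κ ^ (1 / 4 : ℝ) + ε / 2) * (k : ℝ) ^ (3 / 4 : ℝ) := by linarith
  have h7 := le_of_mul_le_mul_right h6 hk
  linarith

end Pool.ConeX
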